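import Pool.Agent.H853Z.Tsm.Norm

set_option autoImplicit false

/-! Upper and lower estimates for sums of blocks. -/

namespace Pool.Agent.H853Z.Tsm

open Finset Filter Topology

def Bnd (lam : ℝ) (a b : ℕ) (x : ℕ → ℝ) : Prop :=
  ∀ m : ℕ → ℝ, (∀ i, 0 ≤ m i) → (∀ i ∈ Ico a b, x i = 0 → m i = 0) →
    ∑ s ∈ Ico a b, tm x m a s
      ≤ (∑ s ∈ Ico a b, m s) * lam - (∑ s ∈ Ico a b, m s) * Real.log (∑ s ∈ Ico a b, m s) / 4

lemma Bnd_congr {lam : ℝ} {a b : ℕ} {x y : ℕ → ℝ} (h : ∀ i ∈ Ico a b, x i = y i)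
    (hx : Bnd lam a b x) : Bnd lam a b y := by
  intro m h0 h1
  refine le_of_eq_of_le ?_ (hx m h0 (fun i hi h2 => h1 i hi (by rw [← h i hi, h2])))
  apply Finset.sum_congr rfl
  intro s hs; unfold tm; rw [h s hs]

lemma NN_of_Bnd {lam : ℝ} {a b : ℕ} {x : ℕ →₀ ℝ} (hS : x.support ⊆ Ico a b) (hx : Bnd lam a b x) :
    NN x ≤ Real.exp lam := by
  apply NN_le (Real.exp_pos _).le
  intro μ hμ
  have h := hx μ hμ.1 (fun i _ => hμ.2.1 i)
  rw [← sum_supp hS hμ.2.1, hμ.2.2] at h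
  rw [Real.exp_le_exp, EE_eq hS hμ.2.1]
  refine le_trans (Finset.sum_le_sum ?_) (by simpa using h)
  intro s hs
  have hs' := Finset.mem_Ico.1 hs
  unfold tm
  rcases (hμ.1 s).eq_or_lt with h0 | h0
  · rw [← h0]; simp
  · have := Vm_anti hμ.1 h0 (Nat.zero_le a) hs'.1
    exact mul_le_mul_of_nonneg_left (by linarith) h0.le

lemma Bnd_of_NN {lam : ℝ} {a b : ℕ} {x : ℕ →₀ ℝ} (hS : x.support ⊆ Ico a b)
    (hx : NN x ≤ Real.exp lam) : Bnd (lam + 1) a b x := by
  intro m h0 h1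
  set τ := ∑ s ∈ Ico a b, m s with hτ
  rcases (Finset.sum_nonneg (fun i (_ : i ∈ Ico a b) => h0 i)).eq_or_lt with hz | hz
  · have h2 := (Finset.sum_eq_zero_iff_of_nonneg (fun i _ => h0 i)).1 hz.symm
    rw [Finset.sum_eq_zero (fun s hs => by unfold tm; rw [h2 s hs, zero_mul]), hτ, ← hz]; simp
  rw [← hτ] at hz
  set μ : ℕ → ℝ := fun i => if i ∈ Ico a b then τ⁻¹ * m i else 0 with hμ
  have m0 : ∀ i, 0 ≤ μ i := by
    intro i; simp only [hμ]; split_ifs
    · exact mul_nonneg (inv_pos.2 hz).le (h0 i)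
    · exact le_rfl
  have m1 : ∀ i, x i = 0 → μ i = 0 := by
    intro i hi; simp only [hμ]; split_ifs with h
    · rw [h1 i h hi, mul_zero]
    · rfl
  have m2 : ∀ i ∈ Ico a b, μ i = τ⁻¹ * m i := fun i hi => by simp only [hμ]; rw [if_pos hi]
  have m3 : ∑ s ∈ Ico a b, μ s = 1 := by
    rw [Finset.sum_congr rfl m2, ← Finset.mul_sum, ← hτ, inv_mul_cancel₀ hz.ne']
  have ad : Adm x μ := ⟨m0, m1, by rw [sum_supp hS m1, m3]⟩
  have h3 := Real.exp_le_exp.1 ((le_NN ad).trans hx)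
  rw [EE_eq hS m1] at h3
  have h4 : ∀ s ∈ Ico a b, tm x m a s ≤ τ * tm x μ 0 s + m s * (1 - Real.log τ / 4) := by
    intro s hs
    have hs' := Finset.mem_Ico.1 hs
    rcases (h0 s).eq_or_lt with h5 | h5
    · unfold tm; rw [m2 s hs, ← h5]; simp
    have h6 : 0 < μ s := by rw [m2 s hs]; positivity
    have h7 : Vm μ a s = Vm m a s := Vm_congr (inv_pos.2 hz).ne' (fun i h8 h9 =>
      m2 i (Finset.mem_Ico.2 ⟨h8, by omega⟩))
    have h8 := Vm_skip m0 h6 hs'.1 (fun i hi => by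
      simp only [hμ]; rw [if_neg (by simp; omega)])
    unfold tm
    rw [m2 s hs, Real.log_mul (inv_pos.2 hz).ne' h5.ne', Real.log_inv, ← mul_assoc, ← mul_assoc,
      mul_inv_cancel₀ hz.ne', one_mul, ← mul_add]
    exact mul_le_mul_of_nonneg_left (by linarith) h5.le
  refine (Finset.sum_le_sum h4).trans ?_
  rw [Finset.sum_add_distrib, ← Finset.mul_sum, ← Finset.sum_mul, ← hτ]
  nlinarith [mul_le_mul_of_nonneg_left h3 hz.le]

lemma sum_blocks {c : ℕ → ℕ} (hc : Monotone c) (f : ℕ → ℝ) (n : ℕ) :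
    ∑ s ∈ Ico (c 0) (c n), f s = ∑ i ∈ range n, ∑ s ∈ Ico (c i) (c (i + 1)), f s := by
  induction n with
  | zero => simp
  | succ n ih =>
    rw [Finset.sum_range_succ, ← ih,
      Finset.sum_Ico_consecutive _ (hc (Nat.zero_le n)) (hc (Nat.le_succ n))]

lemma small_part {τ : ℕ → ℝ} (h0 : ∀ i, 0 ≤ τ i) {γ : ℝ} (hγ : 0 ≤ γ) (k : ℕ) :
    ∑ i ∈ range k, (if ∑ j ∈ range (i + 1), τ j ≤ γ then τ i else 0) ≤ γ := by
  induction k with
  | zero => simpa using hγ
  | succ k ih =>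
    by_cases h : ∑ j ∈ range (k + 1), τ j ≤ γ
    · refine le_trans (Finset.sum_le_sum (fun i _ => ?_)) h
      split_ifs
      · exact le_rfl
      · exact h0 i
    · rw [Finset.sum_range_succ, if_neg h, add_zero]; exact ih

lemma scalar_step {α : ℝ} (hα : 0 < α) : ∃ n : ℕ, 0 < n ∧ ∀ τ : ℕ → ℝ, (∀ i, 0 ≤ τ i) →
    ∑ i ∈ range n, τ i * (τ i / ∑ j ∈ range (i + 1), τ j) ^ α
      ≤ (∑ i ∈ range n, τ i) / 2 + (∑ i ∈ range n, τ i * Real.log (τ i)
        + (∑ i ∈ range n, τ i) * Real.log n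
        - (∑ i ∈ range n, τ i) * Real.log (∑ i ∈ range n, τ i)) / 4 := by
  have hδ : 0 < ((1:ℝ) / 4) ^ α⁻¹ := by positivity
  obtain ⟨n, hn⟩ := exists_nat_gt (4 * Real.exp 5 / ((1:ℝ) / 4) ^ α⁻¹)
  have hn0 : (0:ℝ) < n := lt_trans (by positivity) hn
  refine ⟨n, by exact_mod_cast hn0, fun τ h0 => ?_⟩
  set T := ∑ i ∈ range n, τ i with hT
  rcases (Finset.sum_nonneg (fun i (_ : i ∈ range n) => h0 i)).eq_or_lt with hz | hz
  · have h2 := (Finset.sum_eq_zero_iff_of_nonneg (fun i _ => h0 i)).1 hz.symm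
    rw [Finset.sum_eq_zero (fun s hs => by rw [h2 s hs, zero_mul]),
      Finset.sum_eq_zero (fun s hs => by rw [h2 s hs, zero_mul]), hT, ← hz]; simp
  rw [← hT] at hz
  have pt : ∀ i ∈ range n, τ i * (τ i / ∑ j ∈ range (i + 1), τ j) ^ α
      ≤ (if ∑ j ∈ range (i + 1), τ j ≤ T / 4 then τ i else 0) + τ i / 4
        + (τ i * Real.log (τ i) + τ i * Real.log n - τ i * Real.log T - τ i + T / n) / 4 := by
    intro i _
    rcases (h0 i).eq_or_lt with h1 | h1
    · rw [← h1]; simp; positivity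
    set S := ∑ j ∈ range (i + 1), τ j
    have hS : τ i ≤ S := Finset.single_le_sum (fun j _ => h0 j) (Finset.self_mem_range_succ i)
    have hS0 : 0 < S := lt_of_lt_of_le h1 hS
    have q1 : (τ i / S) ^ α ≤ 1 :=
      Real.rpow_le_one (by positivity) (div_le_one_of_le₀ hS hS0.le) hα.le
    have q2 : τ i * (τ i / S) ^ α ≤ τ i := by nlinarith
    have el : Real.log (τ i) + Real.log n - Real.log T = Real.log (τ i * n / T) := by
      rw [Real.log_div (by positivity) hz.ne', Real.log_mul h1.ne' hn0.ne']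
    have e2 : τ i * Real.log (τ i) + τ i * Real.log n - τ i * Real.log T
        = τ i * Real.log (τ i * n / T) := by rw [← el]; ring
    rw [e2]
    have k1 : 0 ≤ τ i * Real.log (τ i * n / T) - τ i + T / n := by
      have h3 := Real.one_sub_inv_le_log_of_pos (show 0 < τ i * n / T by positivity)
      have h4 := mul_le_mul_of_nonneg_left h3 h1.le
      have h5 : τ i * (1 - (τ i * n / T)⁻¹) = τ i - T / n := by field_simp
      linarith
    split_ifs with h2
    · linarith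
    · push Not at h2
      by_cases h3 : τ i * n / T ≤ Real.exp 5
      · have h4 : τ i / S ≤ ((1:ℝ) / 4) ^ α⁻¹ := by
          rw [div_lt_iff₀ hδ] at hn
          rw [div_le_iff₀ hz] at h3
          rw [div_le_iff₀ hS0]
          have h5 : τ i * n ≤ (((1:ℝ) / 4) ^ α⁻¹ * S) * n := by
            have := Real.exp_pos 5
            nlinarith
          exact le_of_mul_le_mul_right h5 hn0
        have h5 := Real.rpow_le_rpow (by positivity) h4 hα.le
        rw [Real.rpow_inv_rpow (by norm_num) hα.ne'] at h5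
        nlinarith
      · push Not at h3
        have h4 : 5 ≤ Real.log (τ i * n / T) := by
          rw [Real.le_log_iff_exp_le (by positivity)]; exact h3.le
        have : 0 < T / n := by positivity
        nlinarith
  refine (Finset.sum_le_sum pt).trans ?_
  have h6 := small_part h0 (show 0 ≤ T / 4 by positivity) n
  simp only [Finset.sum_add_distrib, Finset.sum_sub_distrib, ← Finset.sum_div, ← Finset.sum_mul,
    ← hT, Finset.sum_const, Finset.card_range, nsmul_eq_mul]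
  have : (n:ℝ) * T / n = T := by field_simp
  linarith

lemma Bnd_step (a : ℕ) : ∃ n : ℕ, 0 < n ∧ ∀ (c : ℕ → ℕ) (x : ℕ → ℝ) (lam κ : ℝ), c 0 = a →
    Monotone c → (∀ i, i < n → Bnd lam (c i) (c (i + 1)) x) → 0 < κ →
    Real.log κ ≤ -Real.log n / 4 → Bnd (lam - 1 / 2) a (c n) (fun i => κ * x i) := by
  obtain ⟨n, hn, H⟩ := scalar_step (al_pos a)
  refine ⟨n, hn, fun c x lam κ c0 hc hB hκ hκn m h0 h1 => ?_⟩
  subst c0
  set τ : ℕ → ℝ := fun i => ∑ s ∈ Ico (c i) (c (i + 1)), m s with hτ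
  have τ0 : ∀ i, 0 ≤ τ i := fun i => Finset.sum_nonneg (fun s _ => h0 s)
  have hH := H τ τ0
  rw [sum_blocks hc, sum_blocks hc]
  have blk : ∀ i ∈ range n, ∑ s ∈ Ico (c i) (c (i + 1)), tm (fun i => κ * x i) m (c 0) s
      ≤ τ i * lam - τ i * Real.log (τ i) / 4 - τ i * (Real.log n / 4 + 1)
        + τ i * (τ i / ∑ j ∈ range (i + 1), τ j) ^ al (c 0) := by
    intro i hi
    have hi' := Finset.mem_range.1 hi
    have sub : ∀ s ∈ Ico (c i) (c (i + 1)), s ∈ Ico (c 0) (c n) := by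
      intro s hs
      simp only [Finset.mem_Ico] at hs ⊢
      exact ⟨(hc (Nat.zero_le i)).trans hs.1, lt_of_lt_of_le hs.2 (hc hi')⟩
    have h2 := hB i hi' m h0 (fun s hs hx => h1 s (sub s hs) (by simp [hx]))
    have h3 : ∀ s ∈ Ico (c i) (c (i + 1)), tm (fun i => κ * x i) m (c 0) s
        ≤ tm x m (c i) s + m s * (-(Real.log n / 4 + 1)
          + (τ i / ∑ j ∈ range (i + 1), τ j) ^ al (c 0)) := by
      intro s hs
      have hs' := Finset.mem_Ico.1 hs
      rcases (h0 s).eq_or_lt with h5 | h5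
      · unfold tm; rw [← h5]; simp
      have hx : x s ≠ 0 := fun hx => h5.ne' (h1 s (sub s hs) (by simp [hx]))
      have g := Vm_gain h0 h5 (hc (Nat.zero_le i)) hs'.1
      have q : Qm m (c 0) (c i) s ≤ (τ i / ∑ j ∈ range (i + 1), τ j) ^ al (c 0) := by
        apply Real.rpow_le_rpow (div_nonneg (Dm_nonneg h0 _ _) (Dm_nonneg h0 _ _)) _ (al_pos _).le
        have e1 : Dm m (c 0) s = ∑ j ∈ range i, τ j + Dm m (c i) s := by
          unfold Dm; rw [Icc_split2 (hc (Nat.zero_le i)) hs'.1, sum_blocks hc]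
        have e2 : Dm m (c i) s ≤ τ i := Finset.sum_le_sum_of_subset_of_nonneg (by
          intro t ht; simp only [Finset.mem_Icc, Finset.mem_Ico] at ht ⊢; omega) (fun t _ _ => h0 t)
        have e3 := Dm_pos h0 h5 hs'.1
        have e4 : 0 ≤ ∑ j ∈ range i, τ j := Finset.sum_nonneg (fun j _ => τ0 j)
        rw [e1, Finset.sum_range_succ, div_le_div_iff₀ (by linarith) (by linarith)]
        nlinarith
      unfold tm
      rw [abs_mul, Real.log_mul (abs_ne_zero.2 hκ.ne') (abs_ne_zero.2 hx), abs_of_pos hκ, ← mul_add]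
      exact mul_le_mul_of_nonneg_left (by linarith) h5.le
    refine (Finset.sum_le_sum h3).trans ?_
    rw [Finset.sum_add_distrib, ← Finset.sum_mul]
    have e : ∑ s ∈ Ico (c i) (c (i + 1)), m s = τ i := rfl
    rw [e] at h2 ⊢
    linarith
  refine (Finset.sum_le_sum blk).trans ?_
  have e : ∀ i, ∑ s ∈ Ico (c i) (c (i + 1)), m s = τ i := fun i => rfl
  simp only [e, Finset.sum_add_distrib, Finset.sum_sub_distrib, ← Finset.sum_div, ← Finset.sum_mul]
  linarith

def Low (lam : ℝ) (a b : ℕ) (x : ℕ → ℝ) : Prop :=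
  ∃ μ : ℕ → ℝ, (∀ i, 0 ≤ μ i) ∧ (∀ i, i ∉ Ico a b → μ i = 0) ∧ (∀ i ∈ Ico a b, x i = 0 → μ i = 0) ∧
    ∑ s ∈ Ico a b, μ s = 1 ∧ lam ≤ ∑ s ∈ Ico a b, tm x μ 0 s

lemma Low_congr {lam : ℝ} {a b : ℕ} {x y : ℕ → ℝ} (h : ∀ i ∈ Ico a b, x i = y i)
    (hx : Low lam a b x) : Low lam a b y := by
  obtain ⟨μ, h0, h1, h2, h3, h4⟩ := hx
  refine ⟨μ, h0, h1, fun i hi h5 => h2 i hi (by rw [h i hi, h5]), h3, h4.trans (le_of_eq ?_)⟩
  apply Finset.sum_congr rfl
  intro s hs; unfold tm; rw [h s hs]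

lemma Low_of_NN {lam : ℝ} {a b : ℕ} {x : ℕ →₀ ℝ} (hS : x.support ⊆ Ico a b)
    (hx : Real.exp lam < NN x) : Low lam a b x := by
  obtain ⟨μ, ad, h⟩ := lt_NN hx
  refine ⟨μ, ad.1, fun i hi => ad.2.1 i ?_, fun i _ => ad.2.1 i, ?_, ?_⟩
  · by_contra h2; exact hi (hS (by simpa using h2))
  · rw [← sum_supp hS ad.2.1, ad.2.2]
  · rwa [← EE_eq hS ad.2.1]

lemma sqrt_sum {μ : ℕ → ℝ} (h0 : ∀ i, 0 ≤ μ i) (a b : ℕ) :
    ∑ s ∈ Ico a b, μ s / Real.sqrt (Dm μ a s) ≤ 2 * Real.sqrt (∑ s ∈ Ico a b, μ s) := by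
  by_cases hab : a ≤ b
  swap
  · rw [Finset.Ico_eq_empty (by omega)]; simp
  induction b, hab using Nat.le_induction with
  | base => simp
  | succ b hab ih =>
    have e : Dm μ a b = ∑ s ∈ Ico a b, μ s + μ b := by
      unfold Dm; rw [← Finset.sum_Ico_succ_top hab]; rfl
    rw [Finset.sum_Ico_succ_top hab, Finset.sum_Ico_succ_top hab, e]
    have hP : 0 ≤ ∑ s ∈ Ico a b, μ s := Finset.sum_nonneg (fun s _ => h0 s)
    set P := ∑ s ∈ Ico a b, μ s
    have h1 : μ b / Real.sqrt (P + μ b) ≤ 2 * (Real.sqrt (P + μ b) - Real.sqrt P) := by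
      have m1 : Real.sqrt P ≤ Real.sqrt (P + μ b) := Real.sqrt_le_sqrt (by linarith [h0 b])
      rcases (h0 b).eq_or_lt with h2 | h2
      · rw [← h2]; simp
      · have p : 0 < Real.sqrt (P + μ b) := Real.sqrt_pos.2 (by linarith)
        rw [div_le_iff₀ p]
        have s1 := Real.mul_self_sqrt hP
        have s2 := Real.mul_self_sqrt (show 0 ≤ P + μ b by linarith)
        nlinarith [sq_nonneg (Real.sqrt (P + μ b) - Real.sqrt P)]
    linarith

lemma rpow_al_le (n : ℕ) (hn : 0 < n) : (n:ℝ) ^ al n ≤ 3 := by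
  have hn0 : (0:ℝ) < n := by exact_mod_cast hn
  rw [Real.rpow_def_of_pos hn0]
  have h1 : Real.log n ≤ n := (Real.log_le_sub_one_of_pos hn0).trans (by linarith)
  have h2 : (n:ℝ) ≤ 4 ^ n := by
    have : n < 4 ^ n := Nat.lt_pow_self (by norm_num)
    exact_mod_cast this.le
  have h3 : Real.log n * al n ≤ 1 := by
    unfold al
    rw [mul_one_div, div_le_one (by positivity)]
    have : (0:ℝ) < 4 ^ n := by positivity
    linarith
  exact (Real.exp_le_exp.2 h3).trans (by linarith [Real.exp_one_lt_d9])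

lemma Low_comb {n : ℕ} (hn : 0 < n) {c : ℕ → ℕ} (c0 : c 0 = n) (hc : Monotone c) {lam : ℝ}
    {x : ℕ →₀ ℝ} (hS : x.support ⊆ Ico (c 0) (c n))
    (hL : ∀ i, i < n → Low lam (c i) (c (i + 1)) x) :
    Real.exp (lam + Real.log n / 4 - 7) ≤ NN x := by
  have hn0 : (0:ℝ) < n := by exact_mod_cast hn
  choose! ν v0 v1 v2 v3 v4 using hL
  set μ : ℕ → ℝ := fun s => (n:ℝ)⁻¹ * ∑ i ∈ range n, ν i s with hμ
  have m0 : ∀ s, 0 ≤ μ s := fun s => mul_nonneg (by positivity)
    (Finset.sum_nonneg (fun i hi => v0 i (Finset.mem_range.1 hi) s))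
  have m1 : ∀ j, j < n → ∀ s ∈ Ico (c j) (c (j + 1)), μ s = (n:ℝ)⁻¹ * ν j s := by
    intro j hj s hs
    simp only [hμ]
    rw [Finset.sum_eq_single_of_mem j (Finset.mem_range.2 hj)]
    intro i hi hij
    apply v1 i (Finset.mem_range.1 hi)
    simp only [Finset.mem_Ico] at hs ⊢
    rcases lt_or_gt_of_ne hij with h | h
    · have := hc (show i + 1 ≤ j from h); omega
    · have := hc (show j + 1 ≤ i from h); omega
  have m2 : ∀ s, x s = 0 → μ s = 0 := by
    intro s hs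
    simp only [hμ]
    rw [Finset.sum_eq_zero, mul_zero]
    intro i hi
    by_cases h : s ∈ Ico (c i) (c (i + 1))
    · exact v2 i (Finset.mem_range.1 hi) s h hs
    · exact v1 i (Finset.mem_range.1 hi) s h
  have m3 : ∑ s ∈ Ico (c 0) (c n), μ s = 1 := by
    rw [sum_blocks hc, Finset.sum_congr rfl (g := fun _ => (n:ℝ)⁻¹)]
    · simp [hn.ne']
    · intro j hj
      have hj' := Finset.mem_range.1 hj
      rw [Finset.sum_congr rfl (m1 j hj'), ← Finset.mul_sum, v3 j hj', mul_one]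
  have m4 : ∀ s, s < c 0 → μ s = 0 := by
    intro s hs; apply m2
    by_contra h; have := hS (show s ∈ x.support by simpa using h)
    simp only [Finset.mem_Ico] at this; omega
  have ad : Adm x μ := ⟨m0, m2, by rw [sum_supp hS m2, m3]⟩
  refine le_trans (Real.exp_le_exp.2 ?_) (le_NN ad)
  rw [EE_eq hS m2, sum_blocks hc]
  have blk : ∀ j ∈ range n, (n:ℝ)⁻¹ * (lam + Real.log n / 4 - 7)
      ≤ ∑ s ∈ Ico (c j) (c (j + 1)), tm x μ 0 s := by
    intro j hj
    have hj' := Finset.mem_range.1 hj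
    have pt : ∀ s ∈ Ico (c j) (c (j + 1)), (n:ℝ)⁻¹ * (tm x (ν j) 0 s + ν j s * (Real.log n / 4 - 1)
        - 3 * (ν j s / Real.sqrt (Dm (ν j) (c j) s))) ≤ tm x μ 0 s := by
      intro s hs
      have hs' := Finset.mem_Ico.1 hs
      rcases (v0 j hj' s).eq_or_lt with h5 | h5
      · unfold tm; rw [m1 j hj' s hs, ← h5]; simp
      have h6 : 0 < μ s := by rw [m1 j hj' s hs]; positivity
      have cj := hc (Nat.zero_le j)
      have loc : ∀ i, c j ≤ i → i ≤ s → μ i = (n:ℝ)⁻¹ * ν j i := fun i h8 h9 =>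
        m1 j hj' i (Finset.mem_Ico.2 ⟨h8, by omega⟩)
      have a1 := Vm_skip m0 h6 (cj.trans hs'.1) m4
      have a2 := Vm_loss m0 h6 cj hs'.1
      have a3 : Vm μ (c j) s = Vm (ν j) (c j) s := Vm_congr (inv_pos.2 hn0).ne' loc
      have a4 := Vm_anti (v0 j hj') h5 (Nat.zero_le (c j)) hs'.1
      have F0 := Dm_pos (v0 j hj') h5 hs'.1
      have F1 : Dm (ν j) (c j) s ≤ 1 := by
        rw [← v3 j hj']
        exact Finset.sum_le_sum_of_subset_of_nonneg (by
          intro t ht; simp only [Finset.mem_Icc, Finset.mem_Ico] at ht ⊢; omega)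
          (fun t _ _ => v0 j hj' t)
      have D1 : Dm μ (c 0) s ≤ 1 := by
        rw [← m3]
        have := hc (show j + 1 ≤ n from hj')
        exact Finset.sum_le_sum_of_subset_of_nonneg (by
          intro t ht; simp only [Finset.mem_Icc, Finset.mem_Ico] at ht ⊢; omega)
          (fun t _ _ => m0 t)
      have D2 : Dm μ (c j) s = Dm (ν j) (c j) s / n := by
        unfold Dm
        rw [Finset.sum_div]
        apply Finset.sum_congr rfl
        intro i hi; simp only [Finset.mem_Icc] at hi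
        rw [loc i hi.1 hi.2]; ring
      have D0 := Dm_pos m0 h6 (cj.trans hs'.1)
      have sq0 := Real.sqrt_pos.2 F0
      have q : Real.sqrt (Dm (ν j) (c j) s) / 3 ≤ Qm μ (c 0) (c j) s := by
        have q1 : Dm (ν j) (c j) s / n ≤ Dm μ (c j) s / Dm μ (c 0) s := by
          rw [D2]; exact le_div_self (by positivity) D0 D1
        refine le_trans ?_ (Real.rpow_le_rpow (by positivity) q1 (al_pos _).le)
        rw [Real.div_rpow F0.le hn0.le, c0, Real.sqrt_eq_rpow]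
        apply div_le_div₀ (by positivity) _ (by positivity) (rpow_al_le n hn)
        exact Real.rpow_le_rpow_of_exponent_ge F0 F1 (by linarith [al_le n])
      have a5 : Vm μ (c 0) s - Vm μ (c j) s ≤ 3 / Real.sqrt (Dm (ν j) (c j) s) := by
        rw [le_div_iff₀ sq0]
        have := Vm_anti m0 h6 cj hs'.1
        nlinarith [mul_le_mul_of_nonneg_right q (sub_nonneg.2 this)]
      unfold tm
      rw [m1 j hj' s hs, Real.log_mul (inv_pos.2 hn0).ne' h5.ne', Real.log_inv, mul_assoc]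
      apply mul_le_mul_of_nonneg_left _ (by positivity)
      have e : 3 * (ν j s / Real.sqrt (Dm (ν j) (c j) s))
          = ν j s * (3 / Real.sqrt (Dm (ν j) (c j) s)) := by ring
      rw [e, ← mul_add, ← mul_sub]
      exact mul_le_mul_of_nonneg_left (by linarith) h5.le
    refine le_trans ?_ (Finset.sum_le_sum pt)
    rw [← Finset.mul_sum]
    apply mul_le_mul_of_nonneg_left _ (by positivity)
    rw [Finset.sum_sub_distrib, Finset.sum_add_distrib, ← Finset.sum_mul, ← Finset.mul_sum,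
      v3 j hj']
    have h1 := sqrt_sum (v0 j hj') (c j) (c (j + 1))
    rw [v3 j hj', Real.sqrt_one] at h1
    have := v4 j hj'
    linarith
  refine le_trans (le_of_eq ?_) (Finset.sum_le_sum blk)
  simp only [Finset.sum_const, Finset.card_range, nsmul_eq_mul]
  field_simp

end Pool.Agent.H853Z.Tsm
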