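import Mathlib

set_option autoImplicit false

/-! Calculus of the constant vector fields in logarithmic coordinates. -/

namespace Pool.Agent.H853Z.Tsm

open Finset Filter Topology
open scoped ContDiff

variable {n : ℕ}

abbrev Sm (f : (Fin n → ℝ) → ℝ) : Prop := ContDiff ℝ ∞ f

noncomputable def vf (b l : Fin n → ℝ) : Fin n → ℝ := fun i => b i * Real.exp (-(l i))

noncomputable def XX (b : Fin n → ℝ) (f : (Fin n → ℝ) → ℝ) : (Fin n → ℝ) → ℝ :=
  fun l => fderiv ℝ f l (vf b l)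

lemma Sm.diff {f : (Fin n → ℝ) → ℝ} (hf : Sm f) : Differentiable ℝ f :=
  ContDiff.differentiable hf (by simp)

lemma vf_contDiff (b : Fin n → ℝ) : ContDiff ℝ ∞ (vf b) := by
  rw [contDiff_pi]
  intro i
  unfold vf
  exact contDiff_const.mul (Real.contDiff_exp.comp (contDiff_apply ℝ ℝ i).neg)

lemma Sm.fd {f : (Fin n → ℝ) → ℝ} (hf : Sm f) : ContDiff ℝ ∞ (fderiv ℝ f) :=
  ContDiff.fderiv_right (m := ∞) hf (by simp)

lemma Sm.XX {f : (Fin n → ℝ) → ℝ} (hf : Sm f) (b : Fin n → ℝ) : Sm (XX b f) :=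
  hf.fd.clm_apply (vf_contDiff b)

lemma XX_mul {f g : (Fin n → ℝ) → ℝ} (hf : Sm f) (hg : Sm g) (b : Fin n → ℝ) :
    XX b (fun l => f l * g l) = fun l => XX b f l * g l + f l * XX b g l := by
  funext l
  unfold XX
  rw [fderiv_fun_mul (hf.diff l) (hg.diff l)]
  simp; ring

lemma XX_add {f g : (Fin n → ℝ) → ℝ} (hf : Sm f) (hg : Sm g) (b : Fin n → ℝ) :
    XX b (fun l => f l + g l) = fun l => XX b f l + XX b g l := by
  funext l
  unfold XX
  rw [fderiv_fun_add (hf.diff l) (hg.diff l)]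
  simp

lemma XX_sub {f g : (Fin n → ℝ) → ℝ} (hf : Sm f) (hg : Sm g) (b : Fin n → ℝ) :
    XX b (fun l => f l - g l) = fun l => XX b f l - XX b g l := by
  funext l
  unfold XX
  rw [fderiv_fun_sub (hf.diff l) (hg.diff l)]
  simp

lemma XX_const (c : ℝ) (b : Fin n → ℝ) : XX b (fun _ => c) = fun _ => 0 := by
  funext l; unfold XX; simp

lemma XX_cmul {f : (Fin n → ℝ) → ℝ} (hf : Sm f) (c : ℝ) (b : Fin n → ℝ) :
    XX b (fun l => c * f l) = fun l => c * XX b f l := by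
  rw [XX_mul contDiff_const hf, XX_const]; simp

lemma Sm.sum {ι : Type} {s : Finset ι} {f : ι → (Fin n → ℝ) → ℝ} (hf : ∀ i ∈ s, Sm (f i)) :
    Sm (fun l => ∑ i ∈ s, f i l) := ContDiff.sum hf

lemma XX_sum {ι : Type} {s : Finset ι} {f : ι → (Fin n → ℝ) → ℝ} (hf : ∀ i ∈ s, Sm (f i))
    (b : Fin n → ℝ) : XX b (fun l => ∑ i ∈ s, f i l) = fun l => ∑ i ∈ s, XX b (f i) l := by
  funext l
  unfold XX
  rw [fderiv_fun_sum (fun i hi => (hf i hi).diff l)]
  simp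

lemma XX_comp {f : (Fin n → ℝ) → ℝ} (hf : Sm f) {g g' : ℝ → ℝ} (b : Fin n → ℝ)
    (hg : ∀ l, HasDerivAt g (g' (f l)) (f l)) :
    XX b (fun l => g (f l)) = fun l => g' (f l) * XX b f l := by
  funext l
  unfold XX
  have := ((hg l).comp_hasFDerivAt l (hf.diff l).hasFDerivAt).fderiv
  have e : (fun l => g (f l)) = g ∘ f := rfl
  rw [e, this]; simp

lemma XX_exp {f : (Fin n → ℝ) → ℝ} (hf : Sm f) (b : Fin n → ℝ) :
    XX b (fun l => Real.exp (f l)) = fun l => Real.exp (f l) * XX b f l :=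
  XX_comp hf b (fun l => Real.hasDerivAt_exp (f l))

lemma XX_coord (b : Fin n → ℝ) (i : Fin n) :
    XX b (fun l => l i) = fun l => b i * Real.exp (-(l i)) := by
  funext l
  unfold XX
  have : HasFDerivAt (fun l : Fin n → ℝ => l i) (ContinuousLinearMap.proj (R := ℝ) i) l :=
    (ContinuousLinearMap.proj (R := ℝ) (φ := fun _ : Fin n => ℝ) i).hasFDerivAt
  rw [this.fderiv]; simp [vf]

lemma XX_expcoord (b : Fin n → ℝ) (i : Fin n) :
    XX b (fun l => Real.exp (l i)) = fun _ => b i := by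
  rw [XX_exp (contDiff_apply ℝ ℝ i), XX_coord]
  funext l
  simp only [Real.exp_neg]; field_simp

lemma XX_lin (f : (Fin n → ℝ) → ℝ) (b l : Fin n → ℝ) :
    XX b f l = ∑ i, b i * XX (Pi.single i 1) f l := by
  unfold XX
  have : vf b l = ∑ i, b i • vf (Pi.single i 1) l := by
    funext j
    simp [vf, Finset.sum_apply, Pi.single_apply]
  rw [this, map_sum]
  simp

lemma XX_lin2 {f : (Fin n → ℝ) → ℝ} (hf : Sm f) (a c l : Fin n → ℝ) :
    XX c (XX a f) l = ∑ i, a i * XX c (XX (Pi.single i 1) f) l := by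
  have : XX a f = fun l => ∑ i, a i * XX (Pi.single i 1) f l := funext (XX_lin f a)
  rw [this, XX_sum (fun i _ => contDiff_const.mul (hf.XX _))]
  apply Finset.sum_congr rfl
  intro i _
  rw [XX_cmul (hf.XX _)]

lemma fderiv_eq_XX (f : (Fin n → ℝ) → ℝ) (u l : Fin n → ℝ) :
    fderiv ℝ f l u = XX (fun i => Real.exp (l i) * u i) f l := by
  unfold XX
  congr 1
  funext i
  simp only [vf]
  rw [Real.exp_neg]; field_simp

lemma XX_XX {f : (Fin n → ℝ) → ℝ} (hf : Sm f) (a b l : Fin n → ℝ) :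
    XX b (XX a f) l = fderiv ℝ (fderiv ℝ f) l (vf b l) (vf a l)
      - fderiv ℝ f l (fun i => a i * b i * Real.exp (-(l i)) ^ 2) := by
  have h1 : HasFDerivAt (fderiv ℝ f) (fderiv ℝ (fderiv ℝ f) l) l :=
    (hf.fd.differentiable (by simp) l).hasFDerivAt
  have h2 : HasFDerivAt (vf a) (fderiv ℝ (vf a) l) l :=
    ((vf_contDiff a).differentiable (by simp) l).hasFDerivAt
  have h3 := (h1.clm_apply h2).fderiv
  have e : XX b (XX a f) l = fderiv ℝ (fun l => fderiv ℝ f l (vf a l)) l (vf b l) := rfl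
  rw [e, h3]
  have h4 : fderiv ℝ (vf a) l (vf b l) = -(fun i => a i * b i * Real.exp (-(l i)) ^ 2) := by
    funext i
    have h5 : HasFDerivAt (fun l => vf a l i) ((ContinuousLinearMap.proj (R := ℝ) i).comp
        (fderiv ℝ (vf a) l)) l :=
      (ContinuousLinearMap.proj (R := ℝ) (φ := fun _ : Fin n => ℝ) i).hasFDerivAt.comp l h2
    have h6 : XX b (fun l => vf a l i) l = fderiv ℝ (vf a) l (vf b l) i := by
      unfold XX; rw [h5.fderiv]; simp
    rw [← h6]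
    have h7 : Sm (fun l : Fin n → ℝ => -(l i)) := (contDiff_apply ℝ ℝ i).neg
    have h8 : (fun l : Fin n → ℝ => -(l i)) = fun l => (-1) * l i := by funext l; ring
    have h9 : XX b (fun l : Fin n → ℝ => -(l i)) = fun l => (-1) * (b i * Real.exp (-(l i))) := by
      rw [h8, XX_cmul (contDiff_apply ℝ ℝ i), XX_coord]
    unfold vf
    have h10 : Sm (fun l : Fin n → ℝ => Real.exp (-(l i))) := Real.contDiff_exp.comp h7
    rw [XX_cmul h10, XX_exp h7, h9]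
    simp; ring
  simp [h4]; ring

lemma XX_comm {f : (Fin n → ℝ) → ℝ} (hf : Sm f) (a b : Fin n → ℝ) :
    XX b (XX a f) = XX a (XX b f) := by
  funext l
  rw [XX_XX hf, XX_XX hf]
  have hs : IsSymmSndFDerivAt ℝ f l :=
    ContDiffAt.isSymmSndFDerivAt (n := ∞) hf.contDiffAt (by
      simp only [minSmoothness_of_isRCLikeNormedField]; exact WithTop.coe_le_coe.2 le_top)
  rw [hs.eq]
  congr 2
  funext i; ring

/-- All mixed derivatives along `b1 b2 b3` are bounded with the weights `M1 M2 M3`. -/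
structure Bd (b1 b2 b3 l : Fin n → ℝ) (M1 M2 M3 : ℝ) (f : (Fin n → ℝ) → ℝ) (c : ℝ) : Prop where
  h1 : |XX b1 f l| ≤ c * M1
  h2 : |XX b2 f l| ≤ c * M2
  h3 : |XX b3 f l| ≤ c * M3
  h12 : |XX b2 (XX b1 f) l| ≤ c * (M1 * M2)
  h13 : |XX b3 (XX b1 f) l| ≤ c * (M1 * M3)
  h23 : |XX b3 (XX b2 f) l| ≤ c * (M2 * M3)
  h123 : |XX b3 (XX b2 (XX b1 f)) l| ≤ c * (M1 * M2 * M3)

section
variable {b1 b2 b3 l : Fin n → ℝ} {M1 M2 M3 : ℝ}

lemma Bd.mono {f : (Fin n → ℝ) → ℝ} {c d : ℝ} (h : Bd b1 b2 b3 l M1 M2 M3 f c) (hcd : c ≤ d)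
    (p1 : 0 ≤ M1) (p2 : 0 ≤ M2) (p3 : 0 ≤ M3) : Bd b1 b2 b3 l M1 M2 M3 f d :=
  ⟨h.h1.trans (by gcongr), h.h2.trans (by gcongr), h.h3.trans (by gcongr),
    h.h12.trans (by gcongr), h.h13.trans (by gcongr), h.h23.trans (by gcongr),
    h.h123.trans (by gcongr)⟩

lemma Bd.const (c : ℝ) : Bd b1 b2 b3 l M1 M2 M3 (fun _ => c) 0 := by
  constructor <;> simp [XX_const]

lemma Bd.add {f g : (Fin n → ℝ) → ℝ} {c d : ℝ} (hf : Sm f) (hg : Sm g)
    (h : Bd b1 b2 b3 l M1 M2 M3 f c) (k : Bd b1 b2 b3 l M1 M2 M3 g d) :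
    Bd b1 b2 b3 l M1 M2 M3 (fun l => f l + g l) (c + d) := by
  constructor
  all_goals
    simp only [XX_add hf hg, XX_add (hf.XX _) (hg.XX _), XX_add ((hf.XX _).XX _) ((hg.XX _).XX _)]
    refine (abs_add_le _ _).trans ?_
    rw [add_mul]
  exacts [add_le_add h.h1 k.h1, add_le_add h.h2 k.h2, add_le_add h.h3 k.h3,
    add_le_add h.h12 k.h12, add_le_add h.h13 k.h13, add_le_add h.h23 k.h23,
    add_le_add h.h123 k.h123]

lemma Bd.cmul {f : (Fin n → ℝ) → ℝ} {c : ℝ} (hf : Sm f) (r : ℝ)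
    (h : Bd b1 b2 b3 l M1 M2 M3 f c) :
    Bd b1 b2 b3 l M1 M2 M3 (fun l => r * f l) (|r| * c) := by
  constructor
  all_goals
    simp only [XX_cmul hf, XX_cmul (hf.XX _), XX_cmul ((hf.XX _).XX _)]
    rw [abs_mul, mul_assoc]
    apply mul_le_mul_of_nonneg_left _ (abs_nonneg r)
  exacts [h.h1, h.h2, h.h3, h.h12, h.h13, h.h23, h.h123]

lemma Bd.sub {f g : (Fin n → ℝ) → ℝ} {c d : ℝ} (hf : Sm f) (hg : Sm g)
    (h : Bd b1 b2 b3 l M1 M2 M3 f c) (k : Bd b1 b2 b3 l M1 M2 M3 g d) :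
    Bd b1 b2 b3 l M1 M2 M3 (fun l => f l - g l) (c + d) := by
  have := Bd.add hf (contDiff_const.mul hg) h (k.cmul hg (-1))
  simpa [sub_eq_add_neg] using this

lemma Bd.sum {ι : Type} (s : Finset ι) {f : ι → (Fin n → ℝ) → ℝ} {c : ι → ℝ}
    (hf : ∀ i ∈ s, Sm (f i)) (h : ∀ i ∈ s, Bd b1 b2 b3 l M1 M2 M3 (f i) (c i)) :
    Bd b1 b2 b3 l M1 M2 M3 (fun l => ∑ i ∈ s, f i l) (∑ i ∈ s, c i) := by
  classical
  induction s using Finset.induction_on with
  | empty => simpa using Bd.const 0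
  | insert a s ha ih =>
    simp only [Finset.sum_insert ha]
    exact Bd.add (hf a (by simp)) (Sm.sum (fun i hi => hf i (by simp [hi]))) (h a (by simp))
      (ih (fun i hi => hf i (by simp [hi])) (fun i hi => h i (by simp [hi])))

lemma abs_mul_le {x y a b : ℝ} (hx : |x| ≤ a) (hy : |y| ≤ b) : |x * y| ≤ a * b := by
  rw [abs_mul]; exact mul_le_mul hx hy (abs_nonneg _) ((abs_nonneg _).trans hx)

lemma abs_add_le' {x y a b : ℝ} (hx : |x| ≤ a) (hy : |y| ≤ b) : |x + y| ≤ a + b :=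
  (abs_add_le _ _).trans (add_le_add hx hy)

lemma XX2_mul {f g : (Fin n → ℝ) → ℝ} (hf : Sm f) (hg : Sm g) (a b : Fin n → ℝ) :
    XX b (XX a (fun l => f l * g l)) = fun l => (XX b (XX a f) l * g l + XX a f l * XX b g l)
      + (XX b f l * XX a g l + f l * XX b (XX a g) l) := by
  rw [XX_mul hf hg, XX_add ((hf.XX _).mul hg) (hf.mul (hg.XX _)), XX_mul (hf.XX _) hg,
    XX_mul hf (hg.XX _)]

lemma XX3_mul {f g : (Fin n → ℝ) → ℝ} (hf : Sm f) (hg : Sm g) (a b c : Fin n → ℝ) :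
    XX c (XX b (XX a (fun l => f l * g l))) = fun l =>
      ((XX c (XX b (XX a f)) l * g l + XX b (XX a f) l * XX c g l)
        + (XX c (XX a f) l * XX b g l + XX a f l * XX c (XX b g) l))
      + ((XX c (XX b f) l * XX a g l + XX b f l * XX c (XX a g) l)
        + (XX c f l * XX b (XX a g) l + f l * XX c (XX b (XX a g)) l)) := by
  rw [XX_mul hf hg]
  have e : XX b (fun l => XX a f l * g l + f l * XX a g l) = fun l =>
      XX b (fun l => XX a f l * g l) l + XX b (fun l => f l * XX a g l) l :=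
    XX_add ((hf.XX _).mul hg) (hf.mul (hg.XX _)) b
  rw [e, XX_add (Sm.XX ((hf.XX _).mul hg) _) (Sm.XX (hf.mul (hg.XX _)) _),
    XX2_mul (hf.XX _) hg, XX2_mul hf (hg.XX _)]

lemma Bd.mul {f g : (Fin n → ℝ) → ℝ} {c d F G : ℝ} (hf : Sm f) (hg : Sm g)
    (h : Bd b1 b2 b3 l M1 M2 M3 f c) (k : Bd b1 b2 b3 l M1 M2 M3 g d)
    (hF : |f l| ≤ F) (hG : |g l| ≤ G) (hc : 0 ≤ c) (hd : 0 ≤ d)
    (p1 : 0 ≤ M1) (p2 : 0 ≤ M2) (p3 : 0 ≤ M3) :
    Bd b1 b2 b3 l M1 M2 M3 (fun l => f l * g l) (F * d + c * G + 6 * (c * d)) := by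
  have hcd : 0 ≤ c * d := mul_nonneg hc hd
  constructor
  · rw [XX_mul hf hg]
    refine (abs_add_le' (abs_mul_le h.h1 hG) (abs_mul_le hF k.h1)).trans ?_
    nlinarith [mul_nonneg hcd p1]
  · rw [XX_mul hf hg]
    refine (abs_add_le' (abs_mul_le h.h2 hG) (abs_mul_le hF k.h2)).trans ?_
    nlinarith [mul_nonneg hcd p2]
  · rw [XX_mul hf hg]
    refine (abs_add_le' (abs_mul_le h.h3 hG) (abs_mul_le hF k.h3)).trans ?_
    nlinarith [mul_nonneg hcd p3]
  · rw [XX2_mul hf hg]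
    refine (abs_add_le' (abs_add_le' (abs_mul_le h.h12 hG) (abs_mul_le h.h1 k.h2))
      (abs_add_le' (abs_mul_le h.h2 k.h1) (abs_mul_le hF k.h12))).trans ?_
    nlinarith [mul_nonneg hcd (mul_nonneg p1 p2)]
  · rw [XX2_mul hf hg]
    refine (abs_add_le' (abs_add_le' (abs_mul_le h.h13 hG) (abs_mul_le h.h1 k.h3))
      (abs_add_le' (abs_mul_le h.h3 k.h1) (abs_mul_le hF k.h13))).trans ?_
    nlinarith [mul_nonneg hcd (mul_nonneg p1 p3)]
  · rw [XX2_mul hf hg]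
    refine (abs_add_le' (abs_add_le' (abs_mul_le h.h23 hG) (abs_mul_le h.h2 k.h3))
      (abs_add_le' (abs_mul_le h.h3 k.h2) (abs_mul_le hF k.h23))).trans ?_
    nlinarith [mul_nonneg hcd (mul_nonneg p2 p3)]
  · rw [XX3_mul hf hg]
    refine (abs_add_le' (abs_add_le' (abs_add_le' (abs_mul_le h.h123 hG) (abs_mul_le h.h12 k.h3))
      (abs_add_le' (abs_mul_le h.h13 k.h2) (abs_mul_le h.h1 k.h23)))
      (abs_add_le' (abs_add_le' (abs_mul_le h.h23 k.h1) (abs_mul_le h.h2 k.h13))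
      (abs_add_le' (abs_mul_le h.h3 k.h12) (abs_mul_le hF k.h123)))).trans (le_of_eq ?_)
    ring

lemma Bd.exp {g : (Fin n → ℝ) → ℝ} {c : ℝ} (hg : Sm g)
    (h : Bd b1 b2 b3 l M1 M2 M3 g c) (hc : 0 ≤ c) (hc1 : c ≤ 1)
    (p1 : 0 ≤ M1) (p2 : 0 ≤ M2) (p3 : 0 ≤ M3) :
    Bd b1 b2 b3 l M1 M2 M3 (fun l => Real.exp (g l)) (Real.exp (g l) * (5 * c)) := by
  have he : Sm (fun l => Real.exp (g l)) := Real.contDiff_exp.comp hg
  have hE : |Real.exp (g l)| ≤ Real.exp (g l) := le_of_eq (abs_of_pos (Real.exp_pos _))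
  have hp := Real.exp_pos (g l)
  set E := Real.exp (g l) with hEdef
  have e2 : ∀ a b, XX b (XX a (fun l => Real.exp (g l))) = fun l =>
      Real.exp (g l) * XX b g l * XX a g l + Real.exp (g l) * XX b (XX a g) l := by
    intro a b
    rw [XX_exp hg, XX_mul he (hg.XX _), XX_exp hg]
  have c2 : c * c ≤ c := by nlinarith
  have c3 : c * c * c ≤ c := by nlinarith
  constructor
  · rw [XX_exp hg]
    refine (abs_mul_le hE h.h1).trans ?_
    nlinarith [mul_nonneg (mul_nonneg hp.le hc) p1]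
  · rw [XX_exp hg]
    refine (abs_mul_le hE h.h2).trans ?_
    nlinarith [mul_nonneg (mul_nonneg hp.le hc) p2]
  · rw [XX_exp hg]
    refine (abs_mul_le hE h.h3).trans ?_
    nlinarith [mul_nonneg (mul_nonneg hp.le hc) p3]
  · rw [e2]
    refine (abs_add_le' (abs_mul_le (abs_mul_le hE h.h2) h.h1) (abs_mul_le hE h.h12)).trans ?_
    have q := mul_nonneg hp.le (mul_nonneg p1 p2)
    nlinarith [mul_le_mul_of_nonneg_left c2 q, mul_nonneg q hc]
  · rw [e2]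
    refine (abs_add_le' (abs_mul_le (abs_mul_le hE h.h3) h.h1) (abs_mul_le hE h.h13)).trans ?_
    have q := mul_nonneg hp.le (mul_nonneg p1 p3)
    nlinarith [mul_le_mul_of_nonneg_left c2 q, mul_nonneg q hc]
  · rw [e2]
    refine (abs_add_le' (abs_mul_le (abs_mul_le hE h.h3) h.h2) (abs_mul_le hE h.h23)).trans ?_
    have q := mul_nonneg hp.le (mul_nonneg p2 p3)
    nlinarith [mul_le_mul_of_nonneg_left c2 q, mul_nonneg q hc]
  · rw [XX_exp hg, XX2_mul he (hg.XX _), e2, XX_exp hg, XX_exp hg]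
    refine (abs_add_le' (abs_add_le' (abs_mul_le (abs_add_le' (abs_mul_le (abs_mul_le hE h.h3) h.h2)
      (abs_mul_le hE h.h23)) h.h1) (abs_mul_le (abs_mul_le hE h.h2) h.h13))
      (abs_add_le' (abs_mul_le (abs_mul_le hE h.h3) h.h12) (abs_mul_le hE h.h123))).trans ?_
    have q := mul_nonneg hp.le (mul_nonneg (mul_nonneg p1 p2) p3)
    nlinarith [mul_le_mul_of_nonneg_left c2 q, mul_le_mul_of_nonneg_left c3 q]

end

end Pool.Agent.H853Z.Tsm
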