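import Mathlib

set_option autoImplicit false

/-! The renewal functional on finite measures: definitions and order properties. -/

namespace Pool.Agent.H853Z.Tsm

open Finset Filter Topology

noncomputable def al (a : ℕ) : ℝ := 1 / (1000000 * 4 ^ a)

def Dm (m : ℕ → ℝ) (t s : ℕ) : ℝ := ∑ i ∈ Icc t s, m i

noncomputable def Qm (m : ℕ → ℝ) (a t s : ℕ) : ℝ := (Dm m t s / Dm m a s) ^ al a

noncomputable def del (m : ℕ → ℝ) (s : ℕ) (a : ℕ) : ℝ :=
  1 - ∑ t ∈ (Ioc a s).attach, Qm m a t s * del m s t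
termination_by s - a
decreasing_by
  have := t.2
  simp only [Finset.mem_Ioc] at this
  omega

noncomputable def Vm (m : ℕ → ℝ) (a s : ℕ) : ℝ := ∑ t ∈ Icc a s, del m s t

lemma del_eq (m : ℕ → ℝ) (s a : ℕ) :
    del m s a = 1 - ∑ t ∈ Ioc a s, Qm m a t s * del m s t := by
  rw [del, Finset.sum_attach (Ioc a s) (fun t => Qm m a t s * del m s t)]

lemma down_ind (s : ℕ) (P : ℕ → Prop) (h : ∀ a, (∀ t, a < t → t ≤ s → P t) → P a) :
    ∀ a, P a := by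
  have key : ∀ k a, s - a ≤ k → P a := by
    intro k
    induction k with
    | zero => intro a ha; exact h a (fun t h1 h2 => by omega)
    | succ k ih => intro a ha; exact h a (fun t h1 h2 => ih t (by omega))
  intro a; exact key _ a le_rfl

lemma al_pos (a : ℕ) : 0 < al a := by unfold al; positivity

lemma al_anti {a b : ℕ} (h : a ≤ b) : al b ≤ al a := by
  unfold al
  apply one_div_le_one_div_of_le (by positivity)
  have : (4:ℝ) ^ a ≤ 4 ^ b := pow_le_pow_right₀ (by norm_num) h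
  linarith

lemma al_succ (a : ℕ) : al (a + 1) = al a / 4 := by
  unfold al; rw [pow_succ]; field_simp

lemma al_le (a : ℕ) : al a ≤ 1 / 1000000 := by
  have := al_anti (Nat.zero_le a)
  simpa [al] using this

lemma Dm_anti {m : ℕ → ℝ} (hm : ∀ i, 0 ≤ m i) {a t : ℕ} (s : ℕ) (h : a ≤ t) :
    Dm m t s ≤ Dm m a s :=
  Finset.sum_le_sum_of_subset_of_nonneg (Finset.Icc_subset_Icc_left h) (fun i _ _ => hm i)

lemma Dm_ge {m : ℕ → ℝ} (hm : ∀ i, 0 ≤ m i) {t s : ℕ} (h : t ≤ s) : m s ≤ Dm m t s := by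
  have := Dm_anti hm s h
  simpa [Dm] using this

lemma Dm_pos {m : ℕ → ℝ} (hm : ∀ i, 0 ≤ m i) {t s : ℕ} (hs : 0 < m s) (h : t ≤ s) :
    0 < Dm m t s := lt_of_lt_of_le hs (Dm_ge hm h)

lemma Dm_nonneg {m : ℕ → ℝ} (hm : ∀ i, 0 ≤ m i) (t s : ℕ) : 0 ≤ Dm m t s :=
  Finset.sum_nonneg (fun i _ => hm i)

lemma Qm_nonneg {m : ℕ → ℝ} (hm : ∀ i, 0 ≤ m i) (a t s : ℕ) : 0 ≤ Qm m a t s :=
  Real.rpow_nonneg (div_nonneg (Dm_nonneg hm _ _) (Dm_nonneg hm _ _)) _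

lemma ratio_le_one {m : ℕ → ℝ} (hm : ∀ i, 0 ≤ m i) {a t : ℕ} (s : ℕ) (h : a ≤ t) :
    Dm m t s / Dm m a s ≤ 1 :=
  div_le_one_of_le₀ (Dm_anti hm s h) (Dm_nonneg hm _ _)

lemma Qm_le_one {m : ℕ → ℝ} (hm : ∀ i, 0 ≤ m i) {a t : ℕ} (s : ℕ) (h : a ≤ t) :
    Qm m a t s ≤ 1 :=
  Real.rpow_le_one (div_nonneg (Dm_nonneg hm _ _) (Dm_nonneg hm _ _)) (ratio_le_one hm s h)
    (al_pos a).le

lemma Qm_anti {m : ℕ → ℝ} (hm : ∀ i, 0 ≤ m i) (a s : ℕ) {t c : ℕ} (h : t ≤ c) :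
    Qm m a c s ≤ Qm m a t s :=
  Real.rpow_le_rpow (div_nonneg (Dm_nonneg hm _ _) (Dm_nonneg hm _ _))
    (div_le_div_of_nonneg_right (Dm_anti hm s h) (Dm_nonneg hm _ _)) (al_pos a).le

lemma Qm_split {m : ℕ → ℝ} (hm : ∀ i, 0 ≤ m i) {s : ℕ} (hs : 0 < m s) {a c t : ℕ}
    (hac : a ≤ c) (hct : c ≤ t) (hts : t ≤ s) :
    Qm m a t s ≤ Qm m a c s * Qm m c t s := by
  have hc := Dm_pos hm hs (le_trans hct hts)
  have ha := Dm_pos hm hs (le_trans hac (le_trans hct hts))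
  have ht := Dm_pos hm hs hts
  have e : Dm m t s / Dm m a s = (Dm m c s / Dm m a s) * (Dm m t s / Dm m c s) := by
    field_simp
  unfold Qm
  rw [e, Real.mul_rpow (by positivity) (by positivity)]
  apply mul_le_mul_of_nonneg_left _ (by positivity)
  exact Real.rpow_le_rpow_of_exponent_ge (by positivity) (ratio_le_one hm s hct) (al_anti hac)

lemma Icc_split {c s : ℕ} (h : c ≤ s) (f : ℕ → ℝ) :
    ∑ t ∈ Icc c s, f t = f c + ∑ t ∈ Ioc c s, f t := by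
  rw [← Finset.Ioc_insert_left h, Finset.sum_insert (by simp)]

lemma Qm_self {m : ℕ → ℝ} (hm : ∀ i, 0 ≤ m i) {s : ℕ} (hs : 0 < m s) {c : ℕ} (h : c ≤ s) :
    Qm m c c s = 1 := by
  unfold Qm; rw [div_self (Dm_pos hm hs h).ne', Real.one_rpow]

lemma sum_Q_del {m : ℕ → ℝ} (hm : ∀ i, 0 ≤ m i) {s : ℕ} (hs : 0 < m s) {c : ℕ} (h : c ≤ s) :
    ∑ t ∈ Icc c s, Qm m c t s * del m s t = 1 := by
  rw [Icc_split h, Qm_self hm hs h, del_eq m s c]; ring

lemma del_nonneg {m : ℕ → ℝ} (hm : ∀ i, 0 ≤ m i) {s : ℕ} (hs : 0 < m s) :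
    ∀ a, 0 ≤ del m s a := by
  apply down_ind s
  intro a ih
  rw [del_eq]
  by_cases h : a < s
  · have e : Ioc a s = Icc (a + 1) s := by ext t; simp
    rw [e, ← sum_Q_del hm hs (show a + 1 ≤ s from h), sub_nonneg]
    apply Finset.sum_le_sum
    intro t ht
    simp only [Finset.mem_Icc] at ht
    apply mul_le_mul_of_nonneg_right _ (ih t (by omega) ht.2)
    calc Qm m a t s ≤ Qm m a (a+1) s * Qm m (a+1) t s := Qm_split hm hs (by omega) ht.1 ht.2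
      _ ≤ 1 * Qm m (a+1) t s :=
        mul_le_mul_of_nonneg_right (Qm_le_one hm s (by omega)) (Qm_nonneg hm _ _ _)
      _ = _ := one_mul _
  · rw [Finset.Ioc_eq_empty h]; simp

lemma R_nonneg {m : ℕ → ℝ} (hm : ∀ i, 0 ≤ m i) {s : ℕ} (hs : 0 < m s) (a : ℕ) :
    0 ≤ ∑ t ∈ Ioc a s, Qm m a t s * del m s t :=
  Finset.sum_nonneg (fun t _ => mul_nonneg (Qm_nonneg hm _ _ _) (del_nonneg hm hs t))

lemma del_le_one {m : ℕ → ℝ} (hm : ∀ i, 0 ≤ m i) {s : ℕ} (hs : 0 < m s) (a : ℕ) :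
    del m s a ≤ 1 := by
  have := R_nonneg hm hs a
  rw [del_eq]; linarith

lemma R_le_one {m : ℕ → ℝ} (hm : ∀ i, 0 ≤ m i) {s : ℕ} (hs : 0 < m s) (a : ℕ) :
    ∑ t ∈ Ioc a s, Qm m a t s * del m s t ≤ 1 := by
  have := del_nonneg hm hs a
  rw [del_eq] at this; linarith

lemma Vm_nonneg {m : ℕ → ℝ} (hm : ∀ i, 0 ≤ m i) {s : ℕ} (hs : 0 < m s) (a : ℕ) :
    0 ≤ Vm m a s := Finset.sum_nonneg (fun t _ => del_nonneg hm hs t)

lemma Vm_le {m : ℕ → ℝ} (hm : ∀ i, 0 ≤ m i) {s : ℕ} (hs : 0 < m s) (a : ℕ) :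
    Vm m a s ≤ s + 1 := by
  have h1 : Vm m a s ≤ ∑ t ∈ Icc a s, (1:ℝ) := Finset.sum_le_sum (fun t _ => del_le_one hm hs t)
  have h2 : ((Icc a s).card : ℝ) ≤ s + 1 := by
    have : (Icc a s).card ≤ s + 1 := by simp
    exact_mod_cast this
  simp only [Finset.sum_const, nsmul_eq_mul, mul_one] at h1
  linarith

lemma Icc_split2 {a c s : ℕ} (hac : a ≤ c) (hcs : c ≤ s) (f : ℕ → ℝ) :
    ∑ t ∈ Icc a s, f t = ∑ t ∈ Ico a c, f t + ∑ t ∈ Icc c s, f t := by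
  rw [← Finset.sum_union]
  · congr 1; ext t; simp; omega
  · rw [Finset.disjoint_left]; intro t h1 h2; simp at h1 h2; omega

lemma Vm_sub {m : ℕ → ℝ} {a c s : ℕ} (hac : a ≤ c) (hcs : c ≤ s) :
    Vm m a s - Vm m c s = ∑ t ∈ Ico a c, del m s t := by
  unfold Vm; rw [Icc_split2 hac hcs]; ring

lemma Vm_anti {m : ℕ → ℝ} (hm : ∀ i, 0 ≤ m i) {s : ℕ} (hs : 0 < m s) {a c : ℕ}
    (hac : a ≤ c) (hcs : c ≤ s) : Vm m c s ≤ Vm m a s := by
  have := Vm_sub (m := m) hac hcs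
  have h2 : 0 ≤ ∑ t ∈ Ico a c, del m s t := Finset.sum_nonneg (fun t _ => del_nonneg hm hs t)
  linarith

lemma Vm_gain {m : ℕ → ℝ} (hm : ∀ i, 0 ≤ m i) {s : ℕ} (hs : 0 < m s) {a c : ℕ}
    (hac : a ≤ c) (hcs : c ≤ s) : 1 - Qm m a c s ≤ Vm m a s - Vm m c s := by
  rw [Vm_sub hac hcs]
  have h1 := sum_Q_del hm hs (le_trans hac hcs)
  rw [Icc_split2 hac hcs] at h1
  have h2 : ∑ t ∈ Ico a c, Qm m a t s * del m s t ≤ ∑ t ∈ Ico a c, del m s t := by
    apply Finset.sum_le_sum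
    intro t ht
    simp only [Finset.mem_Ico] at ht
    calc Qm m a t s * del m s t ≤ 1 * del m s t :=
          mul_le_mul_of_nonneg_right (Qm_le_one hm s ht.1) (del_nonneg hm hs t)
      _ = _ := one_mul _
  have h3 : ∑ t ∈ Icc c s, Qm m a t s * del m s t ≤ Qm m a c s := by
    calc ∑ t ∈ Icc c s, Qm m a t s * del m s t
        ≤ ∑ t ∈ Icc c s, Qm m a c s * (Qm m c t s * del m s t) := by
          apply Finset.sum_le_sum
          intro t ht
          simp only [Finset.mem_Icc] at ht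
          rw [← mul_assoc]
          exact mul_le_mul_of_nonneg_right (Qm_split hm hs hac ht.1 ht.2) (del_nonneg hm hs t)
      _ = Qm m a c s := by rw [← Finset.mul_sum, sum_Q_del hm hs hcs, mul_one]
  linarith

lemma Vm_loss {m : ℕ → ℝ} (hm : ∀ i, 0 ≤ m i) {s : ℕ} (hs : 0 < m s) {a c : ℕ}
    (hac : a ≤ c) (hcs : c ≤ s) : Qm m a c s * (Vm m a s - Vm m c s) ≤ 1 := by
  rw [Vm_sub hac hcs, Finset.mul_sum]
  have h1 := sum_Q_del hm hs (le_trans hac hcs)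
  rw [Icc_split2 hac hcs] at h1
  have h2 : ∑ t ∈ Ico a c, Qm m a c s * del m s t ≤ ∑ t ∈ Ico a c, Qm m a t s * del m s t := by
    apply Finset.sum_le_sum
    intro t ht
    simp only [Finset.mem_Ico] at ht
    exact mul_le_mul_of_nonneg_right (Qm_anti hm a s ht.2.le) (del_nonneg hm hs t)
  have h3 : 0 ≤ ∑ t ∈ Icc c s, Qm m a t s * del m s t :=
    Finset.sum_nonneg (fun t _ => mul_nonneg (Qm_nonneg hm _ _ _) (del_nonneg hm hs t))
  linarith

lemma Vm_skip {m : ℕ → ℝ} (hm : ∀ i, 0 ≤ m i) {s : ℕ} (hs : 0 < m s) {c : ℕ}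
    (hcs : c ≤ s) (h0 : ∀ i, i < c → m i = 0) : Vm m 0 s ≤ Vm m c s + 1 := by
  have h := Vm_loss hm hs (Nat.zero_le c) hcs
  have e : Dm m 0 s = Dm m c s := by
    unfold Dm
    rw [Icc_split2 (Nat.zero_le c) hcs, Finset.sum_eq_zero, zero_add]
    intro i hi; simp at hi; exact h0 i hi
  have : Qm m 0 c s = 1 := by
    unfold Qm; rw [e, div_self (Dm_pos hm hs hcs).ne', Real.one_rpow]
  rw [this] at h; linarith

lemma del_congr {m m' : ℕ → ℝ} {lam : ℝ} (hl : lam ≠ 0) {a s : ℕ}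
    (h : ∀ i, a ≤ i → i ≤ s → m' i = lam * m i) : ∀ b, a ≤ b → del m' s b = del m s b := by
  have hD : ∀ t, a ≤ t → Dm m' t s = lam * Dm m t s := by
    intro t ht
    unfold Dm; rw [Finset.mul_sum]
    apply Finset.sum_congr rfl
    intro i hi; simp only [Finset.mem_Icc] at hi
    exact h i (by omega) hi.2
  apply down_ind s (fun b => a ≤ b → del m' s b = del m s b)
  intro b ih hb
  rw [del_eq, del_eq m]
  congr 1
  apply Finset.sum_congr rfl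
  intro t ht; simp only [Finset.mem_Ioc] at ht
  rw [ih t ht.1 ht.2 (by omega)]
  congr 1
  unfold Qm
  rw [hD t (by omega), hD b hb, mul_div_mul_left _ _ hl]

lemma Vm_congr {m m' : ℕ → ℝ} {lam : ℝ} (hl : lam ≠ 0) {a s : ℕ}
    (h : ∀ i, a ≤ i → i ≤ s → m' i = lam * m i) : Vm m' a s = Vm m a s := by
  unfold Vm
  apply Finset.sum_congr rfl
  intro t ht; simp only [Finset.mem_Icc] at ht
  exact del_congr hl h t ht.1

lemma del_tendsto {ι : Type} {l : Filter ι} {M : ι → ℕ → ℝ} {m : ℕ → ℝ}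
    (hM : ∀ i, Tendsto (fun j => M j i) l (𝓝 (m i))) (hm : ∀ i, 0 ≤ m i) {s : ℕ} (hs : 0 < m s) :
    ∀ a, a ≤ s → Tendsto (fun j => del (M j) s a) l (𝓝 (del m s a)) := by
  have hD : ∀ t, Tendsto (fun j => Dm (M j) t s) l (𝓝 (Dm m t s)) := fun t =>
    tendsto_finsetSum _ (fun i _ => hM i)
  apply down_ind s (fun a => a ≤ s → Tendsto (fun j => del (M j) s a) l (𝓝 (del m s a)))
  intro a ih ha
  simp only [del_eq _ s a]
  apply Tendsto.const_sub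
  apply tendsto_finsetSum
  intro t ht; simp only [Finset.mem_Ioc] at ht
  apply Tendsto.mul _ (ih t ht.1 ht.2 ht.2)
  exact ((hD t).div (hD a) (Dm_pos hm hs ha).ne').rpow_const (Or.inr (al_pos a).le)

lemma mV_tendsto {ι : Type} {l : Filter ι} {M : ι → ℕ → ℝ} {m : ℕ → ℝ}
    (hM : ∀ i, Tendsto (fun j => M j i) l (𝓝 (m i))) (hm : ∀ i, 0 ≤ m i)
    (hM0 : ∀ᶠ j in l, ∀ i, 0 ≤ M j i) (s : ℕ) :
    Tendsto (fun j => M j s * Vm (M j) 0 s) l (𝓝 (m s * Vm m 0 s)) := by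
  rcases (hm s).eq_or_lt with h | h
  · rw [← h, zero_mul]
    have h1 : Tendsto (fun j => M j s * ((s:ℝ) + 1)) l (𝓝 0) := by
      have := (hM s).mul_const ((s:ℝ) + 1)
      rwa [← h, zero_mul] at this
    apply tendsto_of_tendsto_of_tendsto_of_le_of_le' tendsto_const_nhds h1
    · filter_upwards [hM0] with j hj
      rcases (hj s).eq_or_lt with h' | h'
      · rw [← h']; simp
      · exact mul_nonneg h'.le (Vm_nonneg hj h' 0)
    · filter_upwards [hM0] with j hj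
      rcases (hj s).eq_or_lt with h' | h'
      · rw [← h']; simp
      · exact mul_le_mul_of_nonneg_left (Vm_le hj h' 0) h'.le
  · apply (hM s).mul
    apply tendsto_finsetSum
    intro t ht; simp only [Finset.mem_Icc] at ht
    exact del_tendsto hM hm h t ht.2

end Pool.Agent.H853Z.Tsm
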