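import Pool.Agent.H853Z.Tsm.Inv

set_option autoImplicit false

/-! Directional derivatives of the regularised fourth power of the norm. -/

namespace Pool.Agent.H853Z.Tsm

open Finset Filter Topology
open scoped ContDiff

variable {n : ℕ}

noncomputable def w0 (e t : ℝ) : ℝ := Real.log (t ^ 2 + e ^ 2) / 2
noncomputable def w1 (e t : ℝ) : ℝ := t / (t ^ 2 + e ^ 2)
noncomputable def w2 (e t : ℝ) : ℝ := (e ^ 2 - t ^ 2) / (t ^ 2 + e ^ 2) ^ 2
noncomputable def w3 (e t : ℝ) : ℝ := (2 * t ^ 3 - 6 * t * e ^ 2) / (t ^ 2 + e ^ 2) ^ 3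
noncomputable def yy (e t : ℝ) : ℝ := Real.sqrt (t ^ 2 + e ^ 2)

section
variable {e : ℝ} (he : 0 < e)
include he

lemma dq (t : ℝ) : HasDerivAt (fun t : ℝ => t ^ 2 + e ^ 2) (2 * t) t :=
  ((hasDerivAt_pow 2 t).add_const (e ^ 2)).congr_deriv (by simp)

lemma dw0 (t : ℝ) : HasDerivAt (w0 e) (w1 e t) t := by
  have hp : t ^ 2 + e ^ 2 ≠ 0 := by positivity
  refine (((dq he t).log hp).div_const 2).congr_deriv ?_
  unfold w1; field_simp

lemma dw1 (t : ℝ) : HasDerivAt (w1 e) (w2 e t) t := by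
  have hp : t ^ 2 + e ^ 2 ≠ 0 := by positivity
  refine ((hasDerivAt_id t).div (dq he t) hp).congr_deriv ?_
  unfold w2; simp only [id]; field_simp; ring

lemma dw2 (t : ℝ) : HasDerivAt (w2 e) (w3 e t) t := by
  have hp : t ^ 2 + e ^ 2 ≠ 0 := by positivity
  refine (((hasDerivAt_pow 2 t).const_sub (e ^ 2)).div ((dq he t).pow 2)
    (pow_ne_zero 2 hp)).congr_deriv ?_
  unfold w3; simp only [Pi.pow_apply]; field_simp; ring

lemma yy_pos (t : ℝ) : 0 < yy e t := Real.sqrt_pos.2 (by positivity)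

lemma yy_sq (t : ℝ) : yy e t ^ 2 = t ^ 2 + e ^ 2 := Real.sq_sqrt (by positivity)

lemma abs_le_yy (t : ℝ) : |t| ≤ yy e t := Real.abs_le_sqrt (by nlinarith)

lemma log_yy (t : ℝ) : Real.log (yy e t) = w0 e t := by
  unfold yy w0; rw [Real.log_sqrt (by positivity)]

lemma w1_le (t : ℝ) : |w1 e t| ≤ 1 / yy e t := by
  have hy := yy_pos he t
  unfold w1
  rw [← yy_sq he, abs_div, abs_of_pos (pow_pos hy 2), div_le_div_iff₀ (by positivity) hy]
  nlinarith [abs_le_yy he t]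

lemma w2_le (t : ℝ) : |w2 e t| ≤ 1 / yy e t ^ 2 := by
  have hy := yy_pos he t
  unfold w2
  rw [yy_sq he, abs_div, abs_of_pos (show 0 < (t ^ 2 + e ^ 2) ^ 2 by positivity),
    div_le_div_iff₀ (by positivity) (by positivity)]
  have : |e ^ 2 - t ^ 2| ≤ t ^ 2 + e ^ 2 := abs_le.2 ⟨by nlinarith, by nlinarith⟩
  have h2 : 0 < t ^ 2 + e ^ 2 := by positivity
  nlinarith

lemma w3_le (t : ℝ) : |w3 e t| ≤ 6 / yy e t ^ 3 := by
  have hy := yy_pos he t
  have h2 : 0 < t ^ 2 + e ^ 2 := by positivity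
  have h1 : |2 * t ^ 3 - 6 * t * e ^ 2| ≤ 6 * yy e t ^ 3 := by
    rw [show 2 * t ^ 3 - 6 * t * e ^ 2 = t * (2 * t ^ 2 - 6 * e ^ 2) by ring]
    have : |2 * t ^ 2 - 6 * e ^ 2| ≤ 6 * yy e t ^ 2 := by
      rw [yy_sq he]; exact abs_le.2 ⟨by nlinarith, by nlinarith⟩
    refine (abs_mul_le (abs_le_yy he t) this).trans (le_of_eq (by ring))
  unfold w3
  rw [← yy_sq he, abs_div, abs_of_pos (show 0 < (yy e t ^ 2) ^ 3 by positivity),
    div_le_div_iff₀ (by positivity) (by positivity)]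
  have : 0 < yy e t ^ 3 := by positivity
  nlinarith

end

noncomputable def Wx (e : ℝ) (x : Fin n → ℝ) : Fin n → ℝ := fun i => w0 e (x i)
noncomputable def Lx (e : ℝ) (x : Fin n → ℝ) : Fin n → ℝ := LL (Wx e x)
noncomputable def uu (e : ℝ) (x k : Fin n → ℝ) : Fin n → ℝ := fderiv ℝ (Lx e) x k
noncomputable def u2 (e : ℝ) (x k l : Fin n → ℝ) : Fin n → ℝ :=
  fderiv ℝ (fun x => fderiv ℝ (Lx e) x k) x l
noncomputable def qq (e : ℝ) (x h : Fin n → ℝ) : Fin n → ℝ := fun i => h i / yy e (x i)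
noncomputable def BB (e : ℝ) (x h : Fin n → ℝ) : ℝ := A3 (Lx e x) (qq e x h)
noncomputable def FF (e : ℝ) (x : Fin n → ℝ) : ℝ := ∑ i, Real.exp (Lx e x i)
noncomputable def F1 (e : ℝ) (h x : Fin n → ℝ) : ℝ :=
  4 * ∑ i, Real.exp (Lx e x i) * (w1 e (x i) * h i)
noncomputable def F2 (e : ℝ) (h k x : Fin n → ℝ) : ℝ :=
  4 * ∑ i, (Real.exp (Lx e x i) * uu e x k i * (w1 e (x i) * h i)
    + Real.exp (Lx e x i) * (w2 e (x i) * k i * h i))
noncomputable def F3 (e : ℝ) (h k l x : Fin n → ℝ) : ℝ :=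
  4 * ∑ i, (((Real.exp (Lx e x i) * uu e x l i * uu e x k i + Real.exp (Lx e x i) * u2 e x k l i)
      * (w1 e (x i) * h i) + Real.exp (Lx e x i) * uu e x k i * (w2 e (x i) * l i * h i))
    + (Real.exp (Lx e x i) * uu e x l i * (w2 e (x i) * k i * h i)
      + Real.exp (Lx e x i) * (w3 e (x i) * l i * k i * h i)))

lemma dline (x k : Fin n → ℝ) : HasDerivAt (fun τ : ℝ => x + τ • k) k 0 :=
  (((hasDerivAt_id (0:ℝ)).smul_const k).const_add x).congr_deriv (by simp)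

lemma dcomp {G : Type} [NormedAddCommGroup G] [NormedSpace ℝ G] {f : (Fin n → ℝ) → G}
    (hf : ContDiff ℝ ∞ f) (x k : Fin n → ℝ) :
    HasDerivAt (fun τ : ℝ => f (x + τ • k)) (fderiv ℝ f x k) 0 := by
  have h := (hf.differentiable (by simp) (x + (0:ℝ) • k)).hasFDerivAt.comp_hasDerivAt (0:ℝ)
    (dline x k)
  simp only [zero_smul, add_zero] at h
  exact h

lemma dcoord {g g' : ℝ → ℝ} (hg : ∀ t, HasDerivAt g (g' t) t) (x k : Fin n → ℝ) (i : Fin n) :
    HasDerivAt (fun τ : ℝ => g ((x + τ • k) i)) (g' (x i) * k i) 0 := by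
  have h1 : HasDerivAt (fun τ : ℝ => (x + τ • k) i) (k i) 0 := (hasDerivAt_pi.1 (dline x k)) i
  have h2 := (hg ((x + (0:ℝ) • k) i)).comp (0:ℝ) h1
  simp only [zero_smul, add_zero] at h2
  exact h2

lemma XX_lin3 {f : (Fin n → ℝ) → ℝ} (hf : Sm f) (a c d l : Fin n → ℝ) :
    XX d (XX c (XX a f)) l = ∑ i, a i * XX d (XX c (XX (Pi.single i 1) f)) l := by
  have : XX c (XX a f) = fun l => ∑ i, a i * XX c (XX (Pi.single i 1) f) l :=
    funext (XX_lin2 hf a c)
  rw [this, XX_sum (fun i _ => contDiff_const.mul ((hf.XX _).XX _))]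
  apply Finset.sum_congr rfl
  intro i _
  rw [XX_cmul ((hf.XX _).XX _)]

lemma tri (l z a b c : Fin n → ℝ) (C : ℝ) (hC : 0 ≤ C) (h : ∀ i, |z i| ≤ C * (|a i| * |b i| * |c i|)) :
    |∑ i, Real.exp (l i) * z i| ≤ C / 3 * (A3 l a + A3 l b + A3 l c) := by
  unfold A3
  rw [← Finset.sum_add_distrib, ← Finset.sum_add_distrib, Finset.mul_sum]
  refine (Finset.abs_sum_le_sum_abs _ _).trans (Finset.sum_le_sum ?_)
  intro i _
  have hp := Real.exp_pos (l i)
  rw [abs_mul, abs_of_pos hp]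
  have h1 := amgm3 (abs_nonneg (a i)) (abs_nonneg (b i)) (abs_nonneg (c i))
  have h2 := mul_le_mul_of_nonneg_left h1 hC
  have h3 : |z i| ≤ C / 3 * (|a i| ^ 3 + |b i| ^ 3 + |c i| ^ 3) := by linarith [h i]
  nlinarith [mul_le_mul_of_nonneg_left h3 hp.le]

section
variable {e : ℝ} (he : 0 < e)
include he

lemma Wx_contDiff : ContDiff ℝ ∞ (Wx e : (Fin n → ℝ) → Fin n → ℝ) := by
  rw [contDiff_pi]
  intro i
  unfold Wx w0
  apply ContDiff.div_const
  apply ContDiff.log (((contDiff_apply ℝ ℝ i).pow 2).add contDiff_const)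
  intro x; positivity

lemma Lx_contDiff : ContDiff ℝ ∞ (Lx e : (Fin n → ℝ) → Fin n → ℝ) :=
  LL_contDiff.comp (Wx_contDiff he)

lemma dL (x k : Fin n → ℝ) : HasDerivAt (fun τ : ℝ => Lx e (x + τ • k)) (uu e x k) 0 :=
  dcomp (Lx_contDiff he) x k

lemma dfL {f : (Fin n → ℝ) → ℝ} (hf : Sm f) (x k : Fin n → ℝ) :
    HasDerivAt (fun τ : ℝ => f (Lx e (x + τ • k))) (XX (wt (Lx e x) (uu e x k)) f (Lx e x)) 0 := by
  have h := (hf.diff (Lx e (x + (0:ℝ) • k))).hasFDerivAt.comp_hasDerivAt (0:ℝ) (dL he x k)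
  simp only [zero_smul, add_zero] at h
  rw [fderiv_eq_XX] at h
  exact h

lemma dmL (x k : Fin n → ℝ) (i : Fin n) :
    HasDerivAt (fun τ : ℝ => Real.exp (Lx e (x + τ • k) i)) (Real.exp (Lx e x i) * uu e x k i) 0 := by
  have h := ((hasDerivAt_pi.1 (dL he x k)) i).exp
  simp only [zero_smul, add_zero] at h
  exact h

lemma duL (x k l : Fin n → ℝ) (i : Fin n) :
    HasDerivAt (fun τ : ℝ => uu e (x + τ • l) k i) (u2 e x k l i) 0 := by
  have h1 : ContDiff ℝ ∞ (fun x => fderiv ℝ (Lx e : (Fin n → ℝ) → Fin n → ℝ) x k) :=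
    (ContDiff.fderiv_right (m := ∞) (Lx_contDiff he) (by simp)).clm_apply contDiff_const
  exact (hasDerivAt_pi.1 (dcomp h1 x l)) i

lemma Gam_uu (x k : Fin n → ℝ) :
    fderiv ℝ Gam (Lx e x) (uu e x k) = fun i => w1 e (x i) * k i := by
  have h := (Gam_contDiff.differentiable (by simp) (Lx e (x + (0:ℝ) • k))).hasFDerivAt.comp_hasDerivAt
    (0:ℝ) (dL he x k)
  simp only [zero_smul, add_zero] at h
  have e1 : (Gam ∘ fun τ : ℝ => Lx e (x + τ • k)) = fun τ : ℝ => Wx e (x + τ • k) := by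
    funext τ; exact Gam_LL _
  rw [e1] at h
  exact h.unique (hasDerivAt_pi.2 (fun i => dcoord (dw0 he) x k i))

lemma pair1 (a x k : Fin n → ℝ) : ∑ i, a i * (w1 e (x i) * k i)
    = (∑ i, a i * uu e x k i) / 4 + XX (wt (Lx e x) (uu e x k)) (XX a PH) (Lx e x) := by
  rw [← Gam_fderiv_pair, Gam_uu he]

lemma dF0 (h x : Fin n → ℝ) : HasDerivAt (fun τ : ℝ => FF e (x + τ • h)) (F1 e h x) 0 := by
  refine (HasDerivAt.fun_sum (fun i _ => dmL he x h i)).congr_deriv ?_
  have := pair1 he (fun i => Real.exp (Lx e x i)) x h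
  rw [euler2] at this
  unfold F1; linarith

lemma dF1 (h k x : Fin n → ℝ) : HasDerivAt (fun τ : ℝ => F1 e h (x + τ • k)) (F2 e h k x) 0 := by
  apply HasDerivAt.const_mul
  apply HasDerivAt.fun_sum
  intro i _
  have := (dmL he x k i).mul ((dcoord (dw1 he) x k i).mul_const (h i))
  simp only [zero_smul, add_zero] at this
  exact this

lemma dF2 (h k l x : Fin n → ℝ) :
    HasDerivAt (fun τ : ℝ => F2 e h k (x + τ • l)) (F3 e h k l x) 0 := by
  apply HasDerivAt.const_mul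
  apply HasDerivAt.fun_sum
  intro i _
  have := (((dmL he x l i).mul (duL he x k l i)).mul ((dcoord (dw1 he) x l i).mul_const (h i))).add
    ((dmL he x l i).mul (((dcoord (dw2 he) x l i).mul_const (k i)).mul_const (h i)))
  simp only [zero_smul, add_zero, Pi.mul_apply] at this
  exact this

lemma second_id (x k l : Fin n → ℝ) (i : Fin n) : w2 e (x i) * l i * k i = u2 e x k l i / 4
    + (XX (wt (Lx e x) (fun j => uu e x l j * uu e x k j)) (XX (Pi.single i 1) PH) (Lx e x)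
    + XX (wt (Lx e x) (u2 e x k l)) (XX (Pi.single i 1) PH) (Lx e x)
    + XX (wt (Lx e x) (uu e x l)) (XX (wt (Lx e x) (uu e x k)) (XX (Pi.single i 1) PH)) (Lx e x)) := by
  have id0 : ∀ z : Fin n → ℝ, w1 e (z i) * k i = uu e z k i / 4 + ∑ j, Real.exp (Lx e z j) * uu e z k j
      * XX (Pi.single j 1) (XX (Pi.single i 1) PH) (Lx e z) := by
    intro z
    have := congrFun (Gam_uu he z k) i
    rw [Gam_fderiv, XX_lin] at this
    exact this.symm
  have d1 := (dcoord (dw1 he) x l i).mul_const (k i)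
  have d2 := ((duL he x k l i).div_const 4).add (HasDerivAt.fun_sum (u := univ) (fun j _ =>
    ((dmL he x l j).mul (duL he x k l j)).mul
      (dfL he ((sm_PH.XX (Pi.single i 1)).XX (Pi.single j 1)) x l)))
  have e1 : (fun τ : ℝ => w1 e ((x + τ • l) i) * k i) = _ := funext (fun τ => id0 (x + τ • l))
  rw [e1] at d1
  have h := d1.unique d2
  rw [h]
  simp only [zero_smul, add_zero, Pi.mul_apply]
  congr 1
  rw [XX_lin (XX (Pi.single i 1) PH) (wt (Lx e x) (fun j => uu e x l j * uu e x k j)),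
    XX_lin (XX (Pi.single i 1) PH) (wt (Lx e x) (u2 e x k l)),
    XX_lin2 (sm_PH.XX _) (wt (Lx e x) (uu e x k)), ← Finset.sum_add_distrib,
    ← Finset.sum_add_distrib]
  apply Finset.sum_congr rfl
  intro j _
  unfold wt; ring

lemma T2_eq (h k l x : Fin n → ℝ) :
    ∑ i, Real.exp (Lx e x i) * u2 e x k l i * (w1 e (x i) * h i)
    = ∑ i, Real.exp (Lx e x i) * (uu e x h i * (w2 e (x i) * l i * k i))
      - XX (wt (Lx e x) (fun j => uu e x l j * uu e x k j)) (XX (wt (Lx e x) (uu e x h)) PH) (Lx e x)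
      - XX (wt (Lx e x) (uu e x l)) (XX (wt (Lx e x) (uu e x k))
        (XX (wt (Lx e x) (uu e x h)) PH)) (Lx e x) := by
  have p1 := pair1 he (wt (Lx e x) (u2 e x k l)) x h
  rw [XX_comm sm_PH] at p1
  have p2 : ∑ i, Real.exp (Lx e x i) * (uu e x h i * (w2 e (x i) * l i * k i))
      = (∑ i, wt (Lx e x) (u2 e x k l) i * uu e x h i) / 4
      + (XX (wt (Lx e x) (fun j => uu e x l j * uu e x k j)) (XX (wt (Lx e x) (uu e x h)) PH) (Lx e x)
      + XX (wt (Lx e x) (u2 e x k l)) (XX (wt (Lx e x) (uu e x h)) PH) (Lx e x)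
      + XX (wt (Lx e x) (uu e x l)) (XX (wt (Lx e x) (uu e x k))
        (XX (wt (Lx e x) (uu e x h)) PH)) (Lx e x)) := by
    rw [XX_lin2 sm_PH (wt (Lx e x) (uu e x h)), XX_lin2 sm_PH (wt (Lx e x) (uu e x h)),
      XX_lin3 sm_PH (wt (Lx e x) (uu e x h)), Finset.sum_div, ← Finset.sum_add_distrib,
      ← Finset.sum_add_distrib, ← Finset.sum_add_distrib]
    apply Finset.sum_congr rfl
    intro i _
    rw [second_id he x k l i]
    unfold wt; ring
  rw [p2]
  have : ∑ i, Real.exp (Lx e x i) * u2 e x k l i * (w1 e (x i) * h i)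
      = ∑ i, wt (Lx e x) (u2 e x k l) i * (w1 e (x i) * h i) := rfl
  rw [this, p1]; ring

lemma w1_q (x h : Fin n → ℝ) (i : Fin n) : |w1 e (x i) * h i| ≤ |qq e x h i| := by
  have hy := yy_pos he (x i)
  unfold qq
  rw [abs_div, abs_of_pos hy]
  refine (abs_mul_le (w1_le he _) le_rfl).trans (le_of_eq (by ring))

lemma w2_q (x h k : Fin n → ℝ) (i : Fin n) :
    |w2 e (x i) * h i * k i| ≤ |qq e x h i| * |qq e x k i| := by
  have hy := yy_pos he (x i)
  unfold qq
  rw [abs_div, abs_div, abs_of_pos hy]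
  refine (abs_mul_le (abs_mul_le (w2_le he _) le_rfl) le_rfl).trans (le_of_eq (by ring))

lemma w3_q (x h k l : Fin n → ℝ) (i : Fin n) :
    |w3 e (x i) * h i * k i * l i| ≤ 6 * (|qq e x h i| * |qq e x k i| * |qq e x l i|) := by
  have hy := yy_pos he (x i)
  unfold qq
  rw [abs_div, abs_div, abs_div, abs_of_pos hy]
  refine (abs_mul_le (abs_mul_le (abs_mul_le (w3_le he _) le_rfl) le_rfl) le_rfl).trans
    (le_of_eq (by ring))

lemma A3_uu (x h : Fin n → ℝ) : A3 (Lx e x) (uu e x h) ≤ 200 * BB e x h := by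
  refine (apriori _ _).trans ?_
  rw [Gam_uu he]
  apply mul_le_mul_of_nonneg_left _ (by norm_num)
  apply Finset.sum_le_sum
  intro i _
  have := w1_q he x h i
  gcongr

lemma F2_bound (h k x : Fin n → ℝ) : |F2 e h k x| ≤ 400 * (BB e x h + BB e x k + FF e x) := by
  have e1 : A3 (Lx e x) (fun _ => 1) = FF e x := by simp [A3, FF]
  have t1 := tri (Lx e x) (fun i => uu e x k i * (w1 e (x i) * h i)) (uu e x k) (qq e x h)
    (fun _ => 1) 1 zero_le_one (fun i => by
      simpa using abs_mul_le (le_refl |uu e x k i|) (w1_q he x h i))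
  have t2 := tri (Lx e x) (fun i => w2 e (x i) * k i * h i) (qq e x k) (qq e x h)
    (fun _ => 1) 1 zero_le_one (fun i => by simpa using w2_q he x k h i)
  have a1 := A3_uu he x k
  have b1 : 0 ≤ BB e x h := A3_nonneg _ _
  have b2 : 0 ≤ BB e x k := A3_nonneg _ _
  have b3 : 0 ≤ FF e x := by rw [← e1]; exact A3_nonneg _ _
  rw [e1] at t1 t2
  unfold F2
  rw [Finset.sum_add_distrib, abs_mul]
  simp only [mul_assoc] at t1 t2 ⊢
  have := abs_add_le' t1 t2
  unfold BB at *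
  simp only [Nat.abs_ofNat]
  linarith

lemma F3_bound (h k l x : Fin n → ℝ) :
    |F3 e h k l x| ≤ 2000 * (BB e x h + BB e x k + BB e x l) := by
  have t1 := tri (Lx e x) (fun i => uu e x l i * uu e x k i * (w1 e (x i) * h i)) (uu e x l)
    (uu e x k) (qq e x h) 1 zero_le_one (fun i => by
      simpa using abs_mul_le (abs_mul_le (le_refl |uu e x l i|) (le_refl |uu e x k i|))
        (w1_q he x h i))
  have g : ∀ a b c : Fin n → ℝ, |∑ i, Real.exp (Lx e x i) * (uu e x a i * (w2 e (x i) * b i * c i))|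
      ≤ 1 / 3 * (A3 (Lx e x) (uu e x a) + BB e x b + BB e x c) := fun a b c =>
    tri (Lx e x) (fun i => uu e x a i * (w2 e (x i) * b i * c i)) (uu e x a)
      (qq e x b) (qq e x c) 1 zero_le_one (fun i => by
        simpa [mul_assoc] using abs_mul_le (le_refl |uu e x a i|) (w2_q he x b c i))
  have t5 := tri (Lx e x) (fun i => w3 e (x i) * l i * k i * h i) (qq e x l)
    (qq e x k) (qq e x h) 6 (by norm_num) (fun i => w3_q he x l k h i)
  have t2 := T2_eq he h k l x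
  have t21 := g h l k
  have t22 := PH_h23 (Lx e x) (uu e x h) (uu e x l) (uu e x k)
  have t23 := PH_h3 (Lx e x) (uu e x h) (uu e x k) (uu e x l)
  have t3 := g k l h
  have t4 := g l k h
  have a1 := A3_uu he x h
  have a2 := A3_uu he x k
  have a3 := A3_uu he x l
  have b1 : 0 ≤ BB e x h := A3_nonneg _ _
  have b2 : 0 ≤ BB e x k := A3_nonneg _ _
  have b3 : 0 ≤ BB e x l := A3_nonneg _ _
  have e0 : F3 e h k l x = 4 * (∑ i, Real.exp (Lx e x i) * (uu e x l i * uu e x k i * (w1 e (x i) * h i))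
      + ∑ i, Real.exp (Lx e x i) * u2 e x k l i * (w1 e (x i) * h i)
      + ∑ i, Real.exp (Lx e x i) * (uu e x k i * (w2 e (x i) * l i * h i))
      + ∑ i, Real.exp (Lx e x i) * (uu e x l i * (w2 e (x i) * k i * h i))
      + ∑ i, Real.exp (Lx e x i) * (w3 e (x i) * l i * k i * h i)) := by
    unfold F3
    simp only [← Finset.sum_add_distrib]
    congr 1
    apply Finset.sum_congr rfl
    intro i _; ring
  rw [e0, t2]
  unfold BB at *
  rw [abs_le] at *
  constructor <;> linarith [t1.1, t1.2, t21.1, t21.2, t22.1, t22.2, t23.1, t23.2, t3.1, t3.2,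
    t4.1, t4.2, t5.1, t5.2]

end

end Pool.Agent.H853Z.Tsm
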