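import Mathlib

set_option autoImplicit false
set_option maxSynthPendingDepth 3

/-! Smoothness from bounds on finite differences. -/

namespace Pool.Agent.H853Z.Tsm

open Filter Topology

section
variable {E G : Type} [AddCommGroup E] [AddCommGroup G]

def D2 (F : E → G) (x h k : E) : G := F (x + h + k) - F (x + h) - F (x + k) + F x

def D3 (F : E → G) (x h k l : E) : G := D2 F (x + l) h k - D2 F x h k

end

section
variable {E : Type} [AddCommGroup E] [Module ℝ E]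

lemma mvt1 {F G : E → ℝ} {h : E} (hd : ∀ z, HasDerivAt (fun τ : ℝ => F (z + τ • h)) (G z) 0)
    (x : E) {t : ℝ} (ht : 0 ≤ t) :
    ∃ a, 0 ≤ a ∧ a ≤ t ∧ F (x + t • h) - F x = t * G (x + a • h) := by
  rcases ht.eq_or_lt with rfl | ht'
  · exact ⟨0, le_rfl, le_rfl, by simp⟩
  have d : ∀ σ : ℝ, HasDerivAt (fun τ : ℝ => F (x + τ • h)) (G (x + σ • h)) σ := by
    intro σ
    have h1 : HasDerivAt (fun τ : ℝ => F (x + σ • h + τ • h)) (G (x + σ • h)) (σ - σ) := by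
      rw [sub_self]; exact hd _
    have h2 := h1.comp_sub_const σ σ
    have e : (fun τ : ℝ => F (x + σ • h + (τ - σ) • h)) = fun τ : ℝ => F (x + τ • h) := by
      funext τ; congr 1; rw [sub_smul]; abel
    rw [e] at h2; exact h2
  obtain ⟨a, ha, e⟩ := exists_hasDerivAt_eq_slope (fun τ : ℝ => F (x + τ • h))
    (fun σ => G (x + σ • h)) ht' (fun σ _ => (d σ).continuousAt.continuousWithinAt)
    (fun σ _ => d σ)
  refine ⟨a, ha.1.le, ha.2.le, ?_⟩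
  simp only [zero_smul, add_zero, sub_zero] at e
  rw [e]; field_simp

lemma shift_d {F G : E → ℝ} {h : E} (hd : ∀ z, HasDerivAt (fun τ : ℝ => F (z + τ • h)) (G z) 0)
    (k : E) (z : E) : HasDerivAt (fun τ : ℝ => F (z + τ • h + k) - F (z + τ • h))
      (G (z + k) - G z) 0 := by
  have h1 := hd (z + k)
  have e : (fun τ : ℝ => F (z + k + τ • h)) = fun τ : ℝ => F (z + τ • h + k) := by
    funext τ; congr 1; abel
  rw [e] at h1
  exact h1.sub (hd z)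

lemma mvt2 {F G1 G2 : E → ℝ} {h k : E}
    (d1 : ∀ z, HasDerivAt (fun τ : ℝ => F (z + τ • h)) (G1 z) 0)
    (d2 : ∀ z, HasDerivAt (fun τ : ℝ => G1 (z + τ • k)) (G2 z) 0)
    (x : E) {s t : ℝ} (hs : 0 ≤ s) (ht : 0 ≤ t) :
    ∃ a b, 0 ≤ a ∧ a ≤ s ∧ 0 ≤ b ∧ b ≤ t ∧
      D2 F x (s • h) (t • k) = s * t * G2 (x + a • h + b • k) := by
  obtain ⟨a, a0, a1, e1⟩ := mvt1 (F := fun z => F (z + t • k) - F z)
    (G := fun z => G1 (z + t • k) - G1 z) (shift_d d1 (t • k)) x hs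
  obtain ⟨b, b0, b1, e2⟩ := mvt1 d2 (x + a • h) ht
  refine ⟨a, b, a0, a1, b0, b1, ?_⟩
  unfold D2
  rw [e2] at e1
  linarith

lemma mvt3 {F G1 G2 G3 : E → ℝ} {h k l : E}
    (d1 : ∀ z, HasDerivAt (fun τ : ℝ => F (z + τ • h)) (G1 z) 0)
    (d2 : ∀ z, HasDerivAt (fun τ : ℝ => G1 (z + τ • k)) (G2 z) 0)
    (d3 : ∀ z, HasDerivAt (fun τ : ℝ => G2 (z + τ • l)) (G3 z) 0)
    (x : E) {s t r : ℝ} (hs : 0 ≤ s) (ht : 0 ≤ t) (hr : 0 ≤ r) :
    ∃ a b c, 0 ≤ a ∧ a ≤ s ∧ 0 ≤ b ∧ b ≤ t ∧ 0 ≤ c ∧ c ≤ r ∧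
      D3 F x (s • h) (t • k) (r • l) = s * t * r * G3 (x + a • h + b • k + c • l) := by
  obtain ⟨a, b, a0, a1, b0, b1, e1⟩ := mvt2 (F := fun z => F (z + r • l) - F z)
    (G1 := fun z => G1 (z + r • l) - G1 z) (G2 := fun z => G2 (z + r • l) - G2 z)
    (shift_d d1 (r • l)) (shift_d d2 (r • l)) x hs ht
  obtain ⟨c, c0, c1, e2⟩ := mvt1 d3 (x + a • h + b • k) hr
  refine ⟨a, b, c, a0, a1, b0, b1, c0, c1, ?_⟩
  rw [e2] at e1
  unfold D3
  unfold D2 at e1 ⊢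
  rw [show x + r • l + s • h + t • k = x + s • h + t • k + r • l by abel,
    show x + r • l + s • h = x + s • h + r • l by abel,
    show x + r • l + t • k = x + t • k + r • l by abel]
  linarith

end

section
variable {E G : Type} [NormedAddCommGroup E] [NormedSpace ℝ E] [NormedAddCommGroup G]
  [NormedSpace ℝ G]

lemma diff_of_D2 [CompleteSpace G] {g : E → G} {x : E} (hg : ContinuousAt g x) {B : ℝ → ℝ}
    (hB : Monotone B) (hB0 : ∀ r, 0 ≤ B r)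
    (h2 : ∀ h k, ‖D2 g x h k‖ ≤ B (‖h‖ + ‖k‖) * ‖h‖ * ‖k‖) : DifferentiableAt ℝ g x := by
  set q : E → G := fun h => g (x + h) - g x with hq
  have hq2 : ∀ h k, ‖q (h + k) - q h - q k‖ ≤ B (‖h‖ + ‖k‖) * ‖h‖ * ‖k‖ := by
    intro h k
    have : q (h + k) - q h - q k = D2 g x h k := by simp only [hq, D2, add_assoc]; abel
    rw [this]; exact h2 h k
  set a : E → ℕ → G := fun h n => (2:ℝ) ^ n • q (((1:ℝ) / 2) ^ n • h) with ha
  have nrm : ∀ (h : E) (n : ℕ), ‖((1:ℝ) / 2) ^ n • h‖ = (1 / 2) ^ n * ‖h‖ := by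
    intro h n; rw [norm_smul, Real.norm_eq_abs, abs_of_pos (by positivity)]
  have hle : ∀ n : ℕ, ((1:ℝ) / 2) ^ n ≤ 1 := fun n => pow_le_one₀ (by norm_num) (by norm_num)
  have two : ∀ n : ℕ, (2:ℝ) ^ n * (1 / 2) ^ n = 1 := fun n => by rw [← mul_pow]; simp
  have step : ∀ h n, dist (a h n) (a h (n + 1)) ≤ (B ‖h‖ * ‖h‖ ^ 2) * (1 / 2) ^ n := by
    intro h n
    set h' := ((1:ℝ) / 2) ^ (n + 1) • h with hh'
    have e1 : ((1:ℝ) / 2) ^ n • h = h' + h' := by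
      rw [hh', ← add_smul]; congr 1; ring
    have e2 : a h n - a h (n + 1) = (2:ℝ) ^ n • (q (h' + h') - q h' - q h') := by
      have e3 : a h n = (2:ℝ) ^ n • q (h' + h') := by simp only [ha]; rw [e1]
      have e4 : a h (n + 1) = (2:ℝ) ^ (n + 1) • q h' := rfl
      rw [e3, e4, pow_succ]
      generalize q (h' + h') = u
      generalize q h' = v
      module
    rw [dist_eq_norm, e2, norm_smul, Real.norm_eq_abs, abs_of_pos (by positivity)]
    have h3 := hq2 h' h'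
    have n1 : ‖h'‖ = (1 / 2) ^ n * ‖h‖ / 2 := by rw [hh', nrm]; ring
    have h4 : B (‖h'‖ + ‖h'‖) ≤ B ‖h‖ := hB (by
      rw [n1]; nlinarith [hle n, norm_nonneg h])
    have h5 : ‖q (h' + h') - q h' - q h'‖ ≤ B ‖h‖ * ‖h'‖ * ‖h'‖ := h3.trans (by gcongr)
    calc (2:ℝ) ^ n * ‖q (h' + h') - q h' - q h'‖ ≤ 2 ^ n * (B ‖h‖ * ‖h'‖ * ‖h'‖) := by gcongr
      _ = (2 ^ n * (1 / 2) ^ n) * ((B ‖h‖ * ‖h‖ ^ 2) * (1 / 2) ^ n) / 4 := by rw [n1]; ring
      _ ≤ _ := by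
        rw [two, one_mul]
        have : 0 ≤ (B ‖h‖ * ‖h‖ ^ 2) * (1 / 2) ^ n := by have := hB0 ‖h‖; positivity
        linarith
  have cau : ∀ h, CauchySeq (a h) := fun h =>
    cauchySeq_of_le_geometric (1 / 2) _ (by norm_num) (step h)
  choose A hA using fun h => cauchySeq_tendsto_of_complete (cau h)
  have near : ∀ h, ‖q h - A h‖ ≤ 2 * (B ‖h‖ * ‖h‖ ^ 2) := by
    intro h
    have := dist_le_of_le_geometric_of_tendsto₀ (1 / 2) _ (by norm_num) (step h) (hA h)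
    rw [dist_eq_norm] at this
    simp only [ha, pow_zero, one_smul] at this
    refine this.trans (le_of_eq ?_)
    ring
  have add : ∀ h k, A (h + k) = A h + A k := by
    intro h k
    have l1 : Tendsto (fun n => a (h + k) n - a h n - a k n) atTop (𝓝 (A (h + k) - A h - A k)) :=
      ((hA _).sub (hA _)).sub (hA _)
    have l2 : Tendsto (fun n => a (h + k) n - a h n - a k n) atTop (𝓝 0) := by
      have l3 : Tendsto (fun n : ℕ => (B (‖h‖ + ‖k‖) * ‖h‖ * ‖k‖) * ((1:ℝ) / 2) ^ n) atTop (𝓝 0) := by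
        simpa using (tendsto_pow_atTop_nhds_zero_of_lt_one (show (0:ℝ) ≤ 1 / 2 by norm_num)
          (by norm_num)).const_mul (B (‖h‖ + ‖k‖) * ‖h‖ * ‖k‖)
      refine squeeze_zero_norm (fun n => ?_) l3
      simp only [ha]
      rw [← smul_sub, ← smul_sub, smul_add, norm_smul, Real.norm_eq_abs, abs_of_pos (by positivity)]
      have h3 := hq2 (((1:ℝ) / 2) ^ n • h) (((1:ℝ) / 2) ^ n • k)
      rw [nrm, nrm] at h3
      have h4 : B ((1 / 2) ^ n * ‖h‖ + (1 / 2) ^ n * ‖k‖) ≤ B (‖h‖ + ‖k‖) := hB (by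
        nlinarith [hle n, norm_nonneg h, norm_nonneg k])
      calc _ ≤ (2:ℝ) ^ n * (B (‖h‖ + ‖k‖) * ((1 / 2) ^ n * ‖h‖) * ((1 / 2) ^ n * ‖k‖)) := by
            gcongr; exact h3.trans (by gcongr)
        _ = (2 ^ n * (1 / 2) ^ n) * ((B (‖h‖ + ‖k‖) * ‖h‖ * ‖k‖) * (1 / 2) ^ n) := by ring
        _ = _ := by rw [two, one_mul]
    have := tendsto_nhds_unique l1 l2
    rw [sub_sub, sub_eq_zero] at this; exact this
  let A' : E →+ G := AddMonoidHom.mk' A add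
  have small : (fun h => q h - A h) =o[𝓝 0] (fun h : E => h) := by
    rw [Asymptotics.isLittleO_iff]
    intro c hc
    have hB1 := hB0 1
    have hδ : 0 < min 1 (c / (2 * B 1 + 1)) := by positivity
    filter_upwards [Metric.ball_mem_nhds (0:E) hδ] with h hh
    rw [mem_ball_zero_iff, lt_min_iff] at hh
    refine (near h).trans ?_
    have h1 : B ‖h‖ ≤ B 1 := hB hh.1.le
    have h3 := hh.2
    rw [lt_div_iff₀ (by positivity)] at h3
    have h0 := norm_nonneg h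
    have h4 : B ‖h‖ * ‖h‖ ^ 2 ≤ B 1 * ‖h‖ ^ 2 := by gcongr
    nlinarith
  have cq : Tendsto q (𝓝 0) (𝓝 0) := by
    have h1 : Tendsto (fun h : E => x + h) (𝓝 0) (𝓝 x) := by
      simpa using (tendsto_id (x := 𝓝 (0:E))).const_add x
    simpa [hq] using (hg.tendsto.comp h1).sub_const (g x)
  have cA : Continuous A' := by
    apply continuous_of_continuousAt_zero A'
    rw [ContinuousAt, map_zero]
    have h1 := small.trans_tendsto tendsto_id
    have := cq.sub h1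
    simp only [sub_sub_cancel, sub_zero] at this
    exact this
  refine ⟨A'.toRealLinearMap cA, ?_⟩
  rw [hasFDerivAt_iff_isLittleO_nhds_zero]
  exact small

lemma fd_bound {g : E → G} {g' : E →L[ℝ] G} {x : E} (hg : HasFDerivAt g g' x) {K : ℝ} (hK : 0 ≤ K)
    (h : ∀ h : E, ‖h‖ ≤ 1 → ‖g (x + h) - g x‖ ≤ K * ‖h‖) : ‖g'‖ ≤ K := by
  apply hg.le_of_lip' hK
  filter_upwards [Metric.ball_mem_nhds x one_pos] with y hy
  have := h (y - x) (by rw [mem_ball_iff_norm] at hy; exact hy.le)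
  simpa using this

lemma shift_fd {g : E → G} (hg : Differentiable ℝ g) (x k : E) :
    HasFDerivAt (fun z => g (z + k)) (fderiv ℝ g (x + k)) x := by
  exact ((hg (x + k)).hasFDerivAt.comp x ((hasFDerivAt_id x).add_const k)).congr_fderiv (by simp)

theorem c2_of_diff {F : E → ℝ} (hF : Continuous F) {B : ℝ → ℝ} (hB : Monotone B)
    (hB0 : ∀ r, 0 ≤ B r) {C : ℝ} (hC : 0 ≤ C)
    (h2 : ∀ x h k, |D2 F x h k| ≤ B (‖x‖ + ‖h‖ + ‖k‖) * ‖h‖ * ‖k‖)
    (h3 : ∀ x h k l, |D3 F x h k l| ≤ C * (‖x‖ + ‖h‖ + ‖k‖ + ‖l‖) * ‖h‖ * ‖k‖ * ‖l‖) :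
    Differentiable ℝ F ∧ Differentiable ℝ (fderiv ℝ F) ∧
    (∀ x k, ‖fderiv ℝ F (x + k) - fderiv ℝ F x‖ ≤ B (‖x‖ + ‖k‖ + 1) * ‖k‖) ∧
    (∀ x l, ‖fderiv ℝ (fderiv ℝ F) (x + l) - fderiv ℝ (fderiv ℝ F) x‖
      ≤ C * (‖x‖ + ‖l‖ + 2) * ‖l‖) := by
  have s1 : Differentiable ℝ F := fun x =>
    diff_of_D2 (B := fun r => B (‖x‖ + r)) hF.continuousAt (fun a b hab => hB (by linarith))
      (fun r => hB0 _) (fun h k => by simpa [add_assoc] using h2 x h k)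
  have s2 : ∀ x k, ‖fderiv ℝ F (x + k) - fderiv ℝ F x‖ ≤ B (‖x‖ + ‖k‖ + 1) * ‖k‖ := by
    intro x k
    apply fd_bound ((shift_fd s1 x k).sub (s1 x).hasFDerivAt) (mul_nonneg (hB0 _) (norm_nonneg _))
    intro h hh
    have e : F (x + h + k) - F (x + h) - (F (x + k) - F x) = D2 F x h k := by unfold D2; ring
    simp only [Pi.sub_apply]
    rw [e, Real.norm_eq_abs]
    refine (h2 x h k).trans ?_
    have : B (‖x‖ + ‖h‖ + ‖k‖) ≤ B (‖x‖ + ‖k‖ + 1) := hB (by linarith)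
    calc _ ≤ B (‖x‖ + ‖k‖ + 1) * ‖h‖ * ‖k‖ := by gcongr
      _ = _ := by ring
  have s3 : ∀ x k l, ‖D2 (fderiv ℝ F) x k l‖ ≤ C * (‖x‖ + ‖k‖ + ‖l‖ + 1) * ‖k‖ * ‖l‖ := by
    intro x k l
    have d : HasFDerivAt (fun z => D2 F z k l) (D2 (fderiv ℝ F) x k l) x := by
      unfold D2
      simp only [add_assoc _ k l]
      exact (((shift_fd s1 x (k + l)).sub (shift_fd s1 x k)).sub (shift_fd s1 x l)).add
        (s1 x).hasFDerivAt
    apply fd_bound d (by positivity)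
    intro h hh
    refine (h3 x k l h).trans ?_
    gcongr
  have c1 : Continuous (fderiv ℝ F) := by
    rw [continuous_iff_continuousAt]
    intro x
    rw [ContinuousAt, tendsto_iff_norm_sub_tendsto_zero]
    have l1 : Tendsto (fun y => B (‖x‖ + 2) * ‖y - x‖) (𝓝 x) (𝓝 0) := by
      simpa using (tendsto_norm_sub_self x).const_mul (B (‖x‖ + 2))
    refine squeeze_zero' (Eventually.of_forall (fun y => norm_nonneg _)) ?_ l1
    filter_upwards [Metric.ball_mem_nhds x one_pos] with y hy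
    rw [mem_ball_iff_norm] at hy
    have := s2 x (y - x)
    rw [add_sub_cancel] at this
    refine this.trans ?_
    have : B (‖x‖ + ‖y - x‖ + 1) ≤ B (‖x‖ + 2) := hB (by linarith)
    gcongr
  have s4 : Differentiable ℝ (fderiv ℝ F) := fun x =>
    diff_of_D2 (B := fun r => C * max 0 (‖x‖ + r + 1)) c1.continuousAt
      (fun a b hab => mul_le_mul_of_nonneg_left (max_le_max le_rfl (by linarith)) hC)
      (fun r => mul_nonneg hC (le_max_left _ _)) (fun h k => (s3 x h k).trans (by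
        gcongr; exact le_trans (by linarith) (le_max_right _ _)))
  refine ⟨s1, s4, s2, ?_⟩
  intro x l
  apply fd_bound ((shift_fd s4 x l).sub (s4 x).hasFDerivAt) (by positivity)
  intro k hk
  have e : fderiv ℝ F (x + k + l) - fderiv ℝ F (x + k) - (fderiv ℝ F (x + l) - fderiv ℝ F x)
      = D2 (fderiv ℝ F) x k l := by unfold D2; abel
  simp only [Pi.sub_apply]
  rw [e]
  refine (s3 x k l).trans ?_
  have hh : ‖x‖ + ‖k‖ + ‖l‖ + 1 ≤ ‖x‖ + ‖l‖ + 2 := by linarith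
  calc _ ≤ C * (‖x‖ + ‖l‖ + 2) * ‖k‖ * ‖l‖ := by
        exact mul_le_mul_of_nonneg_right (mul_le_mul_of_nonneg_right
          (mul_le_mul_of_nonneg_left hh hC) (norm_nonneg _)) (norm_nonneg _)
    _ = _ := by ring

theorem norm_smooth {B : ℝ → ℝ} (hB : Monotone B) (hB0 : ∀ r, 0 ≤ B r) {C : ℝ} (hC : 0 ≤ C)
    (h2 : ∀ x h k : E, |D2 (fun x : E => ‖x‖ ^ 4) x h k| ≤ B (‖x‖ + ‖h‖ + ‖k‖) * ‖h‖ * ‖k‖)
    (h3 : ∀ x h k l : E, |D3 (fun x : E => ‖x‖ ^ 4) x h k l|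
      ≤ C * (‖x‖ + ‖h‖ + ‖k‖ + ‖l‖) * ‖h‖ * ‖k‖ * ‖l‖) :
    ContDiffOn ℝ 2 (fun x : E => ‖x‖) {x | x ≠ 0} ∧
    UniformContinuousOn (iteratedFDeriv ℝ 2 (fun x : E => ‖x‖)) {x | ‖x‖ = 1} := by
  set F : E → ℝ := fun x => ‖x‖ ^ 4 with hF
  obtain ⟨s1, s2, s3, s4⟩ := c2_of_diff (continuous_norm.pow 4) hB hB0 hC h2 h3
  have c2 : Continuous (fderiv ℝ (fderiv ℝ F)) := by
    rw [continuous_iff_continuousAt]
    intro x
    rw [ContinuousAt, tendsto_iff_norm_sub_tendsto_zero]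
    have l1 : Tendsto (fun y => C * (‖x‖ + 3) * ‖y - x‖) (𝓝 x) (𝓝 0) := by
      simpa using (tendsto_norm_sub_self x).const_mul (C * (‖x‖ + 3))
    refine squeeze_zero' (Eventually.of_forall (fun y => norm_nonneg _)) ?_ l1
    filter_upwards [Metric.ball_mem_nhds x one_pos] with y hy
    rw [mem_ball_iff_norm] at hy
    have := s4 x (y - x)
    rw [add_sub_cancel] at this
    refine this.trans ?_
    exact mul_le_mul_of_nonneg_right (mul_le_mul_of_nonneg_left (by linarith) hC) (norm_nonneg _)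
  have cd : ContDiff ℝ 2 F := by
    rw [show (2 : WithTop ℕ∞) = 1 + 1 from rfl, contDiff_succ_iff_fderiv]
    refine ⟨s1, by simp, ?_⟩
    rw [contDiff_one_iff_fderiv]
    exact ⟨s2, c2⟩
  have eN : (fun x : E => ‖x‖) = fun x => F x ^ ((1:ℝ) / 4) := by
    funext x
    simp only [hF]
    rw [← Real.rpow_natCast, ← Real.rpow_mul (norm_nonneg x)]; norm_num
  have Fne : ∀ x : E, x ≠ 0 → F x ≠ 0 := fun x hx => pow_ne_zero 4 (norm_ne_zero_iff.2 hx)
  constructor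
  · rw [eN]
    intro x hx
    exact (cd.contDiffAt.rpow_const_of_ne (Fne x hx)).contDiffWithinAt
  have d1 : ∀ x : E, x ≠ 0 → fderiv ℝ (fun x : E => ‖x‖) x
      = ((1:ℝ) / 4 * F x ^ ((1:ℝ) / 4 - 1)) • fderiv ℝ F x := by
    intro x hx
    rw [eN]
    exact ((s1 x).hasFDerivAt.rpow_const (Or.inl (Fne x hx))).fderiv
  have d2 : ∀ x : E, ‖x‖ = 1 → fderiv ℝ (fderiv ℝ (fun x : E => ‖x‖)) x
      = ((1:ℝ) / 4) • fderiv ℝ (fderiv ℝ F) x
        + ((-3 / 16 : ℝ) • fderiv ℝ F x).smulRight (fderiv ℝ F x) := by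
    intro x hx
    have hx0 : x ≠ 0 := by rintro rfl; simp at hx
    have F1 : F x = 1 := by simp [hF, hx]
    have ev : fderiv ℝ (fun x : E => ‖x‖) =ᶠ[𝓝 x]
        fun y => ((1:ℝ) / 4 * F y ^ ((1:ℝ) / 4 - 1)) • fderiv ℝ F y := by
      filter_upwards [isOpen_ne.mem_nhds hx0] with y hy using d1 y hy
    rw [ev.fderiv_eq]
    have h1 := ((s1 x).hasFDerivAt.rpow_const (p := (1:ℝ) / 4 - 1) (Or.inl (Fne x hx0))).const_mul
      ((1:ℝ) / 4)
    have h4 := (h1.fun_smul (s2 x).hasFDerivAt).fderiv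
    rw [h4, F1]
    simp only [Real.one_rpow, mul_one, smul_smul]
    norm_num
  have b0 : fderiv ℝ F 0 = 0 := by
    have : IsLocalMin F 0 := Eventually.of_forall (fun y => by simp [hF])
    exact this.fderiv_eq_zero
  have b1 : ∀ x : E, ‖x‖ = 1 → ‖fderiv ℝ F x‖ ≤ B 2 := by
    intro x hx
    have := s3 0 x
    rw [zero_add, b0, sub_zero, hx] at this
    simpa [one_add_one_eq_two] using this
  have lip : ∀ x y : E, ‖x‖ = 1 → ‖y‖ = 1 →
      ‖fderiv ℝ (fderiv ℝ (fun x : E => ‖x‖)) y - fderiv ℝ (fderiv ℝ (fun x : E => ‖x‖)) x‖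
        ≤ (5 * C + B 2 * B 4) * ‖y - x‖ := by
    intro x y hx hy
    have hxy : ‖y - x‖ ≤ 2 := by linarith [norm_sub_le y x]
    have t1 := s3 x (y - x)
    have t2 := s4 x (y - x)
    rw [add_sub_cancel, hx] at t1 t2
    have t3 : ‖fderiv ℝ F y - fderiv ℝ F x‖ ≤ B 4 * ‖y - x‖ := by
      refine t1.trans ?_
      have : B (1 + ‖y - x‖ + 1) ≤ B 4 := hB (by linarith)
      gcongr
    have t4 : ‖fderiv ℝ (fderiv ℝ F) y - fderiv ℝ (fderiv ℝ F) x‖ ≤ C * 5 * ‖y - x‖ := by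
      refine t2.trans ?_
      gcongr; linarith
    rw [d2 x hx, d2 y hy]
    have e : ((1:ℝ) / 4) • fderiv ℝ (fderiv ℝ F) y
        + ((-3 / 16 : ℝ) • fderiv ℝ F y).smulRight (fderiv ℝ F y) - (((1:ℝ) / 4) • fderiv ℝ (fderiv ℝ F) x
        + ((-3 / 16 : ℝ) • fderiv ℝ F x).smulRight (fderiv ℝ F x))
        = ((1:ℝ) / 4) • (fderiv ℝ (fderiv ℝ F) y - fderiv ℝ (fderiv ℝ F) x)
          + (-3 / 16 : ℝ) • ((fderiv ℝ F y - fderiv ℝ F x).smulRight (fderiv ℝ F y)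
            + (fderiv ℝ F x).smulRight (fderiv ℝ F y - fderiv ℝ F x)) := by
      ext a b; simp; ring
    rw [e]
    refine (norm_add_le _ _).trans ?_
    rw [norm_smul, norm_smul]
    have t5 := norm_add_le ((fderiv ℝ F y - fderiv ℝ F x).smulRight (fderiv ℝ F y))
      ((fderiv ℝ F x).smulRight (fderiv ℝ F y - fderiv ℝ F x))
    rw [ContinuousLinearMap.norm_smulRight_apply, ContinuousLinearMap.norm_smulRight_apply] at t5
    have t6 : ‖fderiv ℝ F y - fderiv ℝ F x‖ * ‖fderiv ℝ F y‖ ≤ (B 4 * ‖y - x‖) * B 2 :=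
      mul_le_mul t3 (b1 y hy) (norm_nonneg _) ((norm_nonneg _).trans t3)
    have t7 : ‖fderiv ℝ F x‖ * ‖fderiv ℝ F y - fderiv ℝ F x‖ ≤ B 2 * (B 4 * ‖y - x‖) :=
      mul_le_mul (b1 x hx) t3 (norm_nonneg _) (hB0 _)
    have n1 : ‖((1:ℝ) / 4)‖ = 1 / 4 := by norm_num
    have n2 : ‖((-3 / 16 : ℝ))‖ = 3 / 16 := by norm_num
    rw [n1, n2]
    have p1 : 0 ≤ C * ‖y - x‖ := by positivity
    have p2 : 0 ≤ B 2 * B 4 * ‖y - x‖ := by have := hB0 2; have := hB0 4; positivity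
    nlinarith
  have hK : 0 ≤ 5 * C + B 2 * B 4 := by have := hB0 2; have := hB0 4; positivity
  have lip2 : LipschitzOnWith ⟨5 * C + B 2 * B 4, hK⟩ (iteratedFDeriv ℝ 2 (fun x : E => ‖x‖))
      {x | ‖x‖ = 1} := by
    apply LipschitzOnWith.of_dist_le_mul
    intro y hy x hx
    rw [dist_eq_norm, dist_eq_norm]
    refine le_trans ?_ (lip x y hx hy)
    apply ContinuousMultilinearMap.opNorm_le_bound (norm_nonneg _)
    intro m
    rw [sub_apply, iteratedFDeriv_two_apply, iteratedFDeriv_two_apply,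
      Fin.prod_univ_two, ← mul_assoc]
    exact (fderiv ℝ (fderiv ℝ (fun x : E => ‖x‖)) y
      - fderiv ℝ (fderiv ℝ (fun x : E => ‖x‖)) x).le_opNorm₂ (m 0) (m 1)
  exact lip2.uniformContinuousOn

end

end Pool.Agent.H853Z.Tsm
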