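import Pool.Agent.H853Z.Tsm.Psi

set_option autoImplicit false

/-! Convexity inequalities and the gradient homeomorphism. -/

namespace Pool.Agent.H853Z.Tsm

open Finset Filter Topology
open scoped ContDiff

variable {n : ℕ}

lemma conv_aux {g g1 g2 : ℝ → ℝ} {θ : ℝ} (h0 : 0 ≤ θ)
    (h1 : ∀ τ ∈ Set.Icc 0 θ, HasDerivAt g (g1 τ) τ)
    (h2 : ∀ τ ∈ Set.Icc 0 θ, HasDerivAt g1 (g2 τ) τ)
    (h3 : ∀ τ ∈ Set.Icc 0 θ, 0 ≤ g2 τ) : g 0 + θ * g1 0 ≤ g θ := by
  have m1 : MonotoneOn g1 (Set.Icc 0 θ) := by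
    apply monotoneOn_of_deriv_nonneg (convex_Icc 0 θ)
    · exact fun τ hτ => (h2 τ hτ).continuousAt.continuousWithinAt
    · exact fun τ hτ => (h2 τ (interior_subset hτ)).differentiableAt.differentiableWithinAt
    · intro τ hτ; rw [(h2 τ (interior_subset hτ)).deriv]; exact h3 τ (interior_subset hτ)
  have d : ∀ τ ∈ Set.Icc 0 θ, HasDerivAt (fun τ => g τ - τ * g1 0) (g1 τ - g1 0) τ := by
    intro τ hτ
    exact ((h1 τ hτ).sub ((hasDerivAt_id τ).mul_const (g1 0))).congr_deriv (by simp)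
  have m2 : MonotoneOn (fun τ => g τ - τ * g1 0) (Set.Icc 0 θ) := by
    apply monotoneOn_of_deriv_nonneg (convex_Icc 0 θ)
    · exact fun τ hτ => (d τ hτ).continuousAt.continuousWithinAt
    · exact fun τ hτ => (d τ (interior_subset hτ)).differentiableAt.differentiableWithinAt
    · intro τ hτ
      have hτ' := interior_subset hτ
      rw [(d τ hτ').deriv, sub_nonneg]
      exact m1 ⟨le_rfl, h0⟩ hτ' hτ'.1
  have := m2 ⟨le_rfl, h0⟩ ⟨h0, le_rfl⟩ h0
  simp only [zero_mul, sub_zero] at this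
  linarith

noncomputable def GG (c σ : ℝ) (μ : Fin n → ℝ) : ℝ :=
  c * ∑ i, (μ i * Real.log (μ i) - μ i) + σ * Psi (ex μ) n

lemma conv_ineq {c σ : ℝ} (hc : 1 / 100 ≤ c) (hσ : |σ| ≤ 1) (l ν : Fin n → ℝ) (hν : ∀ i, 0 ≤ ν i) :
    GG c σ (fun i => Real.exp (l i)) + (c * ∑ i, (ν i - Real.exp (l i)) * l i
      + σ * XX (fun i => ν i - Real.exp (l i)) PH l) ≤ GG c σ ν := by
  set b : Fin n → ℝ := fun i => ν i - Real.exp (l i) with hb
  set mt : ℝ → Fin n → ℝ := fun θ i => Real.exp (l i) + θ * b i with hmt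
  set lt : ℝ → Fin n → ℝ := fun θ i => Real.log (mt θ i) with hlt
  have pos : ∀ θ, 0 ≤ θ → θ < 1 → ∀ i, 0 < mt θ i := by
    intro θ h0 h1 i
    have := Real.exp_pos (l i)
    have e : mt θ i = (1 - θ) * Real.exp (l i) + θ * ν i := by simp only [hmt, hb]; ring
    rw [e]
    have := hν i
    have : 0 < 1 - θ := by linarith
    positivity
  have dm : ∀ θ i, HasDerivAt (fun θ => mt θ i) (b i) θ := by
    intro θ i
    exact (((hasDerivAt_id θ).mul_const (b i)).const_add (Real.exp (l i))).congr_deriv (by simp)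
  have dl : ∀ θ, 0 ≤ θ → θ < 1 → HasDerivAt lt (vf b (lt θ)) θ := by
    intro θ h0 h1
    rw [hasDerivAt_pi]
    intro i
    refine ((dm θ i).log (pos θ h0 h1 i).ne').congr_deriv ?_
    simp only [vf, hlt]
    rw [Real.exp_neg, Real.exp_log (pos θ h0 h1 i), div_eq_mul_inv]
  have df : ∀ f, Sm f → ∀ θ, 0 ≤ θ → θ < 1 →
      HasDerivAt (fun θ => f (lt θ)) (XX b f (lt θ)) θ := fun f hf θ h0 h1 =>
    (hf.diff _).hasFDerivAt.comp_hasDerivAt θ (dl θ h0 h1)
  have key : ∀ θ, 0 ≤ θ → θ < 1 → GG c σ (fun i => Real.exp (l i)) + θ * (c * ∑ i, b i * l i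
      + σ * XX b PH l) ≤ GG c σ (mt θ) := by
    intro θ h0 h1
    have := conv_aux (g := fun θ => c * ∑ i, (mt θ i * Real.log (mt θ i) - mt θ i) + σ * PH (lt θ))
      (g1 := fun θ => c * ∑ i, b i * Real.log (mt θ i) + σ * XX b PH (lt θ))
      (g2 := fun θ => c * ∑ i, b i * (b i / mt θ i) + σ * XX b (XX b PH) (lt θ)) h0 ?_ ?_ ?_
    · have e0 : mt 0 = fun i => Real.exp (l i) := by funext i; simp [hmt]
      have e1 : lt 0 = l := by funext i; simp [hlt, e0]
      have e2 : mm (lt θ) = ex (mt θ) := by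
        unfold mm; congr 1; funext i; exact Real.exp_log (pos θ h0 h1 i)
      simp only [e0, e1, Real.log_exp] at this
      unfold GG
      simp only [Real.log_exp]
      unfold PH at this
      rw [e2] at this
      exact this
    · intro τ hτ
      have t1 : τ < 1 := lt_of_le_of_lt hτ.2 h1
      apply HasDerivAt.add (HasDerivAt.const_mul c _) ((df _ sm_PH τ hτ.1 t1).const_mul σ)
      apply HasDerivAt.fun_sum
      intro i _
      refine (((dm τ i).mul ((dm τ i).log (pos τ hτ.1 t1 i).ne')).sub (dm τ i)).congr_deriv ?_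
      have := (pos τ hτ.1 t1 i).ne'
      field_simp; ring
    · intro τ hτ
      have t1 : τ < 1 := lt_of_le_of_lt hτ.2 h1
      apply HasDerivAt.add (HasDerivAt.const_mul c _) ((df _ (sm_PH.XX b) τ hτ.1 t1).const_mul σ)
      apply HasDerivAt.fun_sum
      intro i _
      exact ((dm τ i).log (pos τ hτ.1 t1 i).ne').const_mul (b i)
    · intro τ hτ
      have t1 : τ < 1 := lt_of_le_of_lt hτ.2 h1
      have e : b = wt (lt τ) (fun i => b i / mt τ i) := by
        funext i
        simp only [wt, hlt]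
        rw [Real.exp_log (pos τ hτ.1 t1 i)]
        have := (pos τ hτ.1 t1 i).ne'
        field_simp
      have h := PH_h2 (lt τ) (fun i => b i / mt τ i)
      rw [← e] at h
      have e2 : ∑ i, Real.exp (lt τ i) * (b i / mt τ i) ^ 2 = ∑ i, b i * (b i / mt τ i) := by
        apply Finset.sum_congr rfl
        intro i _
        simp only [hlt]
        rw [Real.exp_log (pos τ hτ.1 t1 i)]
        have := (pos τ hτ.1 t1 i).ne'
        field_simp
      have h4 : 0 ≤ ∑ i, b i * (b i / mt τ i) := by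
        rw [← e2]; exact Finset.sum_nonneg (fun i _ => by positivity)
      rw [e2] at h
      have h5 := abs_mul_le hσ h
      have h6 := neg_abs_le (σ * XX b (XX b PH) (lt τ))
      nlinarith
  have cm : ∀ i, Tendsto (fun θ => mt θ i) (𝓝[<] 1) (𝓝 (ν i)) := by
    intro i
    have := (dm 1 i).continuousAt.tendsto.mono_left (nhdsWithin_le_nhds (s := Set.Iio 1))
    simpa [hmt, hb] using this
  have ev : ∀ᶠ θ in 𝓝[<] (1:ℝ), 0 ≤ θ ∧ θ < 1 := by
    filter_upwards [Ioo_mem_nhdsLT (show (0:ℝ) < 1 by norm_num)] with θ hθ using ⟨hθ.1.le, hθ.2⟩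
  have lim1 : Tendsto (fun θ => GG c σ (mt θ)) (𝓝[<] 1) (𝓝 (GG c σ ν)) := by
    unfold GG
    apply Tendsto.add
    · apply Tendsto.const_mul
      apply tendsto_finsetSum
      intro i _
      exact ((Real.continuous_mul_log.tendsto _).comp (cm i)).sub (cm i)
    · apply Tendsto.const_mul
      apply tendsto_finsetSum
      intro s _
      apply mV_tendsto (M := fun θ => ex (mt θ)) (m := ex ν)
      · intro i; unfold ex; split_ifs
        · exact cm _
        · exact tendsto_const_nhds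
      · intro i; unfold ex; split_ifs
        · exact hν _
        · exact le_rfl
      · filter_upwards [ev] with θ hθ i
        unfold ex; split_ifs
        · exact (pos θ hθ.1 hθ.2 _).le
        · exact le_rfl
  have lim2 : Tendsto (fun θ : ℝ => GG c σ (fun i => Real.exp (l i)) + θ * (c * ∑ i, b i * l i
      + σ * XX b PH l)) (𝓝[<] 1) (𝓝 (GG c σ (fun i => Real.exp (l i)) + 1 * (c * ∑ i, b i * l i
      + σ * XX b PH l))) :=
    (tendsto_const_nhds.add (tendsto_id.mul_const _)).mono_left nhdsWithin_le_nhds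
  rw [one_mul] at lim2
  exact le_of_tendsto_of_tendsto lim2 lim1 (by
    filter_upwards [ev] with θ hθ using key θ hθ.1 hθ.2)

noncomputable def Gam (l : Fin n → ℝ) : Fin n → ℝ :=
  fun i => l i / 4 + XX (Pi.single i 1) PH l

lemma Gam_pair (b l : Fin n → ℝ) : ∑ i, b i * Gam l i = (∑ i, b i * l i) / 4 + XX b PH l := by
  rw [XX_lin PH b l, Finset.sum_div, ← Finset.sum_add_distrib]
  apply Finset.sum_congr rfl
  intro i _; unfold Gam; ring

lemma sm_Gam (i : Fin n) : Sm (fun l => Gam l i) :=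
  ((contDiff_apply ℝ ℝ i).div_const 4).add (sm_PH.XX _)

lemma Gam_contDiff : ContDiff ℝ ∞ (Gam : (Fin n → ℝ) → Fin n → ℝ) := contDiff_pi.2 sm_Gam

lemma Gam_fderiv (l u : Fin n → ℝ) (i : Fin n) :
    fderiv ℝ Gam l u i = u i / 4 + XX (wt l u) (XX (Pi.single i 1) PH) l := by
  have h1 : HasFDerivAt Gam (fderiv ℝ Gam l) l :=
    (Gam_contDiff.differentiable (by simp) l).hasFDerivAt
  have h2 : HasFDerivAt (fun l => Gam l i) ((ContinuousLinearMap.proj (R := ℝ) i).comp
      (fderiv ℝ Gam l)) l :=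
    (ContinuousLinearMap.proj (R := ℝ) (φ := fun _ : Fin n => ℝ) i).hasFDerivAt.comp l h1
  have h3 : fderiv ℝ Gam l u i = fderiv ℝ (fun l => Gam l i) l u := by rw [h2.fderiv]; simp
  rw [h3, fderiv_eq_XX]
  have e : (fun l : Fin n → ℝ => Gam l i) = fun l => (1 / 4) * l i + XX (Pi.single i 1) PH l := by
    funext l; unfold Gam; ring
  rw [e, XX_add (contDiff_const.mul (contDiff_apply ℝ ℝ i)) (sm_PH.XX _),
    XX_cmul (contDiff_apply ℝ ℝ i), XX_coord]
  simp only [Real.exp_neg]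
  have := (Real.exp_pos (l i)).ne'
  congr 1
  field_simp

lemma Gam_fderiv_pair (a l u : Fin n → ℝ) :
    ∑ i, a i * fderiv ℝ Gam l u i = (∑ i, a i * u i) / 4 + XX (wt l u) (XX a PH) l := by
  rw [XX_lin2 sm_PH a, Finset.sum_div, ← Finset.sum_add_distrib]
  apply Finset.sum_congr rfl
  intro i _; rw [Gam_fderiv]; ring

lemma apriori (l u : Fin n → ℝ) : A3 l u ≤ 200 * A3 l (fderiv ℝ Gam l u) := by
  set v := fderiv ℝ Gam l u
  have h := Gam_fderiv_pair (wt l (fun i => |u i| * u i)) l u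
  rw [XX_comm sm_PH] at h
  have h2 := PH_h23 l u (fun i => |u i|) u
  have e1 : A3 l (fun i => |u i|) = A3 l u := by simp [A3]
  have e2 : ∑ i, wt l (fun i => |u i| * u i) i * u i = A3 l u := by
    unfold A3 wt
    apply Finset.sum_congr rfl
    intro i _
    rw [mul_assoc, mul_assoc, ← abs_mul_abs_self (u i)]; ring
  have h3 : ∑ i, wt l (fun i => |u i| * u i) i * v i ≤ 1 / 12 * A3 l u + 22 * A3 l v := by
    unfold A3 wt
    rw [Finset.mul_sum, Finset.mul_sum, ← Finset.sum_add_distrib]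
    apply Finset.sum_le_sum
    intro i _
    have a1 := amgm3 (x := |u i| / 2) (y := |u i| / 2) (z := 4 * |v i|) (by positivity)
      (by positivity) (by positivity)
    have a2 : |u i| * u i * v i ≤ |u i| * |u i| * |v i| := by
      rw [mul_assoc, mul_assoc, ← abs_mul]
      exact mul_le_mul_of_nonneg_left (le_abs_self _) (abs_nonneg _)
    have a3 : |u i| * u i * v i ≤ 1 / 12 * |u i| ^ 3 + 22 * |v i| ^ 3 := by
      have : 0 ≤ |v i| ^ 3 := by positivity
      nlinarith
    have := mul_le_mul_of_nonneg_left a3 (Real.exp_pos (l i)).le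
    nlinarith
  rw [e1] at h2
  rw [e2] at h
  have h4 := neg_abs_le (XX (wt l fun i => |u i| * u i) (XX (wt l u) PH) l)
  have := A3_nonneg l u
  have := A3_nonneg l v
  linarith

lemma Gam_fderiv_inj (l : Fin n → ℝ) : Function.Injective (fderiv ℝ Gam l) := by
  rw [injective_iff_map_eq_zero]
  intro u hu
  have h := apriori l u
  rw [hu] at h
  have e : A3 l 0 = 0 := by simp [A3]
  rw [e, mul_zero] at h
  have h0 : A3 l u = 0 := le_antisymm h (A3_nonneg l u)
  unfold A3 at h0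
  rw [Finset.sum_eq_zero_iff_of_nonneg (fun i _ => by positivity)] at h0
  funext i
  have := h0 i (Finset.mem_univ i)
  simpa [(Real.exp_pos _).ne'] using this

noncomputable def GamE (l : Fin n → ℝ) : (Fin n → ℝ) ≃L[ℝ] (Fin n → ℝ) :=
  (LinearEquiv.ofInjectiveEndo (fderiv ℝ Gam l : (Fin n → ℝ) →ₗ[ℝ] (Fin n → ℝ))
    (Gam_fderiv_inj l)).toContinuousLinearEquiv

lemma GamE_coe (l : Fin n → ℝ) :
    (GamE l : (Fin n → ℝ) →L[ℝ] (Fin n → ℝ)) = fderiv ℝ Gam l := by
  ext u i; simp [GamE]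

lemma Gam_strict (l : Fin n → ℝ) :
    HasStrictFDerivAt Gam (GamE l : (Fin n → ℝ) →L[ℝ] (Fin n → ℝ)) l := by
  rw [GamE_coe]
  exact Gam_contDiff.contDiffAt.hasStrictFDerivAt (by simp)

lemma Gam_open : IsOpenMap (Gam : (Fin n → ℝ) → Fin n → ℝ) :=
  isOpenMap_of_hasStrictFDerivAt_equiv Gam_strict

lemma Gam_inj : Function.Injective (Gam : (Fin n → ℝ) → Fin n → ℝ) := by
  intro l l' h
  have h1 := conv_ineq (c := 1 / 8) (σ := 1) (by norm_num) (by simp) l (fun i => Real.exp (l' i))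
    (fun i => (Real.exp_pos _).le)
  have h2 := conv_ineq (c := 1 / 8) (σ := 1) (by norm_num) (by simp) l' (fun i => Real.exp (l i))
    (fun i => (Real.exp_pos _).le)
  have g1 := Gam_pair (fun i => Real.exp (l' i) - Real.exp (l i)) l
  have g2 := Gam_pair (fun i => Real.exp (l i) - Real.exp (l' i)) l'
  rw [← h] at g2
  have e1 : ∑ i, (Real.exp (l i) - Real.exp (l' i)) * Gam l i
      = -∑ i, (Real.exp (l' i) - Real.exp (l i)) * Gam l i := by
    rw [← Finset.sum_neg_distrib]; apply Finset.sum_congr rfl; intro i _; ring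
  have e2 : ∑ i, (Real.exp (l' i) - Real.exp (l i)) * (l' i - l i)
      = -(∑ i, (Real.exp (l' i) - Real.exp (l i)) * l i)
        - ∑ i, (Real.exp (l i) - Real.exp (l' i)) * l' i := by
    rw [← Finset.sum_neg_distrib, ← Finset.sum_sub_distrib]
    apply Finset.sum_congr rfl; intro i _; ring
  have nn : ∀ i ∈ (univ : Finset (Fin n)), 0 ≤ (Real.exp (l' i) - Real.exp (l i)) * (l' i - l i) := by
    intro i _
    rcases le_total (l i) (l' i) with h | h
    · exact mul_nonneg (sub_nonneg.2 (Real.exp_le_exp.2 h)) (sub_nonneg.2 h)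
    · exact mul_nonneg_of_nonpos_of_nonpos (sub_nonpos.2 (Real.exp_le_exp.2 h)) (sub_nonpos.2 h)
  have h3 : ∑ i, (Real.exp (l' i) - Real.exp (l i)) * (l' i - l i) = 0 :=
    le_antisymm (by linarith) (Finset.sum_nonneg nn)
  rw [Finset.sum_eq_zero_iff_of_nonneg nn] at h3
  funext i
  rcases mul_eq_zero.1 (h3 i (Finset.mem_univ i)) with h4 | h4
  · exact (Real.exp_injective (sub_eq_zero.1 h4)).symm
  · exact (sub_eq_zero.1 h4).symm

lemma Gam_surj : Function.Surjective (Gam : (Fin n → ℝ) → Fin n → ℝ) := by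
  have hc : Continuous (Gam : (Fin n → ℝ) → Fin n → ℝ) := Gam_contDiff.continuous
  have hb : ∀ l : Fin n → ℝ, ‖l‖ / 4 - n * (2 * n) ≤ ‖Gam l‖ := by
    intro l
    have : ‖l‖ ≤ 4 * (‖Gam l‖ + n * (2 * n)) := by
      rw [pi_norm_le_iff_of_nonneg (by positivity)]
      intro i
      have h1 := norm_le_pi_norm (Gam l) i
      have h2 := PH_bdd l i
      rw [Real.norm_eq_abs] at h1 ⊢
      have e : l i = 4 * (Gam l i - XX (Pi.single i 1) PH l) := by unfold Gam; ring
      rw [e, abs_mul]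
      have := abs_sub (Gam l i) (XX (Pi.single i 1) PH l)
      simp only [Nat.abs_ofNat]
      linarith
    linarith
  have hp : IsProperMap (Gam : (Fin n → ℝ) → Fin n → ℝ) := by
    rw [isProperMap_iff_tendsto_cocompact]
    refine ⟨hc, ?_⟩
    rw [← Metric.cobounded_eq_cocompact, ← tendsto_norm_atTop_iff_cobounded]
    apply tendsto_atTop_mono hb
    apply tendsto_atTop_add_const_right
    exact Tendsto.atTop_div_const (by norm_num) tendsto_norm_cobounded_atTop
  have hcl : IsClopen (Set.range (Gam : (Fin n → ℝ) → Fin n → ℝ)) :=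
    ⟨hp.isClosedMap.isClosed_range, Gam_open.isOpen_range⟩
  rw [← Set.range_eq_univ]
  exact hcl.eq_univ (Set.range_nonempty _)

noncomputable def GamH : (Fin n → ℝ) ≃ₜ (Fin n → ℝ) :=
  (Equiv.ofBijective Gam ⟨Gam_inj, Gam_surj⟩).toHomeomorphOfContinuousOpen
    Gam_contDiff.continuous Gam_open

noncomputable def LL : (Fin n → ℝ) → (Fin n → ℝ) := GamH.symm

lemma Gam_LL (w : Fin n → ℝ) : Gam (LL w) = w := GamH.apply_symm_apply w

lemma LL_contDiff : ContDiff ℝ ∞ (LL : (Fin n → ℝ) → (Fin n → ℝ)) :=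
  Homeomorph.contDiff_symm GamH (f₀' := GamE) (fun l => (Gam_strict l).hasFDerivAt) Gam_contDiff

lemma euler2 (c l : Fin n → ℝ) : XX c (XX (fun i => Real.exp (l i)) PH) l = 0 := by
  have h1 : (fun l : Fin n → ℝ => ∑ i, Real.exp (l i) * XX (Pi.single i 1) PH l) = PH := by
    funext l; rw [← XX_lin PH (fun i => Real.exp (l i)) l, PH_euler]
  have se : ∀ i : Fin n, Sm (fun l : Fin n → ℝ => Real.exp (l i)) := fun i =>
    Real.contDiff_exp.comp (contDiff_apply ℝ ℝ i)
  have h2 := congrFun (congrArg (XX c) h1) l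
  rw [XX_sum (fun i _ => (se i).mul (sm_PH.XX _))] at h2
  simp only [XX_mul (se _) (sm_PH.XX _), XX_expcoord] at h2
  rw [Finset.sum_add_distrib, ← XX_lin PH c l, ← XX_lin2 sm_PH] at h2
  linarith

end Pool.Agent.H853Z.Tsm
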