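import Pool.Agent.H853Z.Tsm.Del

set_option autoImplicit false

/-! One-sided maximal function for weighted finite sequences. -/

namespace Pool.Agent.H853Z.Tsm

open Finset Filter Topology MeasureTheory

noncomputable def Mx (m a : ℕ → ℝ) (s : ℕ) : ℝ :=
  (range (s + 1)).sup' (by simp) (fun t => (∑ i ∈ Icc t s, m i * a i) / Dm m t s)

noncomputable def Fs (h : ℕ → ℝ) : ℕ → ℝ
  | 0 => 0
  | s + 1 => max 0 (h s + Fs h s)

lemma Fs_nonneg (h : ℕ → ℝ) (s : ℕ) : 0 ≤ Fs h s := by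
  cases s with
  | zero => simp [Fs]
  | succ s => exact le_max_left _ _

lemma Fs_ge (h : ℕ → ℝ) (s : ℕ) : ∀ t, t ≤ s → ∑ i ∈ Icc t s, h i ≤ Fs h (s + 1) := by
  induction s with
  | zero =>
    intro t ht
    obtain rfl : t = 0 := by omega
    simp [Fs]
  | succ s ih =>
    intro t ht
    have e : Fs h (s + 1 + 1) = max 0 (h (s + 1) + Fs h (s + 1)) := rfl
    rw [e]
    refine le_trans ?_ (le_max_right _ _)
    rcases ht.eq_or_lt with rfl | h1
    · simp [Fs_nonneg]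
    · rw [Finset.sum_Icc_succ_top ht]
      have := ih t (by omega)
      linarith

lemma Fs_attain (h : ℕ → ℝ) (s : ℕ) :
    0 < Fs h (s + 1) → ∃ t, t ≤ s ∧ Fs h (s + 1) = ∑ i ∈ Icc t s, h i := by
  induction s with
  | zero =>
    intro hp
    refine ⟨0, le_rfl, ?_⟩
    simp only [Fs, add_zero] at hp ⊢
    rcases le_total 0 (h 0) with h1 | h1
    · simp [h1]
    · simp [h1] at hp
  | succ s ih =>
    intro hp
    have e : Fs h (s + 1 + 1) = max 0 (h (s + 1) + Fs h (s + 1)) := rfl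
    have e2 : Fs h (s + 1 + 1) = h (s + 1) + Fs h (s + 1) := by
      rw [e] at hp ⊢
      exact max_eq_right (by rcases lt_max_iff.1 hp with h1 | h1 <;> linarith)
    rcases (Fs_nonneg h (s + 1)).eq_or_lt with h0 | h0
    · exact ⟨s + 1, le_rfl, by rw [e2, ← h0]; simp⟩
    · obtain ⟨t, ht, e3⟩ := ih h0
      refine ⟨t, by omega, ?_⟩
      rw [e2, e3, Finset.sum_Icc_succ_top (by omega)]; ring

lemma Fs_sum (h : ℕ → ℝ) (n : ℕ) :
    Fs h n ≤ ∑ s ∈ range n, if 0 < Fs h (s + 1) then h s else 0 := by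
  induction n with
  | zero => simp [Fs]
  | succ n ih =>
    rw [Finset.sum_range_succ]
    split_ifs with hp
    · have e : Fs h (n + 1) = max 0 (h n + Fs h n) := rfl
      have e2 : Fs h (n + 1) = h n + Fs h n := by
        rw [e] at hp ⊢
        exact max_eq_right (by rcases lt_max_iff.1 hp with h1 | h1 <;> linarith)
      linarith
    · have := Fs_nonneg h n
      linarith

lemma Mx_ge (m a : ℕ → ℝ) {t s : ℕ} (h : t ≤ s) :
    (∑ i ∈ Icc t s, m i * a i) / Dm m t s ≤ Mx m a s :=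
  Finset.le_sup' (fun t => (∑ i ∈ Icc t s, m i * a i) / Dm m t s)
    (Finset.mem_range.2 (Nat.lt_succ_of_le h))

lemma Mx_nonneg {m a : ℕ → ℝ} (hm : ∀ i, 0 ≤ m i) (ha : ∀ i, 0 ≤ a i) (s : ℕ) : 0 ≤ Mx m a s :=
  le_trans (div_nonneg (Finset.sum_nonneg (fun i _ => mul_nonneg (hm i) (ha i)))
    (Dm_nonneg hm s s)) (Mx_ge m a le_rfl)

lemma weak_max {m a : ℕ → ℝ} {n : ℕ} (hm : ∀ i, 0 ≤ m i) (hp : ∀ i, i < n → 0 < m i) (lam : ℝ) :
    0 ≤ ∑ s ∈ range n, if lam < Mx m a s then m s * (a s - lam) else 0 := by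
  have key := (Fs_nonneg _ n).trans (Fs_sum (fun s => m s * (a s - lam)) n)
  refine key.trans (le_of_eq ?_)
  apply Finset.sum_congr rfl
  intro s hs
  have hs' := hp s (Finset.mem_range.1 hs)
  have e : ∀ t, ∑ i ∈ Icc t s, m i * (a i - lam) = ∑ i ∈ Icc t s, m i * a i - lam * Dm m t s := by
    intro t
    unfold Dm
    rw [Finset.mul_sum, ← Finset.sum_sub_distrib]
    apply Finset.sum_congr rfl; intro i _; ring
  have : (0 < Fs (fun s => m s * (a s - lam)) (s + 1)) ↔ lam < Mx m a s := by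
    constructor
    · intro h
      obtain ⟨t, ht, e2⟩ := Fs_attain _ s h
      rw [e2, e] at h
      refine lt_of_lt_of_le ?_ (Mx_ge m a ht)
      rw [lt_div_iff₀ (Dm_pos hm hs' ht)]; linarith
    · intro h
      unfold Mx at h
      rw [Finset.lt_sup'_iff] at h
      obtain ⟨t, ht, h2⟩ := h
      have ht' : t ≤ s := Nat.lt_succ_iff.1 (Finset.mem_range.1 ht)
      rw [lt_div_iff₀ (Dm_pos hm hs' ht')] at h2
      have := Fs_ge (fun s => m s * (a s - lam)) s t ht'
      rw [e] at this; linarith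
  simp only [this]

lemma layer_int {g c a r : ℝ} (hg : 0 ≤ g) (hr : 1 < r) :
    IntegrableOn (fun x : ℝ => (if x < g then c * (a - x) else 0) * x ^ (r - 2)) (Set.Ioi 0) ∧
    ∫ x in Set.Ioi (0:ℝ), (if x < g then c * (a - x) else 0) * x ^ (r - 2)
      = c * (a * g ^ (r - 1) / (r - 1) - g ^ r / r) := by
  have e : (fun x : ℝ => (if x < g then c * (a - x) else 0) * x ^ (r - 2))
      = (Set.Iio g).indicator (fun x => c * (a - x) * x ^ (r - 2)) := by
    funext x
    by_cases h : x < g <;> simp [Set.indicator, h]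
  have i1 : IntervalIntegrable (fun x : ℝ => x ^ (r - 2)) volume 0 g :=
    intervalIntegral.intervalIntegrable_rpow' (by linarith)
  have i2 : IntervalIntegrable (fun x : ℝ => x ^ (r - 1)) volume 0 g :=
    intervalIntegral.intervalIntegrable_rpow' (by linarith)
  have eq : Set.EqOn (fun x : ℝ => c * (a - x) * x ^ (r - 2))
      (fun x => c * a * x ^ (r - 2) - c * x ^ (r - 1)) (Set.Ioo 0 g) := by
    intro x hx
    have : x ^ (r - 1) = x * x ^ (r - 2) := by
      rw [show r - 1 = 1 + (r - 2) by ring, Real.rpow_add hx.1, Real.rpow_one]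
    simp only [this]; ring
  have i3 : IntervalIntegrable (fun x : ℝ => c * a * x ^ (r - 2) - c * x ^ (r - 1)) volume 0 g :=
    (i1.const_mul _).sub (i2.const_mul _)
  have i4 : IntegrableOn (fun x : ℝ => c * (a - x) * x ^ (r - 2)) (Set.Ioo 0 g) := by
    rw [intervalIntegrable_iff_integrableOn_Ioo_of_le hg] at i3
    exact i3.congr_fun eq.symm measurableSet_Ioo
  have es : Set.Iio g ∩ Set.Ioi 0 = Set.Ioo 0 g := by ext x; simp [and_comm]
  rw [e]
  constructor
  · rw [IntegrableOn, integrable_indicator_iff measurableSet_Iio, IntegrableOn,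
      Measure.restrict_restrict measurableSet_Iio, es]
    exact i4
  · rw [integral_indicator measurableSet_Iio, Measure.restrict_restrict measurableSet_Iio, es,
      setIntegral_congr_fun measurableSet_Ioo eq, ← integral_Ioc_eq_integral_Ioo,
      ← intervalIntegral.integral_of_le hg,
      intervalIntegral.integral_sub (i1.const_mul _) (i2.const_mul _),
      intervalIntegral.integral_const_mul, intervalIntegral.integral_const_mul,
      integral_rpow (Or.inl (by linarith)), integral_rpow (Or.inl (by linarith))]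
    rw [show r - 2 + 1 = r - 1 by ring, show r - 1 + 1 = r by ring,
      Real.zero_rpow (by linarith), Real.zero_rpow (by linarith)]
    ring

lemma strong_max {m a : ℕ → ℝ} {n : ℕ} (hm : ∀ i, 0 ≤ m i) (hp : ∀ i, i < n → 0 < m i)
    (ha : ∀ i, 0 ≤ a i) {r : ℝ} (hr : 1 < r) :
    0 ≤ ∑ s ∈ range n, m s * (a s * Mx m a s ^ (r - 1) / (r - 1) - Mx m a s ^ r / r) := by
  have h1 : ∀ s ∈ range n, _ := fun s _ =>
    layer_int (c := m s) (a := a s) (Mx_nonneg hm ha s) hr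
  rw [← Finset.sum_congr rfl (fun s hs => (h1 s hs).2),
    ← integral_finsetSum _ (fun s hs => (h1 s hs).1)]
  apply setIntegral_nonneg measurableSet_Ioi
  intro x hx
  rw [← Finset.sum_mul]
  exact mul_nonneg (weak_max hm hp x) (Real.rpow_nonneg (le_of_lt hx) _)

lemma max_two {m a : ℕ → ℝ} {n : ℕ} (hm : ∀ i, 0 ≤ m i) (hp : ∀ i, i < n → 0 < m i)
    (ha : ∀ i, 0 ≤ a i) :
    ∑ s ∈ range n, m s * Mx m a s ^ 2 ≤ 4 * ∑ s ∈ range n, m s * a s ^ 2 := by
  have h := strong_max hm hp ha (r := 2) (by norm_num)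
  have h2 : ∑ s ∈ range n, m s * (a s * Mx m a s ^ ((2:ℝ) - 1) / (2 - 1) - Mx m a s ^ (2:ℝ) / 2)
      ≤ ∑ s ∈ range n, (m s * a s ^ 2 - m s * Mx m a s ^ 2 / 4) := by
    apply Finset.sum_le_sum
    intro s _
    rw [show (2:ℝ) - 1 = 1 by norm_num, Real.rpow_one, Real.rpow_two]
    nlinarith [mul_nonneg (hm s) (sq_nonneg (a s - Mx m a s / 2))]
  rw [Finset.sum_sub_distrib, ← Finset.sum_div] at h2
  linarith

lemma amgm3 {x y z : ℝ} (hx : 0 ≤ x) (hy : 0 ≤ y) (hz : 0 ≤ z) :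
    3 * (x * y * z) ≤ x ^ 3 + y ^ 3 + z ^ 3 := by
  nlinarith [mul_nonneg (add_nonneg (add_nonneg hx hy) hz)
    (add_nonneg (add_nonneg (sq_nonneg (x - y)) (sq_nonneg (y - z))) (sq_nonneg (x - z)))]

lemma max_three {m a : ℕ → ℝ} {n : ℕ} (hm : ∀ i, 0 ≤ m i) (hp : ∀ i, i < n → 0 < m i)
    (ha : ∀ i, 0 ≤ a i) :
    ∑ s ∈ range n, m s * Mx m a s ^ 3 ≤ 40 * ∑ s ∈ range n, m s * a s ^ 3 := by
  have h := strong_max hm hp ha (r := 3) (by norm_num)
  have h2 : ∑ s ∈ range n, m s * (a s * Mx m a s ^ ((3:ℝ) - 1) / (3 - 1) - Mx m a s ^ (3:ℝ) / 3)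
      ≤ ∑ s ∈ range n, (11 * (m s * a s ^ 3) - m s * Mx m a s ^ 3 * (7 / 24)) := by
    apply Finset.sum_le_sum
    intro s _
    rw [show (3:ℝ) - 1 = 2 by norm_num, Real.rpow_two, show (3:ℝ) = ((3:ℕ):ℝ) by norm_num,
      Real.rpow_natCast]
    have g0 := Mx_nonneg hm ha s
    have := amgm3 (x := 4 * a s) (y := Mx m a s / 2) (z := Mx m a s / 2) (by linarith [ha s])
      (by linarith) (by linarith)
    have h3 := mul_le_mul_of_nonneg_left this (hm s)
    have h4 : 0 ≤ m s * a s ^ 3 := mul_nonneg (hm s) (pow_nonneg (ha s) 3)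
    push_cast
    nlinarith
  rw [Finset.sum_sub_distrib, ← Finset.sum_mul, ← Finset.mul_sum] at h2
  have h5 : 0 ≤ ∑ s ∈ range n, m s * a s ^ 3 :=
    Finset.sum_nonneg (fun s _ => mul_nonneg (hm s) (pow_nonneg (ha s) 3))
  linarith

lemma max_prod {m a b : ℕ → ℝ} {n : ℕ} (hm : ∀ i, 0 ≤ m i) (hp : ∀ i, i < n → 0 < m i)
    (ha : ∀ i, 0 ≤ a i) (hb : ∀ i, 0 ≤ b i) :
    ∑ s ∈ range n, m s * Real.sqrt (Mx m (fun i => a i * b i) s) ^ 3
      ≤ 10 * (∑ s ∈ range n, m s * a s ^ 3 + ∑ s ∈ range n, m s * b s ^ 3) := by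
  have hab : ∀ i, 0 ≤ a i * b i := fun i => mul_nonneg (ha i) (hb i)
  have h := strong_max hm hp hab (r := 3 / 2) (by norm_num)
  have h2 : ∑ s ∈ range n, m s * (a s * b s * Mx m (fun i => a i * b i) s ^ ((3 / 2:ℝ) - 1)
        / (3 / 2 - 1) - Mx m (fun i => a i * b i) s ^ (3 / 2:ℝ) / (3 / 2))
      ≤ ∑ s ∈ range n, ((16 / 3) * (m s * a s ^ 3 + m s * b s ^ 3)
        - m s * Real.sqrt (Mx m (fun i => a i * b i) s) ^ 3 * (7 / 12)) := by
    apply Finset.sum_le_sum
    intro s _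
    have g0 := Mx_nonneg hm hab s
    set g := Mx m (fun i => a i * b i) s
    have e1 : g ^ ((3 / 2:ℝ) - 1) = Real.sqrt g := by
      rw [Real.sqrt_eq_rpow]; norm_num
    have e2 : g ^ (3 / 2:ℝ) = Real.sqrt g ^ 3 := by
      rw [Real.sqrt_eq_rpow, ← Real.rpow_natCast, ← Real.rpow_mul g0]; norm_num
    rw [e1, e2]
    have G0 := Real.sqrt_nonneg g
    set G := Real.sqrt g
    have := amgm3 (x := 2 * a s) (y := b s) (z := G / 2) (by linarith [ha s]) (hb s) (by linarith)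
    have h3 := mul_le_mul_of_nonneg_left this (hm s)
    have h4 : 0 ≤ m s * b s ^ 3 := mul_nonneg (hm s) (pow_nonneg (hb s) 3)
    have e3 : m s * (a s * b s * G / (3 / 2 - 1) - G ^ 3 / (3 / 2))
        = 2 * (m s * a s * b s * G) - (2 / 3) * (m s * G ^ 3) := by ring
    rw [e3]
    nlinarith
  rw [Finset.sum_sub_distrib, ← Finset.sum_mul, ← Finset.mul_sum, Finset.sum_add_distrib] at h2
  have h5 : 0 ≤ ∑ s ∈ range n, m s * a s ^ 3 :=
    Finset.sum_nonneg (fun s _ => mul_nonneg (hm s) (pow_nonneg (ha s) 3))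
  have h6 : 0 ≤ ∑ s ∈ range n, m s * b s ^ 3 :=
    Finset.sum_nonneg (fun s _ => mul_nonneg (hm s) (pow_nonneg (hb s) 3))
  linarith

end Pool.Agent.H853Z.Tsm
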