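import Pool.Agent.H853Z.Tsm.Norm
import Pool.Agent.H853Z.Tsm.Diff

set_option autoImplicit false

/-! The Banach space and the smoothness of its norm. -/

namespace Pool.Agent.H853Z.Tsm

open Finset Filter Topology

variable {n : ℕ}

lemma FF_tendsto (hn : 0 < n) (ξ : Fin n → ℝ) :
    Tendsto (fun e => FF e ξ) (𝓝[>] 0) (𝓝 (NN (fs ξ) ^ 4)) := by
  have h1 : Tendsto (fun e : ℝ => NN (fs ξ) + e * NN (fs (fun _ : Fin n => (1:ℝ)))) (𝓝[>] 0)
      (𝓝 (NN (fs ξ))) := by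
    have : Tendsto (fun e : ℝ => NN (fs ξ) + e * NN (fs (fun _ : Fin n => (1:ℝ)))) (𝓝 0)
        (𝓝 (NN (fs ξ) + 0 * NN (fs (fun _ : Fin n => (1:ℝ))))) :=
      tendsto_const_nhds.add (tendsto_id.mul_const _)
    simpa using this.mono_left nhdsWithin_le_nhds
  have h2 : Tendsto (fun e : ℝ => NN (fs (fun i => yy e (ξ i)))) (𝓝[>] 0) (𝓝 (NN (fs ξ))) := by
    apply tendsto_of_tendsto_of_tendsto_of_le_of_le' tendsto_const_nhds h1
    · filter_upwards [self_mem_nhdsWithin] with e he using yy_lower he hn ξ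
    · filter_upwards [self_mem_nhdsWithin] with e he using yy_upper he hn ξ
  refine (h2.pow 4).congr' ?_
  filter_upwards [self_mem_nhdsWithin] with e he using (FF_eq he hn ξ).symm

lemma NN_step (x h : Fin n → ℝ) {a s : ℝ} (h0 : 0 ≤ a) (h1 : a ≤ s) :
    NN (fs (x + a • h)) ≤ NN (fs x) + s * NN (fs h) := by
  rw [fs_add, fs_smul]
  refine (NN_add _ _).trans ?_
  rw [NN_smul, abs_of_nonneg h0]
  have := NN_nonneg (fs h)
  gcongr

lemma lim_aux (R c : ℝ) : Tendsto (fun e : ℝ => R + e * c) (𝓝[>] 0) (𝓝 R) := by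
  have : Tendsto (fun e : ℝ => R + e * c) (𝓝 0) (𝓝 (R + 0 * c)) :=
    tendsto_const_nhds.add (tendsto_id.mul_const _)
  simpa using this.mono_left nhdsWithin_le_nhds

lemma D2_tendsto (hn : 0 < n) (x h k : Fin n → ℝ) :
    Tendsto (fun e => D2 (FF e) x h k) (𝓝[>] 0) (𝓝 (D2 (fun ξ => NN (fs ξ) ^ 4) x h k)) :=
  (((FF_tendsto hn _).sub (FF_tendsto hn _)).sub (FF_tendsto hn _)).add (FF_tendsto hn _)

lemma D3_fin (hn : 0 < n) (x h k l : Fin n → ℝ) {s t r : ℝ} (hs : 0 ≤ s) (ht : 0 ≤ t) (hr : 0 ≤ r) :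
    |D3 (fun ξ => NN (fs ξ) ^ 4) x (s • h) (t • k) (r • l)| ≤ s * t * r *
      (2000 * ((NN (fs h) ^ 3 + NN (fs k) ^ 3 + NN (fs l) ^ 3) *
        (NN (fs x) + s * NN (fs h) + t * NN (fs k) + r * NN (fs l)))) := by
  have l1 : Tendsto (fun e => |D3 (FF e) x (s • h) (t • k) (r • l)|) (𝓝[>] 0)
      (𝓝 |D3 (fun ξ => NN (fs ξ) ^ 4) x (s • h) (t • k) (r • l)|) :=
    ((D2_tendsto hn _ _ _).sub (D2_tendsto hn _ _ _)).abs
  have l2 := (((lim_aux (NN (fs x) + s * NN (fs h) + t * NN (fs k) + r * NN (fs l))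
    (NN (fs (fun _ : Fin n => (1:ℝ))))).const_mul
    (NN (fs h) ^ 3 + NN (fs k) ^ 3 + NN (fs l) ^ 3)).const_mul 2000).const_mul (s * t * r)
  refine le_of_tendsto_of_tendsto l1 l2 ?_
  filter_upwards [self_mem_nhdsWithin] with e he
  obtain ⟨a, b, c, a0, a1, b0, b1, c0, c1, e1⟩ := mvt3 (dF0 he h) (dF1 he h k) (dF2 he h k l) x
    hs ht hr
  rw [e1, abs_mul, abs_of_nonneg (show 0 ≤ s * t * r by positivity)]
  apply mul_le_mul_of_nonneg_left _ (by positivity)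
  set z := x + a • h + b • k + c • l
  refine (F3_bound he h k l z).trans ?_
  have z1 : NN (fs z) ≤ NN (fs x) + s * NN (fs h) + t * NN (fs k) + r * NN (fs l) := by
    have := NN_step (x + a • h + b • k) l c0 c1
    have := NN_step (x + a • h) k b0 b1
    have := NN_step x h a0 a1
    linarith
  have z2 := (yy_upper he hn z).trans (add_le_add_left z1 _)
  have q : ∀ g : Fin n → ℝ, BB e z g ≤ NN (fs g) ^ 3 * (NN (fs x) + s * NN (fs h) + t * NN (fs k)
      + r * NN (fs l) + e * NN (fs (fun _ : Fin n => (1:ℝ)))) := fun g =>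
    (BB_le he hn z g).trans (mul_le_mul_of_nonneg_left z2 (pow_nonneg (NN_nonneg _) 3))
  have := q h
  have := q k
  have := q l
  linarith

lemma D2_fin (hn : 0 < n) (x h k : Fin n → ℝ) {s t : ℝ} (hs : 0 ≤ s) (ht : 0 ≤ t) :
    |D2 (fun ξ => NN (fs ξ) ^ 4) x (s • h) (t • k)| ≤ s * t *
      (400 * ((NN (fs h) ^ 3 + NN (fs k) ^ 3) * (NN (fs x) + s * NN (fs h) + t * NN (fs k))
        + (NN (fs x) + s * NN (fs h) + t * NN (fs k)) ^ 4)) := by
  have l1 := (D2_tendsto hn x (s • h) (t • k)).abs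
  have l0 := lim_aux (NN (fs x) + s * NN (fs h) + t * NN (fs k)) (NN (fs (fun _ : Fin n => (1:ℝ))))
  have l2 := (((l0.const_mul (NN (fs h) ^ 3 + NN (fs k) ^ 3)).add (l0.pow 4)).const_mul
    400).const_mul (s * t)
  refine le_of_tendsto_of_tendsto l1 l2 ?_
  filter_upwards [self_mem_nhdsWithin] with e he
  obtain ⟨a, b, a0, a1, b0, b1, e1⟩ := mvt2 (dF0 he h) (dF1 he h k) x hs ht
  rw [e1, abs_mul, abs_of_nonneg (show 0 ≤ s * t by positivity)]
  apply mul_le_mul_of_nonneg_left _ (by positivity)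
  set z := x + a • h + b • k
  refine (F2_bound he h k z).trans ?_
  have z1 : NN (fs z) ≤ NN (fs x) + s * NN (fs h) + t * NN (fs k) := by
    have := NN_step (x + a • h) k b0 b1
    have := NN_step x h a0 a1
    linarith
  have z2 := (yy_upper he hn z).trans (add_le_add_left z1 _)
  have q : ∀ g : Fin n → ℝ, BB e z g ≤ NN (fs g) ^ 3 * (NN (fs x) + s * NN (fs h) + t * NN (fs k)
      + e * NN (fs (fun _ : Fin n => (1:ℝ)))) := fun g =>
    (BB_le he hn z g).trans (mul_le_mul_of_nonneg_left z2 (pow_nonneg (NN_nonneg _) 3))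
  have := q h
  have := q k
  have := pow_le_pow_left₀ (NN_nonneg _) z2 4
  rw [FF_eq he hn]
  linarith

lemma NN_neg (x : ℕ →₀ ℝ) : NN (-x) = NN x := by
  simpa using NN_smul (-1) x

def C00 : Type := ℕ →₀ ℝ

noncomputable instance : AddCommGroup C00 := inferInstanceAs (AddCommGroup (ℕ →₀ ℝ))
noncomputable instance : Module ℝ C00 := inferInstanceAs (Module ℝ (ℕ →₀ ℝ))

noncomputable def nnorm : AddGroupNorm C00 where
  toFun := NN
  map_zero' := NN_zero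
  add_le' := NN_add
  neg' := NN_neg
  eq_zero_of_map_eq_zero' := fun x hx => by
    apply Finsupp.ext
    intro i
    have := coord_le x i
    rw [show NN x = 0 from hx, mul_zero] at this
    exact abs_nonpos_iff.1 this

noncomputable instance : NormedAddCommGroup C00 := nnorm.toNormedAddCommGroup

noncomputable instance : NormedSpace ℝ C00 := ⟨fun c x => NN_smul_le c x⟩

lemma norm_C00 (x : ℕ →₀ ℝ) : ‖(show C00 from x)‖ = NN x := rfl

lemma D3_c00' (x h k l : ℕ →₀ ℝ) {s t r : ℝ} (hs : 0 ≤ s) (ht : 0 ≤ t) (hr : 0 ≤ r) :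
    |D3 (fun ξ => NN ξ ^ 4) x (s • h) (t • k) (r • l)| ≤ s * t * r *
      (2000 * ((NN h ^ 3 + NN k ^ 3 + NN l ^ 3) * (NN x + s * NN h + t * NN k + r * NN l))) := by
  obtain ⟨n, hn, hS⟩ := exists_range (x.support ∪ h.support ∪ k.support ∪ l.support)
  have := D3_fin hn (fun i : Fin n => x i) (fun i : Fin n => h i) (fun i : Fin n => k i)
    (fun i : Fin n => l i) hs ht hr
  simp only [D3, D2, fs_add, fs_smul] at this ⊢
  rwa [fs_eq (fun i hi => hS (by simp [hi])), fs_eq (fun i hi => hS (by simp [hi])),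
    fs_eq (fun i hi => hS (by simp [hi])), fs_eq (fun i hi => hS (by simp [hi]))] at this

lemma D2_c00' (x h k : ℕ →₀ ℝ) {s t : ℝ} (hs : 0 ≤ s) (ht : 0 ≤ t) :
    |D2 (fun ξ => NN ξ ^ 4) x (s • h) (t • k)| ≤ s * t *
      (400 * ((NN h ^ 3 + NN k ^ 3) * (NN x + s * NN h + t * NN k)
        + (NN x + s * NN h + t * NN k) ^ 4)) := by
  obtain ⟨n, hn, hS⟩ := exists_range (x.support ∪ h.support ∪ k.support)
  have := D2_fin hn (fun i : Fin n => x i) (fun i : Fin n => h i) (fun i : Fin n => k i) hs ht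
  simp only [D2, fs_add, fs_smul] at this ⊢
  rwa [fs_eq (fun i hi => hS (by simp [hi])), fs_eq (fun i hi => hS (by simp [hi])),
    fs_eq (fun i hi => hS (by simp [hi]))] at this

lemma polar (h : C00) : ∃ u : C00, ‖u‖ ≤ 1 ∧ h = ‖h‖ • u ∧ ‖h‖ * ‖u‖ = ‖h‖ := by
  by_cases h0 : h = 0
  · exact ⟨0, by simp, by simp [h0], by simp [h0]⟩
  have := norm_ne_zero_iff.2 h0
  have e : ‖‖h‖⁻¹ • h‖ = 1 := by rw [norm_smul, norm_inv, norm_norm, inv_mul_cancel₀ this]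
  exact ⟨‖h‖⁻¹ • h, e.le, by rw [smul_smul, mul_inv_cancel₀ this, one_smul], by rw [e, mul_one]⟩

noncomputable def Bf (r : ℝ) : ℝ := 400 * (2 * max 0 r + max 0 r ^ 4)

lemma Bf_nonneg (r : ℝ) : 0 ≤ Bf r := by
  unfold Bf; have := le_max_left 0 r; positivity

lemma Bf_mono : Monotone Bf := by
  intro a b h
  unfold Bf
  have := le_max_left 0 a
  have h2 : max 0 a ≤ max 0 b := max_le_max le_rfl h
  gcongr

lemma Bf_cont : Continuous Bf := by unfold Bf; fun_prop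

lemma D3_c00 (x h k l : C00) : |D3 (fun ξ : C00 => ‖ξ‖ ^ 4) x h k l|
    ≤ 6000 * (‖x‖ + ‖h‖ + ‖k‖ + ‖l‖) * ‖h‖ * ‖k‖ * ‖l‖ := by
  obtain ⟨u, u1, u2, u3⟩ := polar h
  obtain ⟨v, v1, v2, v3⟩ := polar k
  obtain ⟨w, w1, w2, w3⟩ := polar l
  have key : |D3 (fun ξ : C00 => ‖ξ‖ ^ 4) x (‖h‖ • u) (‖k‖ • v) (‖l‖ • w)| ≤ ‖h‖ * ‖k‖ * ‖l‖ *
      (2000 * ((‖u‖ ^ 3 + ‖v‖ ^ 3 + ‖w‖ ^ 3) * (‖x‖ + ‖h‖ * ‖u‖ + ‖k‖ * ‖v‖ + ‖l‖ * ‖w‖))) :=
    D3_c00' x u v w (norm_nonneg h) (norm_nonneg k) (norm_nonneg l)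
  rw [← u2, ← v2, ← w2, u3, v3, w3] at key
  refine key.trans ?_
  have a1 : ‖u‖ ^ 3 ≤ 1 := pow_le_one₀ (norm_nonneg _) u1
  have a2 : ‖v‖ ^ 3 ≤ 1 := pow_le_one₀ (norm_nonneg _) v1
  have a3 : ‖w‖ ^ 3 ≤ 1 := pow_le_one₀ (norm_nonneg _) w1
  calc _ ≤ ‖h‖ * ‖k‖ * ‖l‖ * (2000 * ((1 + 1 + 1) * (‖x‖ + ‖h‖ + ‖k‖ + ‖l‖))) := by gcongr
    _ = _ := by ring

lemma D2_c00 (x h k : C00) : |D2 (fun ξ : C00 => ‖ξ‖ ^ 4) x h k|
    ≤ Bf (‖x‖ + ‖h‖ + ‖k‖) * ‖h‖ * ‖k‖ := by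
  obtain ⟨u, u1, u2, u3⟩ := polar h
  obtain ⟨v, v1, v2, v3⟩ := polar k
  have key : |D2 (fun ξ : C00 => ‖ξ‖ ^ 4) x (‖h‖ • u) (‖k‖ • v)| ≤ ‖h‖ * ‖k‖ *
      (400 * ((‖u‖ ^ 3 + ‖v‖ ^ 3) * (‖x‖ + ‖h‖ * ‖u‖ + ‖k‖ * ‖v‖)
        + (‖x‖ + ‖h‖ * ‖u‖ + ‖k‖ * ‖v‖) ^ 4)) :=
    D2_c00' x u v (norm_nonneg h) (norm_nonneg k)
  rw [← u2, ← v2, u3, v3] at key
  refine key.trans ?_
  have a1 : ‖u‖ ^ 3 ≤ 1 := pow_le_one₀ (norm_nonneg _) u1
  have a2 : ‖v‖ ^ 3 ≤ 1 := pow_le_one₀ (norm_nonneg _) v1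
  unfold Bf
  rw [max_eq_right (by positivity)]
  calc _ ≤ ‖h‖ * ‖k‖ * (400 * ((1 + 1) * (‖x‖ + ‖h‖ + ‖k‖) + (‖x‖ + ‖h‖ + ‖k‖) ^ 4)) := by gcongr
    _ = _ := by ring

abbrev XT : Type := UniformSpace.Completion C00

open UniformSpace

lemma D2_XT (x h k : XT) : |D2 (fun ξ : XT => ‖ξ‖ ^ 4) x h k|
    ≤ Bf (‖x‖ + ‖h‖ + ‖k‖) * ‖h‖ * ‖k‖ := by
  have hB := Bf_cont
  induction x, h, k using Completion.induction_on₃ with
  | hp => unfold D2; apply isClosed_le <;> fun_prop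
  | ih x h k =>
    have := D2_c00 x h k
    simp only [D2, ← Completion.coe_add, Completion.norm_coe] at this ⊢
    exact this

lemma D3_XT (x h k l : XT) : |D3 (fun ξ : XT => ‖ξ‖ ^ 4) x h k l|
    ≤ 6000 * (‖x‖ + ‖h‖ + ‖k‖ + ‖l‖) * ‖h‖ * ‖k‖ * ‖l‖ := by
  induction l using Completion.induction_on with
  | hp => unfold D3 D2; apply isClosed_le <;> fun_prop
  | ih l =>
    induction x, h, k using Completion.induction_on₃ with
    | hp => unfold D3 D2; apply isClosed_le <;> fun_prop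
    | ih x h k =>
      have := D3_c00 x h k l
      simp only [D3, D2, ← Completion.coe_add, Completion.norm_coe] at this ⊢
      exact this

theorem XT_smooth : ContDiffOn ℝ 2 (fun x : XT => ‖x‖) {x | x ≠ 0} ∧
    UniformContinuousOn (iteratedFDeriv ℝ 2 (fun x : XT => ‖x‖)) {x | ‖x‖ = 1} :=
  norm_smooth Bf_mono Bf_nonneg (by norm_num) D2_XT D3_XT

/-- the unit vectors -/
noncomputable def ee (i : ℕ) : C00 := Finsupp.single i (1:ℝ)

lemma C00_span : Submodule.span ℝ (Set.range ee) = ⊤ :=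
  (Finsupp.basisSingleOne (R := ℝ) (ι := ℕ)).span_eq

lemma ee_indep : LinearIndependent ℝ ee :=
  (Finsupp.basisSingleOne (R := ℝ) (ι := ℕ)).linearIndependent

instance : TopologicalSpace.SeparableSpace C00 := by
  have h := (Set.countable_range ee).isSeparable.span (R := ℝ)
  rw [C00_span] at h
  exact TopologicalSpace.isSeparable_univ_iff.1 h

lemma XT_sep : TopologicalSpace.SeparableSpace XT := inferInstance

lemma XT_inf : ¬ FiniteDimensional ℝ XT := by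
  intro h
  have h1 := ee_indep.map' (Completion.toComplₗᵢ (𝕜 := ℝ) (E := C00)).toLinearMap
    (LinearMap.ker_eq_bot.2 (Completion.toComplₗᵢ (𝕜 := ℝ) (E := C00)).injective)
  exact Module.Finite.not_linearIndependent_of_infinite _ h1

noncomputable def coC (i : ℕ) : C00 →L[ℝ] ℝ :=
  LinearMap.mkContinuous (Finsupp.lapply i : (ℕ →₀ ℝ) →ₗ[ℝ] ℝ) (Real.exp 2) (fun x => coord_le x i)

noncomputable def coX (i : ℕ) : XT →L[ℝ] ℝ := (coC i).extend Completion.toComplL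

lemma coX_coe (i : ℕ) (x : C00) : coX i (x : XT) = (show ℕ →₀ ℝ from x) i :=
  ContinuousLinearMap.extend_eq (coC i) (e := Completion.toComplL) Completion.denseRange_coe
    (Completion.isUniformInducing_coe C00) x

/-- embedding of finitely supported sequences -/
noncomputable def em (x : ℕ →₀ ℝ) : XT := ((show C00 from x : C00) : XT)

lemma norm_em (x : ℕ →₀ ℝ) : ‖em x‖ = NN x := Completion.norm_coe _

lemma em_add (x y : ℕ →₀ ℝ) : em (x + y) = em x + em y := Completion.coe_add (α := C00) x y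

lemma em_zero : em 0 = 0 := Completion.coe_zero

lemma em_smul (c : ℝ) (x : ℕ →₀ ℝ) : em (c • x) = c • em x := Completion.coe_smul (X := C00) c x

lemma approx (ξ : XT) (A : ℕ) (h0 : ∀ i, i < A → coX i ξ = 0) {ε : ℝ} (hε : 0 < ε) :
    ∃ u : ℕ →₀ ℝ, (∀ i, i < A → u i = 0) ∧ ‖ξ - em u‖ ≤ ε := by
  set P : XT →L[ℝ] XT := ∑ i ∈ range A, (coX i).smulRight ((ee i : C00) : XT) with hP
  have hc : Continuous (fun z : XT => z - P z) := by fun_prop
  have hξ : ξ - P ξ = ξ := by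
    rw [hP, _root_.sum_apply, Finset.sum_eq_zero, sub_zero]
    intro i hi; simp [h0 i (Finset.mem_range.1 hi)]
  have ho : IsOpen {z : XT | ‖ξ - (z - P z)‖ < ε} := isOpen_lt (by fun_prop) continuous_const
  obtain ⟨x, hx⟩ := Completion.denseRange_coe.exists_mem_open ho ⟨ξ, by simpa [hξ] using hε⟩
  let x' : ℕ →₀ ℝ := x
  refine ⟨x' - ∑ i ∈ range A, Finsupp.single i (x' i), ?_, ?_⟩
  · intro i hi
    simp [Finsupp.single_apply, hi]
  · refine le_of_eq_of_le ?_ (le_of_lt hx)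
    congr 2
    have e : ∀ S : Finset ℕ, em (x' - ∑ i ∈ S, Finsupp.single i (x' i))
        = (x : XT) - ∑ i ∈ S, (x' i) • ((ee i : C00) : XT) := by
      intro S
      induction S using Finset.induction_on with
      | empty => simp [em]; rfl
      | insert a S ha ih =>
        rw [Finset.sum_insert ha, Finset.sum_insert ha, add_comm, ← sub_sub, add_comm, ← sub_sub,
          ← ih, sub_eq_add_neg (x' - _), em_add, sub_eq_add_neg (em _)]
        congr 1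
        rw [← neg_smul]
        have : -Finsupp.single a (x' a) = (-x' a) • Finsupp.single a (1:ℝ) := by
          simp
        rw [this, em_smul]; rfl
    rw [e, hP, _root_.sum_apply]
    congr 1
    apply Finset.sum_congr rfl
    intro i _
    rw [ContinuousLinearMap.smulRight_apply, coX_coe]

end Pool.Agent.H853Z.Tsm
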