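import Pool.Agent.H853Z.Tsm.Blk
import Pool.Agent.H853Z.Tsm.Space

set_option autoImplicit false

/-! The space contains no isomorphic copy of `ℓ_q`. -/

namespace Pool.Agent.H853Z.Tsm

open Finset Filter Topology

variable {q : ENNReal}

lemma lp_disj (hq : 0 < q.toReal) (ζ ξ : lp (fun _ : ℕ => ℝ) q) (h : ∀ i, ζ i = 0 ∨ ξ i = 0) :
    ‖ζ + ξ‖ ^ q.toReal = ‖ζ‖ ^ q.toReal + ‖ξ‖ ^ q.toReal := by
  have h1 := lp.hasSum_norm hq (ζ + ξ)
  have h2 := (lp.hasSum_norm hq ζ).add (lp.hasSum_norm hq ξ)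
  refine h1.unique ?_
  have e : (fun i => ‖(ζ + ξ) i‖ ^ q.toReal) = fun i => ‖ζ i‖ ^ q.toReal + ‖ξ i‖ ^ q.toReal := by
    funext i
    rw [lp.coeFn_add, Pi.add_apply]
    rcases h i with h | h <;> simp [h, Real.zero_rpow hq.ne']
  rw [e]; exact h2

def Gen (T : lp (fun _ : ℕ => ℝ) q →ₗ[ℝ] XT) (P : ℕ → ℕ → (ℕ → ℝ) → Prop) : Prop :=
  ∀ (A j0 : ℕ) (ε : ℝ), 0 < ε → ∃ (ζ : lp (fun _ : ℕ => ℝ) q) (j1 : ℕ) (u : ℕ →₀ ℝ) (B : ℕ),
    j0 ≤ j1 ∧ (∀ i, i < j0 ∨ j1 ≤ i → ζ i = 0) ∧ ‖ζ‖ = 1 ∧ A ≤ B ∧ u.support ⊆ Ico A B ∧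
    ‖T ζ - em u‖ ≤ ε ∧ P A B u

lemma gen_base [Fact (1 ≤ q)] (T : lp (fun _ : ℕ => ℝ) q →ₗ[ℝ] XT) :
    Gen T (fun _ _ _ => True) := by
  intro A j0 ε hε
  let S : (Fin (A + 1) → ℝ) →ₗ[ℝ] lp (fun _ : ℕ => ℝ) q :=
    Fintype.linearCombination ℝ (fun j : Fin (A + 1) => lp.single q (j0 + j) (1:ℝ))
  let R : XT →ₗ[ℝ] (Fin A → ℝ) := LinearMap.pi (fun i : Fin A => (coX i : XT →ₗ[ℝ] ℝ))
  have hk : LinearMap.ker (R ∘ₗ T ∘ₗ S) ≠ ⊥ := LinearMap.ker_ne_bot_of_finrank_lt (by simp)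
  obtain ⟨c, hc, c0⟩ := (Submodule.ne_bot_iff _).1 hk
  have Sap : ∀ i, (S c) i = ∑ j : Fin (A + 1), if i = j0 + j then c j else 0 := by
    intro i
    simp only [S, Fintype.linearCombination_apply, lp.coeFn_sum, Finset.sum_apply, lp.coeFn_smul,
      Pi.smul_apply, lp.single_apply, Pi.single_apply, smul_eq_mul, mul_ite, mul_one, mul_zero]
  have S0 : S c ≠ 0 := by
    intro h
    apply c0
    funext j
    have := Sap (j0 + j)
    rw [h] at this
    simpa [Fin.val_inj] using this.symm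
  have n0 : ‖S c‖ ≠ 0 := norm_ne_zero_iff.2 S0
  obtain ⟨u, u0, u1⟩ := approx (T (‖S c‖⁻¹ • S c)) A (by
    intro i hi
    have := congrFun (LinearMap.mem_ker.1 hc) ⟨i, hi⟩
    simp only [LinearMap.comp_apply, R, LinearMap.pi_apply, ContinuousLinearMap.coe_coe,
      Pi.zero_apply] at this
    rw [map_smul, map_smul, this, smul_zero]) hε
  obtain ⟨B, _, hB⟩ := exists_range u.support
  refine ⟨‖S c‖⁻¹ • S c, j0 + A + 1, u, max A B, by omega, ?_, ?_, le_max_left _ _, ?_, u1, trivial⟩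
  · intro i hi
    rw [lp.coeFn_smul, Pi.smul_apply, Sap, Finset.sum_eq_zero, smul_zero]
    intro j _
    rw [if_neg]
    have := j.2
    omega
  · rw [norm_smul, norm_inv, norm_norm, inv_mul_cancel₀ n0]
  · intro i hi
    have h1 := Finset.mem_range.1 (hB hi)
    have h2 : ¬ i < A := fun h => (Finsupp.mem_support_iff.1 hi) (u0 i h)
    simp only [Finset.mem_Ico]; omega

lemma gen_blocks [Fact (1 ≤ q)] (hq : 0 < q.toReal) {T : lp (fun _ : ℕ => ℝ) q →ₗ[ℝ] XT}
    {P : ℕ → ℕ → (ℕ → ℝ) → Prop}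
    (hP : ∀ a b x y, (∀ i ∈ Ico a b, x i = y i) → P a b x → P a b y) (hG : Gen T P)
    (A j0 : ℕ) {ε : ℝ} (hε : 0 < ε) (k : ℕ) :
    ∃ (ζ : lp (fun _ : ℕ => ℝ) q) (j1 : ℕ) (u : ℕ →₀ ℝ) (c : ℕ → ℕ), c 0 = A ∧ Monotone c ∧
      j0 ≤ j1 ∧ (∀ i, i < j0 ∨ j1 ≤ i → ζ i = 0) ∧ ‖ζ‖ ^ q.toReal = k ∧
      u.support ⊆ Ico A (c k) ∧ ‖T ζ - em u‖ ≤ k * ε ∧ ∀ i, i < k → P (c i) (c (i + 1)) u := by
  induction k with
  | zero =>
    refine ⟨0, j0, 0, fun _ => A, rfl, monotone_const, le_rfl, fun i _ => rfl, ?_, by simp, ?_,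
      fun i hi => absurd hi (by omega)⟩
    · simp [Real.zero_rpow hq.ne']
    · simp [em_zero]
  | succ k ih =>
    obtain ⟨ζ, j1, u, c, c0, cm, j01, z0, z1, us, te, pb⟩ := ih
    obtain ⟨ξ, j2, v, B, j12, x0, x1, cB, vs, te', pv⟩ := hG (c k) j1 ε hε
    have cA : A ≤ c k := by rw [← c0]; exact cm (Nat.zero_le k)
    refine ⟨ζ + ξ, j2, u + v, fun i => if i ≤ k then c i else B, by simp [c0], ?_, by omega, ?_, ?_,
      ?_, ?_, ?_⟩
    · intro i j hij
      simp only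
      split_ifs with h1 h2 h2
      · exact cm hij
      · exact (cm h1).trans cB
      · omega
      · exact le_rfl
    · intro i hi
      rw [lp.coeFn_add, Pi.add_apply, z0 i (by omega), x0 i (by omega), add_zero]
    · rw [lp_disj hq ζ ξ (fun i => by
        by_cases h : i < j1
        · exact Or.inr (x0 i (Or.inl h))
        · exact Or.inl (z0 i (Or.inr (by omega)))), z1, x1]
      simp
    · intro i hi
      rcases Finset.mem_union.1 (Finsupp.support_add hi) with h | h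
      · have := Finset.mem_Ico.1 (us h); simp only [Finset.mem_Ico]; rw [if_neg (by omega)]; omega
      · have := Finset.mem_Ico.1 (vs h); simp only [Finset.mem_Ico]; rw [if_neg (by omega)]; omega
    · rw [map_add, em_add, add_sub_add_comm]
      refine (norm_add_le _ _).trans ?_
      push_cast; linarith
    · intro i hi
      simp only
      rcases Nat.lt_succ_iff_lt_or_eq.1 hi with h | rfl
      · rw [if_pos h.le, if_pos (show i + 1 ≤ k from h)]
        refine hP _ _ _ _ (fun s hs => ?_) (pb i h)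
        have h1 := Finset.mem_Ico.1 hs
        have h2 := cm (show i + 1 ≤ k from h)
        have : v s = 0 := by
          by_contra h3
          have := Finset.mem_Ico.1 (vs (Finsupp.mem_support_iff.2 h3)); omega
        simp [this]
      · rw [if_pos le_rfl, if_neg (by omega)]
        refine hP _ _ _ _ (fun s hs => ?_) pv
        have h1 := Finset.mem_Ico.1 hs
        have : u s = 0 := by
          by_contra h3
          have := Finset.mem_Ico.1 (us (Finsupp.mem_support_iff.2 h3)); omega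
        simp [this]

theorem no_lp (h1 : 1 < q) (h2 : q < ⊤) (T : lp (fun _ : ℕ => ℝ) q →ₗ[ℝ] XT) {a b : ℝ}
    (ha : 0 < a) (hb : 0 < b) (hT : ∀ x, a * ‖x‖ ≤ ‖T x‖ ∧ ‖T x‖ ≤ b * ‖x‖) : False := by
  have : Fact (1 ≤ q) := ⟨h1.le⟩
  have hr : 1 < q.toReal := by
    rw [← ENNReal.toReal_one]; exact ENNReal.toReal_strict_mono h2.ne h1
  have hr0 : 0 < q.toReal := by linarith
  have tri1 : ∀ ζ u, ‖T ζ‖ ≤ NN u + ‖T ζ - em u‖ := fun ζ u => by
    rw [← norm_em]; exact norm_le_norm_add_norm_sub' _ _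
  have tri2 : ∀ ζ u, NN u ≤ ‖T ζ‖ + ‖T ζ - em u‖ := fun ζ u => by
    rw [← norm_em]; exact norm_le_norm_add_norm_sub _ _
  by_cases hq4 : q.toReal ≤ 4
  · have ind : ∀ K : ℕ, Gen T (Bnd (Real.log (b + 1) + 1 - K / 2)) := by
      intro K
      induction K with
      | zero =>
        intro A j0 ε hε
        obtain ⟨ζ, j1, u, B, p1, p2, p3, p4, p5, p6, _⟩ := gen_base T A j0 (min ε 1) (by positivity)
        refine ⟨ζ, j1, u, B, p1, p2, p3, p4, p5, p6.trans (min_le_left _ _), ?_⟩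
        simp only [Nat.cast_zero, zero_div, sub_zero]
        apply Bnd_of_NN p5
        rw [Real.exp_log (by linarith)]
        have := (hT ζ).2
        rw [p3] at this
        linarith [tri2 ζ u, min_le_right ε 1]
      | succ K ih =>
        intro A j0 ε hε
        obtain ⟨n, hn, H⟩ := Bnd_step A
        have hn0 : (0:ℝ) < n := by exact_mod_cast hn
        have hn1 : (1:ℝ) ≤ n := by exact_mod_cast hn
        obtain ⟨ζ, j1, u, c, c0, cm, j01, z0, z1, us, te, pb⟩ := gen_blocks hr0 (P := Bnd _)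
          (fun _ _ _ _ h => Bnd_congr h) ih A j0 (ε := ε / n) (by positivity) n
        set κ : ℝ := (n:ℝ) ^ (-q.toReal⁻¹) with hκ
        have κ0 : 0 < κ := by positivity
        have κ1 : κ ≤ 1 := Real.rpow_le_one_of_one_le_of_nonpos hn1 (by simp)
        have nz : ‖ζ‖ = (n:ℝ) ^ q.toReal⁻¹ := by
          rw [← z1, Real.rpow_rpow_inv (norm_nonneg _) hr0.ne']
        refine ⟨κ • ζ, j1, κ • u, c n, j01, ?_, ?_, ?_, ?_, ?_, ?_⟩
        · intro i hi; rw [lp.coeFn_smul, Pi.smul_apply, z0 i hi, smul_zero]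
        · rw [norm_smul, nz, Real.norm_eq_abs, abs_of_pos κ0, hκ, ← Real.rpow_add hn0]; simp
        · rw [← c0]; exact cm (Nat.zero_le n)
        · exact Finsupp.support_smul.trans us
        · rw [map_smul, em_smul, ← smul_sub, norm_smul, Real.norm_eq_abs, abs_of_pos κ0]
          have : (n:ℝ) * (ε / n) = ε := by field_simp
          rw [this] at te
          nlinarith [norm_nonneg (T ζ - em u)]
        · have h3 := H c u _ κ c0 cm pb κ0 (by
            rw [hκ, Real.log_rpow hn0]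
            have h4 := Real.log_nonneg hn1
            have h5 : (1:ℝ) / 4 ≤ q.toReal⁻¹ := by
              rw [one_div]; exact inv_anti₀ hr0 hq4
            nlinarith)
          have e : Real.log (b + 1) + 1 - ((K + 1 : ℕ) : ℝ) / 2
              = Real.log (b + 1) + 1 - K / 2 - 1 / 2 := by push_cast; ring
          rw [e]; exact h3
    obtain ⟨K, hK⟩ := exists_nat_gt (2 * (Real.log (b + 1) + 1 - Real.log (a / 2)))
    obtain ⟨ζ, j1, u, B, p1, p2, p3, p4, p5, p6, p7⟩ := ind K 0 0 (a / 2) (by positivity)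
    have k1 := NN_of_Bnd p5 p7
    have k2 : Real.exp (Real.log (b + 1) + 1 - K / 2) < a / 2 := by
      rw [← Real.exp_log (show 0 < a / 2 by positivity), Real.exp_lt_exp]; linarith
    have := (hT ζ).1
    rw [p3] at this
    linarith [tri1 ζ u]
  · push Not at hq4
    have G : Gen T (Low (Real.log (a / 4))) := by
      intro A j0 ε hε
      obtain ⟨ζ, j1, u, B, p1, p2, p3, p4, p5, p6, _⟩ := gen_base T A j0 (min ε (a / 2))
        (by positivity)
      refine ⟨ζ, j1, u, B, p1, p2, p3, p4, p5, p6.trans (min_le_left _ _), ?_⟩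
      apply Low_of_NN p5
      rw [Real.exp_log (by positivity)]
      have := (hT ζ).1
      rw [p3] at this
      linarith [tri1 ζ u, min_le_right ε (a / 2)]
    have hd : 0 < 1 / 4 - q.toReal⁻¹ := by
      rw [one_div, sub_pos]; exact inv_strictAnti₀ (by norm_num) hq4
    have ev := (Real.tendsto_log_atTop.comp tendsto_natCast_atTop_atTop).eventually_gt_atTop
      ((Real.log (b + 1) + 7 - Real.log (a / 4)) / (1 / 4 - q.toReal⁻¹))
    obtain ⟨n, hn1, hn⟩ := (ev.and (eventually_gt_atTop 0)).exists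
    have hn0 : (0:ℝ) < n := by exact_mod_cast hn
    have hn2 : (1:ℝ) ≤ n := by exact_mod_cast hn
    obtain ⟨ζ, j1, u, c, c0, cm, j01, z0, z1, us, te, pb⟩ := gen_blocks hr0 (P := Low _)
      (fun _ _ _ _ h => Low_congr h) G n 0 (ε := 1 / n) (by positivity) n
    have k1 := Low_comb hn c0 cm (by rw [c0]; exact us) pb
    have nz : ‖ζ‖ = (n:ℝ) ^ q.toReal⁻¹ := by
      rw [← z1, Real.rpow_rpow_inv (norm_nonneg _) hr0.ne']
    have k2 : 1 ≤ (n:ℝ) ^ q.toReal⁻¹ := Real.one_le_rpow hn2 (by positivity)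
    have k3 := (hT ζ).2
    have k4 : (n:ℝ) * (1 / n) = 1 := by field_simp
    rw [k4] at te
    rw [nz] at k3
    have k5 : NN u ≤ (b + 1) * (n:ℝ) ^ q.toReal⁻¹ := by linarith [tri2 ζ u]
    have k6 : (b + 1) * (n:ℝ) ^ q.toReal⁻¹
        = Real.exp (Real.log (b + 1) + Real.log n * q.toReal⁻¹) := by
      rw [Real.exp_add, Real.exp_log (by linarith), Real.rpow_def_of_pos hn0]
    have k7 := Real.exp_le_exp.1 (k1.trans (k5.trans k6.le))
    simp only [Function.comp] at hn1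
    rw [div_lt_iff₀ hd] at hn1
    linarith

end Pool.Agent.H853Z.Tsm
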