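import Pool.Agent.H853Z.Tsm.Der

set_option autoImplicit false

/-! The norm on finitely supported sequences. -/

namespace Pool.Agent.H853Z.Tsm

open Finset Filter Topology

noncomputable def tm (x m : ℕ → ℝ) (a s : ℕ) : ℝ :=
  m s * (Real.log |x s| - Real.log (m s) / 4 - Vm m a s)

def Adm (x : ℕ →₀ ℝ) (μ : ℕ → ℝ) : Prop :=
  (∀ i, 0 ≤ μ i) ∧ (∀ i, x i = 0 → μ i = 0) ∧ ∑ i ∈ x.support, μ i = 1

noncomputable def EE (x : ℕ →₀ ℝ) (μ : ℕ → ℝ) : ℝ := ∑ s ∈ x.support, tm x μ 0 s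

noncomputable def NN (x : ℕ →₀ ℝ) : ℝ := sSup {r | ∃ μ, Adm x μ ∧ r = Real.exp (EE x μ)}

lemma sum_supp {x : ℕ →₀ ℝ} {S : Finset ℕ} (hS : x.support ⊆ S) {f : ℕ → ℝ}
    (hf : ∀ i, x i = 0 → f i = 0) : ∑ i ∈ x.support, f i = ∑ i ∈ S, f i :=
  Finset.sum_subset hS (fun i _ hi => hf i (by simpa using hi))

lemma EE_eq {x : ℕ →₀ ℝ} {S : Finset ℕ} (hS : x.support ⊆ S) {μ : ℕ → ℝ}
    (h : ∀ i, x i = 0 → μ i = 0) : EE x μ = ∑ s ∈ S, tm x μ 0 s :=
  sum_supp hS (fun i hi => by unfold tm; rw [h i hi, zero_mul])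

lemma EE_bdd {x : ℕ →₀ ℝ} {μ : ℕ → ℝ} (h : Adm x μ) : EE x μ ≤ ∑ s ∈ x.support, x s ^ 4 := by
  apply Finset.sum_le_sum
  intro s hs
  have hx : x s ≠ 0 := by simpa using hs
  rcases (h.1 s).eq_or_lt with h0 | h0
  · unfold tm; rw [← h0, zero_mul]; positivity
  · have hV := Vm_nonneg h.1 h0 0
    have h4 : 0 < x s ^ 4 := by positivity
    have h1 := Real.log_le_sub_one_of_pos (div_pos h4 h0)
    rw [Real.log_div h4.ne' h0.ne', Real.log_pow] at h1
    have h2 := mul_le_mul_of_nonneg_left h1 h0.le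
    have h3 : μ s * (x s ^ 4 / μ s - 1) = x s ^ 4 - μ s := by field_simp
    unfold tm
    rw [Real.log_abs]
    push_cast at h2
    nlinarith [mul_nonneg h0.le hV]

lemma NN_bdd (x : ℕ →₀ ℝ) : BddAbove {r | ∃ μ, Adm x μ ∧ r = Real.exp (EE x μ)} :=
  ⟨Real.exp (∑ s ∈ x.support, x s ^ 4), by
    rintro r ⟨μ, h, rfl⟩; exact Real.exp_le_exp.2 (EE_bdd h)⟩

lemma le_NN {x : ℕ →₀ ℝ} {μ : ℕ → ℝ} (h : Adm x μ) : Real.exp (EE x μ) ≤ NN x :=
  le_csSup (NN_bdd x) ⟨μ, h, rfl⟩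

lemma NN_nonneg (x : ℕ →₀ ℝ) : 0 ≤ NN x :=
  Real.sSup_nonneg (by rintro r ⟨μ, _, rfl⟩; exact (Real.exp_pos _).le)

lemma NN_le {x : ℕ →₀ ℝ} {r : ℝ} (hr : 0 ≤ r) (h : ∀ μ, Adm x μ → Real.exp (EE x μ) ≤ r) :
    NN x ≤ r := Real.sSup_le (by rintro _ ⟨μ, hμ, rfl⟩; exact h μ hμ) hr

lemma lt_NN {x : ℕ →₀ ℝ} {lam : ℝ} (h : Real.exp lam < NN x) : ∃ μ, Adm x μ ∧ lam ≤ EE x μ := by
  by_contra hc
  push Not at hc
  exact absurd (NN_le (Real.exp_pos lam).le (fun μ hμ => Real.exp_le_exp.2 (hc μ hμ).le))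
    (not_le.2 h)

lemma NN_mono {x y : ℕ →₀ ℝ} (h : ∀ i, |x i| ≤ |y i|) : NN x ≤ NN y := by
  apply NN_le (NN_nonneg y)
  intro μ hμ
  have h0 : ∀ i, y i = 0 → x i = 0 := fun i hi => by
    have := h i; rw [hi, abs_zero] at this; exact abs_nonpos_iff.1 this
  have hS : x.support ⊆ y.support := by
    intro i hi; simp only [Finsupp.mem_support_iff] at hi ⊢; exact fun h1 => hi (h0 i h1)
  have hy : Adm y μ := ⟨hμ.1, fun i hi => hμ.2.1 i (h0 i hi), by
    rw [← sum_supp hS hμ.2.1]; exact hμ.2.2⟩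
  refine le_trans (Real.exp_le_exp.2 ?_) (le_NN hy)
  rw [EE_eq hS hμ.2.1]
  apply Finset.sum_le_sum
  intro s _
  unfold tm
  by_cases hx : x s = 0
  · rw [hμ.2.1 s hx]; simp
  · have := Real.log_le_log (abs_pos.2 hx) (h s)
    exact mul_le_mul_of_nonneg_left (by linarith) (hμ.1 s)

lemma NN_zero : NN 0 = 0 := by
  apply le_antisymm _ (NN_nonneg 0)
  apply NN_le le_rfl
  intro μ hμ
  have := hμ.2.2
  simp at this

lemma NN_smul_le (c : ℝ) (x : ℕ →₀ ℝ) : NN (c • x) ≤ |c| * NN x := by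
  by_cases hc : c = 0
  · simp [hc, NN_zero]
  apply NN_le (mul_nonneg (abs_nonneg c) (NN_nonneg x))
  intro μ hμ
  have hs : (c • x).support = x.support := Finsupp.support_smul_eq hc
  have hx : Adm x μ := ⟨hμ.1, fun i hi => hμ.2.1 i (by simp [hi]), by rw [← hs]; exact hμ.2.2⟩
  have e : EE (c • x) μ = Real.log |c| + EE x μ := by
    unfold EE
    rw [hs, ← mul_one (Real.log |c|), ← hx.2.2, Finset.mul_sum, ← Finset.sum_add_distrib]
    apply Finset.sum_congr rfl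
    intro s hs'
    have : x s ≠ 0 := by simpa using hs'
    unfold tm
    simp only [Finsupp.coe_smul, Pi.smul_apply, smul_eq_mul]
    rw [abs_mul, Real.log_mul (abs_ne_zero.2 hc) (abs_ne_zero.2 this)]; ring
  rw [e, Real.exp_add, Real.exp_log (abs_pos.2 hc)]
  exact mul_le_mul_of_nonneg_left (le_NN hx) (abs_nonneg c)

lemma NN_smul (c : ℝ) (x : ℕ →₀ ℝ) : NN (c • x) = |c| * NN x := by
  apply le_antisymm (NN_smul_le c x)
  by_cases hc : c = 0
  · simp [hc, NN_zero]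
  have := NN_smul_le c⁻¹ (c • x)
  rw [smul_smul, inv_mul_cancel₀ hc, one_smul, abs_inv] at this
  have hp := abs_pos.2 hc
  calc |c| * NN x ≤ |c| * (|c|⁻¹ * NN (c • x)) := by gcongr
    _ = _ := by field_simp

lemma coord_le (x : ℕ →₀ ℝ) (i : ℕ) : |x i| ≤ Real.exp 2 * NN x := by
  by_cases hx : x i = 0
  · rw [hx, abs_zero]; exact mul_nonneg (Real.exp_pos _).le (NN_nonneg x)
  set μ : ℕ → ℝ := Pi.single i 1 with hμ
  have h0 : ∀ j, 0 ≤ μ j := by intro j; rw [hμ, Pi.single_apply]; split_ifs <;> simp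
  have hi : μ i = 1 := by simp [hμ]
  have hne : ∀ j, j ≠ i → μ j = 0 := fun j hj => by simp [hμ, hj]
  have his : i ∈ x.support := by simpa using hx
  have ha : Adm x μ := ⟨h0, fun j hj => hne j (by rintro rfl; exact hx hj), by
    rw [Finset.sum_eq_single_of_mem i his (fun j _ hj => hne j hj), hi]⟩
  have hE : EE x μ = Real.log |x i| - Vm μ 0 i := by
    unfold EE
    rw [Finset.sum_eq_single_of_mem i his (fun j _ hj => by unfold tm; rw [hne j hj, zero_mul])]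
    unfold tm; rw [hi]; simp
  have hp : 0 < μ i := by rw [hi]; norm_num
  have hV : Vm μ 0 i ≤ 2 := by
    have h1 := Vm_skip h0 hp le_rfl (fun j hj => hne j hj.ne)
    have h2 : Vm μ i i ≤ 1 := by simpa [Vm] using del_le_one h0 hp i
    linarith
  have h1 := le_NN ha
  have h2 : Real.exp (Real.log |x i| - 2) ≤ NN x :=
    le_trans (Real.exp_le_exp.2 (by linarith)) h1
  rw [Real.exp_sub, Real.exp_log (abs_pos.2 hx), div_le_iff₀ (Real.exp_pos _)] at h2
  linarith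

variable {n : ℕ}

noncomputable def fs (ξ : Fin n → ℝ) : ℕ →₀ ℝ :=
  Finsupp.onFinset (range n) (ex ξ) (fun i hi => by
    by_contra h; apply hi; unfold ex; rw [dif_neg (by simpa using h)])

lemma fs_apply (ξ : Fin n → ℝ) (i : ℕ) : fs ξ i = ex ξ i := rfl

lemma fs_fin (ξ : Fin n → ℝ) (i : Fin n) : fs ξ i = ξ i := ex_lt ξ i

lemma fs_supp (ξ : Fin n → ℝ) : (fs ξ).support ⊆ range n := Finsupp.support_onFinset_subset

lemma fs_eq {x : ℕ →₀ ℝ} (h : x.support ⊆ range n) : fs (fun i : Fin n => x i) = x := by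
  ext i
  rw [fs_apply]; unfold ex
  split_ifs with hi
  · rfl
  · by_contra h2
    exact hi (Finset.mem_range.1 (h (by simpa using Ne.symm h2)))

lemma fs_mono {ξ ζ : Fin n → ℝ} (h : ∀ i, |ξ i| ≤ |ζ i|) : NN (fs ξ) ≤ NN (fs ζ) := by
  apply NN_mono
  intro i; rw [fs_apply, fs_apply]; unfold ex; split_ifs
  · exact h _
  · exact le_rfl

lemma fs_add (ξ ζ : Fin n → ℝ) : fs (ξ + ζ) = fs ξ + fs ζ := by
  ext i; simp only [fs_apply, Finsupp.add_apply]; unfold ex; split_ifs <;> simp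

lemma fs_smul (c : ℝ) (ξ : Fin n → ℝ) : fs (c • ξ) = c • fs ξ := by
  ext i; simp only [fs_apply, Finsupp.smul_apply]; unfold ex; split_ifs <;> simp

lemma EE_fin (ξ ν : Fin n → ℝ) (h : ∀ i, ξ i = 0 → ν i = 0) : EE (fs ξ) (ex ν)
    = ∑ i, ν i * Real.log |ξ i| - (∑ i, ν i * Real.log (ν i)) / 4 - Psi (ex ν) n := by
  rw [EE_eq (fs_supp ξ) (fun i hi => by
    rw [fs_apply] at hi; unfold ex at hi ⊢; split_ifs at hi ⊢
    · exact h _ hi
    · rfl)]
  unfold Psi tm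
  rw [sum_ex, sum_ex, Finset.sum_div, ← Finset.sum_sub_distrib, ← Finset.sum_sub_distrib]
  apply Finset.sum_congr rfl
  intro i _
  rw [fs_fin, ex_lt]; ring

lemma Adm_fin {ξ ν : Fin n → ℝ} (h0 : ∀ i, 0 ≤ ν i) (h : ∀ i, ξ i = 0 → ν i = 0)
    (h1 : ∑ i, ν i = 1) : Adm (fs ξ) (ex ν) := by
  have h2 : ∀ i, fs ξ i = 0 → ex ν i = 0 := fun i hi => by
    rw [fs_apply] at hi; unfold ex at hi ⊢; split_ifs at hi ⊢
    · exact h _ hi
    · rfl
  refine ⟨fun i => ?_, h2, ?_⟩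
  · unfold ex; split_ifs
    · exact h0 _
    · exact le_rfl
  · rw [sum_supp (fs_supp ξ) h2, sum_ex, ← h1]; simp [ex_lt]

lemma Adm_elim {ξ : Fin n → ℝ} {μ : ℕ → ℝ} (h : Adm (fs ξ) μ) : ∃ ν : Fin n → ℝ, μ = ex ν ∧
    (∀ i, 0 ≤ ν i) ∧ (∀ i, ξ i = 0 → ν i = 0) ∧ ∑ i, ν i = 1 := by
  refine ⟨fun i => μ i, ?_, fun i => h.1 i, fun i hi => h.2.1 i (by rw [fs_fin, hi]), ?_⟩
  · funext i; unfold ex; split_ifs with hi
    · rfl
    · apply h.2.1; rw [fs_apply]; unfold ex; rw [dif_neg hi]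
  · rw [← h.2.2, sum_supp (fs_supp ξ) h.2.1, sum_ex]

noncomputable def tau (l : Fin n → ℝ) : ℝ := ∑ i, Real.exp (l i)

lemma tau_pos (hn : 0 < n) (l : Fin n → ℝ) : 0 < tau l :=
  Finset.sum_pos (fun i _ => Real.exp_pos _) ⟨⟨0, hn⟩, Finset.mem_univ _⟩

lemma conv2 (hn : 0 < n) {c σ : ℝ} (hc : 1 / 100 ≤ c) (hσ : |σ| ≤ 1) (l ν : Fin n → ℝ)
    (hν : ∀ i, 0 ≤ ν i) (h1 : ∑ i, ν i = 1) :
    c * ∑ i, ν i * l i + σ * (∑ i, ν i * Gam l i - (∑ i, ν i * l i) / 4)
      ≤ c * (∑ i, ν i * Real.log (ν i) + Real.log (tau l)) + σ * Psi (ex ν) n := by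
  have ht := tau_pos hn l
  have h := conv_ineq hc hσ l (fun i => tau l * ν i) (fun i => mul_nonneg ht.le (hν i))
  have g1 := Gam_pair (fun i => tau l * ν i - Real.exp (l i)) l
  have g2 := Gam_pair (fun i => Real.exp (l i)) l
  rw [PH_euler] at g2
  have e1 : ∀ f : Fin n → ℝ, ∑ i, (tau l * ν i - Real.exp (l i)) * f i
      = tau l * ∑ i, ν i * f i - ∑ i, Real.exp (l i) * f i := by
    intro f
    rw [Finset.mul_sum, ← Finset.sum_sub_distrib]
    apply Finset.sum_congr rfl; intro i _; ring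
  have e2 : ex (fun i => tau l * ν i) = fun i => tau l * ex ν i := by
    funext i; unfold ex; split_ifs <;> simp
  have e3 : ∑ i, (tau l * ν i * Real.log (tau l * ν i) - tau l * ν i)
      = tau l * (∑ i, ν i * Real.log (ν i) + Real.log (tau l) - 1) := by
    have : ∀ i, tau l * ν i * Real.log (tau l * ν i) - tau l * ν i
        = tau l * (ν i * Real.log (ν i) + ν i * Real.log (tau l) - ν i) := by
      intro i
      rcases (hν i).eq_or_lt with h0 | h0
      · rw [← h0]; simp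
      · rw [Real.log_mul ht.ne' h0.ne']; ring
    simp only [this]
    rw [← Finset.mul_sum, Finset.sum_sub_distrib, Finset.sum_add_distrib, ← Finset.sum_mul, h1,
      one_mul]
  unfold GG at h
  simp only [Real.log_exp] at h
  rw [e2, Psi_smul _ ht.ne', e3, Finset.sum_sub_distrib] at h
  rw [e1, e1] at g1
  rw [e1] at h
  have e4 : Psi (ex fun i => Real.exp (l i)) n = PH l := rfl
  have e5 : ∑ i, Real.exp (l i) = tau l := rfl
  rw [e4, e5] at h
  have e6 : XX (fun i => tau l * ν i - Real.exp (l i)) PH l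
      = tau l * (∑ i, ν i * Gam l i - (∑ i, ν i * l i) / 4) - PH l := by linarith
  rw [e6] at h
  have : tau l * (c * ∑ i, ν i * l i + σ * (∑ i, ν i * Gam l i - (∑ i, ν i * l i) / 4))
      ≤ tau l * (c * (∑ i, ν i * Real.log (ν i) + Real.log (tau l)) + σ * Psi (ex ν) n) := by
    linarith
  exact le_of_mul_le_mul_left this ht

lemma NN_upper (hn : 0 < n) (l : Fin n → ℝ) :
    NN (fs (fun i => Real.exp (Gam l i))) ≤ Real.exp (Real.log (tau l) / 4) := by
  apply NN_le (Real.exp_pos _).le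
  intro μ hμ
  obtain ⟨ν, rfl, h0, h1, h2⟩ := Adm_elim hμ
  rw [Real.exp_le_exp, EE_fin _ _ h1]
  have := conv2 hn (c := 1 / 4) (σ := 1) (by norm_num) (by simp) l ν h0 h2
  simp only [Real.log_abs, Real.log_exp]
  linarith

lemma key3 (hn : 0 < n) (l ξ : Fin n → ℝ) :
    A3 l (fun i => ξ i / Real.exp (Gam l i)) ≤ NN (fs ξ) ^ 3 * Real.exp (Real.log (tau l) / 4) := by
  set Z := A3 l (fun i => ξ i / Real.exp (Gam l i)) with hZ
  rcases (A3_nonneg l (fun i => ξ i / Real.exp (Gam l i))).eq_or_lt with h0 | h0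
  · rw [hZ, ← h0]; have := NN_nonneg (fs ξ); positivity
  rw [← hZ] at h0
  set ν : Fin n → ℝ := fun i => Real.exp (l i) * |ξ i / Real.exp (Gam l i)| ^ 3 / Z with hν
  have n0 : ∀ i, 0 ≤ ν i := fun i => by simp only [hν]; positivity
  have n1 : ∀ i, ξ i = 0 → ν i = 0 := fun i hi => by simp [hν, hi]
  have n2 : ∑ i, ν i = 1 := by
    simp only [hν]; rw [← Finset.sum_div]; exact div_self h0.ne'
  have h1 := le_NN (Adm_fin n0 n1 n2)
  rw [EE_fin _ _ n1] at h1
  have h2 := conv2 hn (c := 1 / 12) (σ := -1) (by norm_num) (by simp) l ν n0 n2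
  have h3 : ∑ i, ν i * Real.log (ν i) = ∑ i, ν i * l i + 3 * (∑ i, ν i * Real.log |ξ i|
      - ∑ i, ν i * Gam l i) - Real.log Z := by
    rw [← one_mul (Real.log Z), ← n2, Finset.sum_mul, ← Finset.sum_sub_distrib, Finset.mul_sum,
      ← Finset.sum_add_distrib, ← Finset.sum_sub_distrib]
    apply Finset.sum_congr rfl
    intro i _
    by_cases hx : ξ i = 0
    · rw [n1 i hx]; simp
    · have hp := Real.exp_pos (Gam l i)
      have ha := abs_pos.2 hx
      have : Real.log (ν i) = l i + 3 * (Real.log |ξ i| - Gam l i) - Real.log Z := by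
        simp only [hν]
        rw [abs_div, abs_of_pos hp, Real.log_div (by positivity) h0.ne', Real.log_mul (by positivity)
          (by positivity), Real.log_exp, Real.log_pow, Real.log_div ha.ne' hp.ne', Real.log_exp]
        push_cast; ring
      rw [this]; ring
  have h4 : Real.exp (Real.log Z / 3 - Real.log (tau l) / 12) ≤ NN (fs ξ) :=
    le_trans (Real.exp_le_exp.2 (by linarith)) h1
  have h5 := pow_le_pow_left₀ (Real.exp_pos _).le h4 3
  rw [← Real.exp_nat_mul] at h5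
  calc Z = Real.exp (Real.log Z) := (Real.exp_log h0).symm
    _ = Real.exp ((3:ℕ) * (Real.log Z / 3 - Real.log (tau l) / 12))
        * Real.exp (Real.log (tau l) / 4) := by rw [← Real.exp_add]; congr 1; push_cast; ring
    _ ≤ _ := by gcongr

lemma rho_pow (hn : 0 < n) (l : Fin n → ℝ) : Real.exp (Real.log (tau l) / 4) ^ 4 = tau l := by
  rw [← Real.exp_nat_mul, ← Real.exp_log (tau_pos hn l)]
  congr 1; push_cast; rw [Real.exp_log (tau_pos hn l)]; ring

lemma NN_exact (hn : 0 < n) (l : Fin n → ℝ) :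
    NN (fs (fun i => Real.exp (Gam l i))) = Real.exp (Real.log (tau l) / 4) := by
  apply le_antisymm (NN_upper hn l)
  have h := key3 hn l (fun i => Real.exp (Gam l i))
  have e : A3 l (fun i => Real.exp (Gam l i) / Real.exp (Gam l i)) = tau l := by
    simp [A3, tau]
  rw [e] at h
  have h2 := rho_pow hn l
  have hp := Real.exp_pos (Real.log (tau l) / 4)
  set ρ := Real.exp (Real.log (tau l) / 4)
  have h3 : ρ ^ 3 * ρ ≤ NN (fs (fun i => Real.exp (Gam l i))) ^ 3 * ρ := by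
    rw [← pow_succ, h2]; exact h
  exact (pow_le_pow_iff_left₀ hp.le (NN_nonneg _) (by norm_num)).1 (le_of_mul_le_mul_right h3 hp)

lemma key1 (hn : 0 < n) (l ξ : Fin n → ℝ) :
    ∑ i, Real.exp (l i) * |ξ i / Real.exp (Gam l i)|
      ≤ NN (fs ξ) * Real.exp (Real.log (tau l) / 4) ^ 3 := by
  have ht := tau_pos hn l
  have h := key3 hn l ξ
  have h2 := rho_pow hn l
  have hp := Real.exp_pos (Real.log (tau l) / 4)
  set ρ := Real.exp (Real.log (tau l) / 4)
  have h3 := Real.pow_arith_mean_le_arith_mean_pow univ (fun i => Real.exp (l i) / tau l)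
    (fun i => |ξ i / Real.exp (Gam l i)|) (fun i _ => by positivity)
    (by rw [← Finset.sum_div]; exact div_self ht.ne') (fun i _ => abs_nonneg _) 3
  have e1 : ∑ i, Real.exp (l i) / tau l * |ξ i / Real.exp (Gam l i)|
      = (∑ i, Real.exp (l i) * |ξ i / Real.exp (Gam l i)|) / tau l := by
    rw [Finset.sum_div]; apply Finset.sum_congr rfl; intro i _; ring
  have e2 : ∑ i, Real.exp (l i) / tau l * |ξ i / Real.exp (Gam l i)| ^ 3
      = A3 l (fun i => ξ i / Real.exp (Gam l i)) / tau l := by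
    unfold A3; rw [Finset.sum_div]; apply Finset.sum_congr rfl; intro i _; ring
  rw [e1, e2] at h3
  have h4 : A3 l (fun i => ξ i / Real.exp (Gam l i)) / tau l ≤ (NN (fs ξ) / ρ) ^ 3 := by
    rw [div_le_iff₀ ht, ← h2]
    refine h.trans (le_of_eq ?_)
    field_simp
  have hN := NN_nonneg (fs ξ)
  have h5 := (pow_le_pow_iff_left₀ (by positivity) (by positivity) (by norm_num)).1 (h3.trans h4)
  rw [div_le_iff₀ ht, ← h2] at h5
  refine h5.trans (le_of_eq ?_)
  field_simp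

lemma fs_tri_aux (hn : 0 < n) (ξ ζ : Fin n → ℝ) {η : ℝ} (hη : 0 < η) :
    NN (fs (ξ + ζ)) ≤ NN (fs ξ) + NN (fs ζ) + η * NN (fs (fun _ : Fin n => (1:ℝ))) := by
  set l : Fin n → ℝ := LL (fun i => Real.log (|ξ i + ζ i| + η)) with hl
  have hy : ∀ i, Real.exp (Gam l i) = |ξ i + ζ i| + η := by
    intro i; rw [hl, Gam_LL, Real.exp_log (by positivity)]
  have h1 : NN (fs (ξ + ζ)) ≤ NN (fs (fun i => Real.exp (Gam l i))) := by
    apply fs_mono; intro i
    rw [hy, abs_of_pos (show 0 < |ξ i + ζ i| + η by positivity)]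
    simp only [Pi.add_apply]; linarith
  rw [NN_exact hn] at h1
  have k1 := key1 hn l ξ
  have k2 := key1 hn l ζ
  have k3 := key1 hn l (fun _ => 1)
  have h2 := rho_pow hn l
  have hp := Real.exp_pos (Real.log (tau l) / 4)
  set ρ := Real.exp (Real.log (tau l) / 4)
  have h3 : tau l ≤ ∑ i, Real.exp (l i) * |ξ i / Real.exp (Gam l i)|
      + ∑ i, Real.exp (l i) * |ζ i / Real.exp (Gam l i)|
      + η * ∑ i, Real.exp (l i) * |1 / Real.exp (Gam l i)| := by
    rw [Finset.mul_sum, ← Finset.sum_add_distrib, ← Finset.sum_add_distrib]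
    apply Finset.sum_le_sum
    intro i _
    have hq := Real.exp_pos (Gam l i)
    have hm := Real.exp_pos (l i)
    rw [abs_div, abs_div, abs_div, abs_of_pos hq, abs_one]
    have : Real.exp (Gam l i) ≤ |ξ i| + |ζ i| + η := by
      rw [hy]; linarith [abs_add_le (ξ i) (ζ i)]
    calc Real.exp (l i) = Real.exp (l i) * (Real.exp (Gam l i) / Real.exp (Gam l i)) := by
          field_simp
      _ ≤ Real.exp (l i) * ((|ξ i| + |ζ i| + η) / Real.exp (Gam l i)) := by gcongr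
      _ = _ := by ring
  have h4 : ρ * ρ ^ 3 ≤ (NN (fs ξ) + NN (fs ζ) + η * NN (fs (fun _ : Fin n => (1:ℝ)))) * ρ ^ 3 := by
    have := mul_le_mul_of_nonneg_left k3 hη.le
    rw [← pow_succ', h2]; linarith
  exact h1.trans (le_of_mul_le_mul_right h4 (by positivity))

lemma exists_range (S : Finset ℕ) : ∃ n, 0 < n ∧ S ⊆ range n := by
  obtain ⟨n, hn⟩ := Finset.exists_nat_subset_range S
  exact ⟨n + 1, by omega, hn.trans (Finset.range_subset_range.2 (by omega))⟩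

lemma NN_add (x y : ℕ →₀ ℝ) : NN (x + y) ≤ NN x + NN y := by
  obtain ⟨n, hn, hS⟩ := exists_range (x.support ∪ y.support)
  have hx := fs_eq (Finset.subset_union_left.trans hS)
  have hy := fs_eq (Finset.subset_union_right.trans hS)
  apply le_of_forall_pos_le_add
  intro ε hε
  have h0 := NN_nonneg (fs (fun _ : Fin n => (1:ℝ)))
  have h := fs_tri_aux hn (fun i : Fin n => x i) (fun i : Fin n => y i)
    (η := ε / (NN (fs (fun _ : Fin n => (1:ℝ))) + 1)) (by positivity)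
  rw [fs_add, hx, hy] at h
  have : ε / (NN (fs (fun _ : Fin n => (1:ℝ))) + 1) * NN (fs (fun _ : Fin n => (1:ℝ))) ≤ ε := by
    rw [div_mul_eq_mul_div, div_le_iff₀ (by positivity)]; nlinarith
  linarith

section
variable {e : ℝ} (he : 0 < e) (hn : 0 < n)
include he hn

lemma exp_Gam_Lx (ξ : Fin n → ℝ) (i : Fin n) : Real.exp (Gam (Lx e ξ) i) = yy e (ξ i) := by
  unfold Lx; rw [Gam_LL]; unfold Wx; rw [← log_yy he, Real.exp_log (yy_pos he _)]

lemma FF_eq (ξ : Fin n → ℝ) : FF e ξ = NN (fs (fun i => yy e (ξ i))) ^ 4 := by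
  have := NN_exact hn (Lx e ξ)
  simp only [exp_Gam_Lx he hn] at this
  rw [this, rho_pow hn]; rfl

lemma BB_le (ξ h : Fin n → ℝ) : BB e ξ h ≤ NN (fs h) ^ 3 * NN (fs (fun i => yy e (ξ i))) := by
  have h1 := NN_exact hn (Lx e ξ)
  have h2 := key3 hn (Lx e ξ) h
  simp only [exp_Gam_Lx he hn] at h1 h2
  rw [h1]; exact h2

lemma yy_lower (ξ : Fin n → ℝ) : NN (fs ξ) ≤ NN (fs (fun i => yy e (ξ i))) :=
  fs_mono (fun i => (abs_le_yy he _).trans (le_abs_self _))

lemma yy_upper (ξ : Fin n → ℝ) :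
    NN (fs (fun i => yy e (ξ i))) ≤ NN (fs ξ) + e * NN (fs (fun _ : Fin n => (1:ℝ))) := by
  have h1 : NN (fs (fun i => yy e (ξ i))) ≤ NN (fs ((fun i => |ξ i|) + e • fun _ => 1)) := by
    apply fs_mono; intro i
    rw [abs_of_pos (yy_pos he _)]
    refine le_trans ?_ (le_abs_self _)
    simp only [Pi.add_apply, Pi.smul_apply, smul_eq_mul, mul_one]
    apply Real.sqrt_le_iff.2
    refine ⟨by positivity, ?_⟩
    nlinarith [sq_abs (ξ i), mul_nonneg (abs_nonneg (ξ i)) he.le]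
  rw [fs_add, fs_smul] at h1
  have h2 := NN_add (fs (fun i => |ξ i|)) (e • fs (fun _ : Fin n => (1:ℝ)))
  rw [NN_smul, abs_of_pos he] at h2
  have h3 : NN (fs (fun i => |ξ i|)) ≤ NN (fs ξ) := fs_mono (fun i => by simp)
  linarith

end

end Pool.Agent.H853Z.Tsm
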