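import Pool.Agent.H853Z.Tsm.Max
import Pool.Agent.H853Z.Tsm.Calc

set_option autoImplicit false

/-! Derivative bounds for the renewal functional. -/

namespace Pool.Agent.H853Z.Tsm

open Finset Filter Topology
open scoped ContDiff

variable {n : ℕ}

def ex (b : Fin n → ℝ) : ℕ → ℝ := fun i => if h : i < n then b ⟨i, h⟩ else 0

noncomputable def mm (l : Fin n → ℝ) : ℕ → ℝ := ex (fun i => Real.exp (l i))

noncomputable def Psi (m : ℕ → ℝ) (n : ℕ) : ℝ := ∑ s ∈ range n, m s * Vm m 0 s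

noncomputable def PH (l : Fin n → ℝ) : ℝ := Psi (mm l) n

/-- weighting by the measure -/
noncomputable def wt (l u : Fin n → ℝ) : Fin n → ℝ := fun i => Real.exp (l i) * u i

lemma ex_lt (b : Fin n → ℝ) (i : Fin n) : ex b i = b i := by simp [ex]

lemma sum_ex (F : ℕ → ℝ) : ∑ s ∈ range n, F s = ∑ i : Fin n, F i := Finset.sum_range F

lemma mm_nonneg (l : Fin n → ℝ) (i : ℕ) : 0 ≤ mm l i := by
  unfold mm ex; split_ifs <;> positivity

lemma mm_pos (l : Fin n → ℝ) (i : ℕ) (h : i < n) : 0 < mm l i := by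
  unfold mm ex; rw [dif_pos h]; positivity

lemma ex_wt (l u : Fin n → ℝ) (i : ℕ) : ex (wt l u) i = mm l i * ex u i := by
  unfold mm ex wt; split_ifs <;> simp

lemma sm_mm (i : ℕ) : Sm (fun l : Fin n → ℝ => mm l i) := by
  unfold mm ex
  split_ifs with h
  · exact Real.contDiff_exp.comp (contDiff_apply ℝ ℝ _)
  · exact contDiff_const

lemma XX_mm (b : Fin n → ℝ) (i : ℕ) : XX b (fun l => mm l i) = fun _ => ex b i := by
  unfold mm ex
  split_ifs with h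
  · exact XX_expcoord b _
  · exact XX_const _ _

lemma sm_D (t s : ℕ) : Sm (fun l : Fin n → ℝ => Dm (mm l) t s) := Sm.sum (fun i _ => sm_mm i)

lemma XX_D (b : Fin n → ℝ) (t s : ℕ) : XX b (fun l => Dm (mm l) t s) = fun _ => Dm (ex b) t s := by
  unfold Dm
  rw [XX_sum (fun i _ => sm_mm i)]
  simp only [XX_mm]

lemma D_pos (l : Fin n → ℝ) {t s : ℕ} (hs : s < n) (ht : t ≤ s) : 0 < Dm (mm l) t s :=
  Dm_pos (mm_nonneg l) (mm_pos l s hs) ht

lemma sm_z {t s : ℕ} (hs : s < n) (ht : t ≤ s) :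
    Sm (fun l : Fin n → ℝ => Real.log (Dm (mm l) t s)) :=
  (sm_D t s).log (fun l => (D_pos l hs ht).ne')

lemma sm_I {t s : ℕ} (hs : s < n) (ht : t ≤ s) :
    Sm (fun l : Fin n → ℝ => (Dm (mm l) t s)⁻¹) :=
  (sm_D t s).inv (fun l => (D_pos l hs ht).ne')

lemma XX_z (b : Fin n → ℝ) {t s : ℕ} (hs : s < n) (ht : t ≤ s) :
    XX b (fun l => Real.log (Dm (mm l) t s)) = fun l => Dm (ex b) t s * (Dm (mm l) t s)⁻¹ := by
  rw [XX_comp (g := Real.log) (g' := fun x => x⁻¹) (sm_D t s) b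
    (fun l => Real.hasDerivAt_log (D_pos l hs ht).ne'), XX_D]
  funext l; ring

lemma XX_I (b : Fin n → ℝ) {t s : ℕ} (hs : s < n) (ht : t ≤ s) :
    XX b (fun l => (Dm (mm l) t s)⁻¹)
      = fun l => (-Dm (ex b) t s) * ((Dm (mm l) t s)⁻¹ * (Dm (mm l) t s)⁻¹) := by
  rw [XX_comp (g := fun x => x⁻¹) (g' := fun x => -(x ^ 2)⁻¹) (sm_D t s) b
    (fun l => hasDerivAt_inv (D_pos l hs ht).ne'), XX_D]
  funext l; ring

section
variable {b1 b2 b3 l : Fin n → ℝ} {M1 M2 M3 : ℝ} {s : ℕ}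

lemma Bd_z (hs : s < n) {t : ℕ} (ht : t ≤ s) (p1 : 0 ≤ M1) (p2 : 0 ≤ M2) (p3 : 0 ≤ M3)
    (k1 : |Dm (ex b1) t s| ≤ M1 * Dm (mm l) t s) (k2 : |Dm (ex b2) t s| ≤ M2 * Dm (mm l) t s)
    (k3 : |Dm (ex b3) t s| ≤ M3 * Dm (mm l) t s) :
    Bd b1 b2 b3 l M1 M2 M3 (fun l => Real.log (Dm (mm l) t s)) 2 := by
  have hD := D_pos l hs ht
  have q : ∀ {B M : ℝ}, |B| ≤ M * Dm (mm l) t s → |B * (Dm (mm l) t s)⁻¹| ≤ M := by
    intro B M h
    rw [abs_mul, abs_of_pos (inv_pos.2 hD), ← div_eq_mul_inv, div_le_iff₀ hD]; exact h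
  have q1 := q k1
  have q2 := q k2
  have q3 := q k3
  have e2 : ∀ a b : Fin n → ℝ, XX b (XX a (fun l => Real.log (Dm (mm l) t s))) = fun l =>
      (Dm (ex a) t s * (-Dm (ex b) t s)) * ((Dm (mm l) t s)⁻¹ * (Dm (mm l) t s)⁻¹) := by
    intro a b
    rw [XX_z a hs ht, XX_cmul (sm_I hs ht), XX_I b hs ht]
    funext l; ring
  have r2 : ∀ {A B M N : ℝ}, |A * (Dm (mm l) t s)⁻¹| ≤ M → |B * (Dm (mm l) t s)⁻¹| ≤ N →
      0 ≤ M → 0 ≤ N → |(A * (-B)) * ((Dm (mm l) t s)⁻¹ * (Dm (mm l) t s)⁻¹)| ≤ 2 * (M * N) := by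
    intro A B M N h1 h2 h3 h4
    have := abs_mul_le h1 h2
    rw [show (A * (-B)) * ((Dm (mm l) t s)⁻¹ * (Dm (mm l) t s)⁻¹)
      = -(A * (Dm (mm l) t s)⁻¹ * (B * (Dm (mm l) t s)⁻¹)) by ring, abs_neg]
    nlinarith [mul_nonneg h3 h4]
  constructor
  · rw [XX_z _ hs ht]; linarith
  · rw [XX_z _ hs ht]; linarith
  · rw [XX_z _ hs ht]; linarith
  · rw [e2]; exact r2 q1 q2 p1 p2
  · rw [e2]; exact r2 q1 q3 p1 p3
  · rw [e2]; exact r2 q2 q3 p2 p3
  · rw [e2, XX_cmul ((sm_I hs ht).mul (sm_I hs ht)), XX_mul (sm_I hs ht) (sm_I hs ht), XX_I b3 hs ht]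
    have := abs_mul_le (abs_mul_le q1 q2) q3
    have e : Dm (ex b1) t s * -Dm (ex b2) t s *
        (-Dm (ex b3) t s * ((Dm (mm l) t s)⁻¹ * (Dm (mm l) t s)⁻¹) * (Dm (mm l) t s)⁻¹ +
        (Dm (mm l) t s)⁻¹ * (-Dm (ex b3) t s * ((Dm (mm l) t s)⁻¹ * (Dm (mm l) t s)⁻¹)))
        = 2 * (Dm (ex b1) t s * (Dm (mm l) t s)⁻¹ * (Dm (ex b2) t s * (Dm (mm l) t s)⁻¹)
          * (Dm (ex b3) t s * (Dm (mm l) t s)⁻¹)) := by ring
    simp only []
    rw [e, abs_mul, abs_two]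
    linarith

lemma Q_eq (hs : s < n) {a t : ℕ} (ha : a ≤ s) (ht : t ≤ s) :
    (fun l : Fin n → ℝ => Qm (mm l) a t s) = fun l =>
      Real.exp (al a * (Real.log (Dm (mm l) t s) - Real.log (Dm (mm l) a s))) := by
  funext l
  unfold Qm
  rw [Real.rpow_def_of_pos (div_pos (D_pos l hs ht) (D_pos l hs ha)),
    Real.log_div (D_pos l hs ht).ne' (D_pos l hs ha).ne', mul_comm]

lemma sm_Q (hs : s < n) {a t : ℕ} (ha : a ≤ s) (ht : t ≤ s) :
    Sm (fun l : Fin n → ℝ => Qm (mm l) a t s) := by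
  rw [Q_eq hs ha ht]
  exact Real.contDiff_exp.comp (contDiff_const.mul ((sm_z hs ht).sub (sm_z hs ha)))

lemma sm_del (hs : s < n) : ∀ a, Sm (fun l : Fin n → ℝ => del (mm l) s a) := by
  apply down_ind s
  intro a ih
  simp only [del_eq _ s a]
  apply contDiff_const.sub
  apply Sm.sum
  intro t ht; simp only [Finset.mem_Ioc] at ht
  exact (sm_Q hs (by omega) ht.2).mul (ih t ht.1 ht.2)

lemma sm_V (hs : s < n) (a : ℕ) : Sm (fun l : Fin n → ℝ => Vm (mm l) a s) :=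
  Sm.sum (fun t _ => sm_del hs t)

lemma al_sum (a s : ℕ) : ∑ t ∈ Ioc a s, al t ≤ al a / 3 := by
  have key : ∀ k, ∑ t ∈ Ioc a (a + k), al t = (al a - al (a + k)) / 3 := by
    intro k
    induction k with
    | zero => simp
    | succ k ih =>
      rw [← add_assoc, Finset.sum_Ioc_succ_top (by omega), ih, al_succ]; ring
  by_cases h : a ≤ s
  · obtain ⟨k, rfl⟩ := Nat.exists_eq_add_of_le h
    rw [key]; linarith [al_pos (a + k)]
  · rw [Finset.Ioc_eq_empty (by omega)]; simp; linarith [al_pos a]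

lemma Bd_del (hs : s < n) (p1 : 0 ≤ M1) (p2 : 0 ≤ M2) (p3 : 0 ≤ M3)
    (k1 : ∀ t, t ≤ s → |Dm (ex b1) t s| ≤ M1 * Dm (mm l) t s)
    (k2 : ∀ t, t ≤ s → |Dm (ex b2) t s| ≤ M2 * Dm (mm l) t s)
    (k3 : ∀ t, t ≤ s → |Dm (ex b3) t s| ≤ M3 * Dm (mm l) t s) :
    ∀ a, Bd b1 b2 b3 l M1 M2 M3 (fun l => del (mm l) s a) (60 * al a) := by
  have hm := mm_nonneg l
  have hp := mm_pos l s hs
  apply down_ind s
  intro a ih
  simp only [del_eq _ s a]
  have hal := al_pos a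
  have hal' := al_le a
  have hQ : ∀ t ∈ Ioc a s, Bd b1 b2 b3 l M1 M2 M3 (fun l => Qm (mm l) a t s)
      (Qm (mm l) a t s * (5 * (al a * 4))) := by
    intro t ht; simp only [Finset.mem_Ioc] at ht
    have ha : a ≤ s := by omega
    have h1 := ((Bd_z hs ht.2 p1 p2 p3 (k1 t ht.2) (k2 t ht.2) (k3 t ht.2)).sub (sm_z hs ht.2)
      (sm_z hs ha) (Bd_z hs ha p1 p2 p3 (k1 a ha) (k2 a ha) (k3 a ha))).cmul
      ((sm_z hs ht.2).sub (sm_z hs ha)) (al a)
    rw [abs_of_pos hal] at h1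
    have h2 := h1.exp (contDiff_const.mul ((sm_z hs ht.2).sub (sm_z hs ha))) (by positivity)
      (by linarith) p1 p2 p3
    have e := Q_eq hs ha ht.2
    have e' := congrFun e l
    rw [e, e', show (4:ℝ) = 2 + 2 by norm_num]
    exact h2
  have hT : ∀ t ∈ Ioc a s, Bd b1 b2 b3 l M1 M2 M3 (fun l => Qm (mm l) a t s * del (mm l) s t)
      (61 * al t + 20 * al a * (Qm (mm l) a t s * del (mm l) s t)) := by
    intro t ht
    have ht' := Finset.mem_Ioc.1 ht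
    have q0 := Qm_nonneg hm a t s
    have q1 := Qm_le_one hm s ht'.1.le
    have d0 := del_nonneg hm hp t
    have hat := al_pos t
    refine ((hQ t ht).mul (sm_Q hs (by omega) ht'.2) (sm_del hs t) (ih t ht'.1 ht'.2)
      (F := 1) (G := del (mm l) s t) (by rw [abs_of_nonneg q0]; exact q1)
      (le_of_eq (abs_of_nonneg d0)) (by positivity) (by positivity) p1 p2 p3).mono ?_ p1 p2 p3
    have : Qm (mm l) a t s * al a * al t ≤ 1 * (1 / 1000000) * al t := by gcongr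
    nlinarith
  have h3 := (Bd.const (b1 := b1) (b2 := b2) (b3 := b3) (l := l) (M1 := M1) (M2 := M2)
    (M3 := M3) 1).sub contDiff_const
    (Sm.sum (fun t ht => (sm_Q hs (by have := Finset.mem_Ioc.1 ht; omega)
      (Finset.mem_Ioc.1 ht).2).mul (sm_del hs t))) (Bd.sum _ (fun t ht => (sm_Q hs
      (by have := Finset.mem_Ioc.1 ht; omega) (Finset.mem_Ioc.1 ht).2).mul (sm_del hs t)) hT)
  refine h3.mono ?_ p1 p2 p3
  rw [Finset.sum_add_distrib, ← Finset.mul_sum, ← Finset.mul_sum]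
  have h4 := al_sum a s
  have h5 := mul_le_mul_of_nonneg_left (R_le_one hm hp a) hal.le
  nlinarith

lemma Bd_V (hs : s < n) (p1 : 0 ≤ M1) (p2 : 0 ≤ M2) (p3 : 0 ≤ M3)
    (k1 : ∀ t, t ≤ s → |Dm (ex b1) t s| ≤ M1 * Dm (mm l) t s)
    (k2 : ∀ t, t ≤ s → |Dm (ex b2) t s| ≤ M2 * Dm (mm l) t s)
    (k3 : ∀ t, t ≤ s → |Dm (ex b3) t s| ≤ M3 * Dm (mm l) t s) :
    Bd b1 b2 b3 l M1 M2 M3 (fun l => Vm (mm l) 0 s) (1 / 10000) := by
  refine (Bd.sum (Icc 0 s) (fun t _ => sm_del hs t)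
    (fun t _ => Bd_del hs p1 p2 p3 k1 k2 k3 t)).mono ?_ p1 p2 p3
  rw [← Finset.mul_sum, Icc_split (Nat.zero_le s)]
  have := al_sum 0 s
  have := al_le 0
  linarith

lemma k_self (hb : ∀ t, t ≤ s → |Dm (ex b1) t s| ≤ M1 * Dm (mm l) t s) :
    |ex b1 s| ≤ mm l s * M1 := by
  have := hb s le_rfl
  simpa [Dm, mul_comm] using this

lemma mV_two (hs : s < n) (p1 : 0 ≤ M1) (p2 : 0 ≤ M2)
    (k1 : ∀ t, t ≤ s → |Dm (ex b1) t s| ≤ M1 * Dm (mm l) t s)
    (k2 : ∀ t, t ≤ s → |Dm (ex b2) t s| ≤ M2 * Dm (mm l) t s) :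
    |XX b2 (XX b1 (fun l => mm l s * Vm (mm l) 0 s)) l| ≤ 3 / 10000 * (mm l s * (M1 * M2)) := by
  have h := Bd_V hs p1 p2 p2 k1 k2 k2
  have hm : |mm l s| ≤ mm l s := le_of_eq (abs_of_nonneg (mm_nonneg l s))
  rw [XX2_mul (sm_mm s) (sm_V hs 0)]
  simp only [XX_mm, XX_const, zero_mul, zero_add]
  refine (abs_add_le' (abs_mul_le (k_self k1) h.h2) (abs_add_le' (abs_mul_le (k_self k2) h.h1)
    (abs_mul_le hm h.h12))).trans (le_of_eq (by ring))

lemma mV_three (hs : s < n) (p1 : 0 ≤ M1) (p2 : 0 ≤ M2) (p3 : 0 ≤ M3)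
    (k1 : ∀ t, t ≤ s → |Dm (ex b1) t s| ≤ M1 * Dm (mm l) t s)
    (k2 : ∀ t, t ≤ s → |Dm (ex b2) t s| ≤ M2 * Dm (mm l) t s)
    (k3 : ∀ t, t ≤ s → |Dm (ex b3) t s| ≤ M3 * Dm (mm l) t s) :
    |XX b3 (XX b2 (XX b1 (fun l => mm l s * Vm (mm l) 0 s))) l|
      ≤ 4 / 10000 * (mm l s * (M1 * M2 * M3)) := by
  have h := Bd_V hs p1 p2 p3 k1 k2 k3
  have hm : |mm l s| ≤ mm l s := le_of_eq (abs_of_nonneg (mm_nonneg l s))
  rw [XX3_mul (sm_mm s) (sm_V hs 0)]
  simp only [XX_mm, XX_const, zero_mul, zero_add]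
  refine (abs_add_le' (abs_mul_le (k_self k1) h.h23) (abs_add_le' (abs_mul_le (k_self k2) h.h13)
    (abs_add_le' (abs_mul_le (k_self k3) h.h12) (abs_mul_le hm h.h123)))).trans (le_of_eq (by ring))

end

lemma sm_mV {s : ℕ} (hs : s ∈ range n) : Sm (fun l : Fin n → ℝ => mm l s * Vm (mm l) 0 s) :=
  (sm_mm s).mul (sm_V (Finset.mem_range.1 hs) 0)

lemma sm_PH : Sm (PH : (Fin n → ℝ) → ℝ) := Sm.sum (fun _ hs => sm_mV hs)

lemma PH_eq : (PH : (Fin n → ℝ) → ℝ) = fun l => ∑ s ∈ range n, mm l s * Vm (mm l) 0 s := rfl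

lemma k_max (l u : Fin n → ℝ) {s : ℕ} (hs : s < n) (t : ℕ) (ht : t ≤ s) :
    |Dm (ex (wt l u)) t s| ≤ Mx (mm l) (fun i => |ex u i|) s * Dm (mm l) t s := by
  have h := Mx_ge (mm l) (fun i => |ex u i|) ht
  rw [div_le_iff₀ (D_pos l hs ht)] at h
  refine le_trans ?_ h
  unfold Dm
  refine (Finset.abs_sum_le_sum_abs _ _).trans (le_of_eq ?_)
  apply Finset.sum_congr rfl
  intro i _
  rw [ex_wt, abs_mul, abs_of_nonneg (mm_nonneg l i)]

lemma PH_two (l u v : Fin n → ℝ) : |XX (wt l v) (XX (wt l u) PH) l| ≤ 3 / 10000 *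
    ∑ s ∈ range n, mm l s * (Mx (mm l) (fun i => |ex u i|) s * Mx (mm l) (fun i => |ex v i|) s) := by
  rw [PH_eq, XX_sum (fun s hs => sm_mV hs), XX_sum (fun s hs => (sm_mV hs).XX _), Finset.mul_sum]
  refine (Finset.abs_sum_le_sum_abs _ _).trans (Finset.sum_le_sum ?_)
  intro s hs
  have hs' := Finset.mem_range.1 hs
  exact mV_two hs' (Mx_nonneg (mm_nonneg l) (fun i => abs_nonneg _) s)
    (Mx_nonneg (mm_nonneg l) (fun i => abs_nonneg _) s) (k_max l u hs') (k_max l v hs')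

/-- cubic moment -/
noncomputable def A3 (l u : Fin n → ℝ) : ℝ := ∑ i, Real.exp (l i) * |u i| ^ 3

lemma A3_nonneg (l u : Fin n → ℝ) : 0 ≤ A3 l u := Finset.sum_nonneg (fun i _ => by positivity)

lemma A3_eq (l u : Fin n → ℝ) : ∑ s ∈ range n, mm l s * |ex u s| ^ 3 = A3 l u := by
  rw [sum_ex]; simp [A3, mm, ex_lt]

lemma max_A3 (l u : Fin n → ℝ) :
    ∑ s ∈ range n, mm l s * Mx (mm l) (fun i => |ex u i|) s ^ 3 ≤ 40 * A3 l u := by
  rw [← A3_eq]; exact max_three (mm_nonneg l) (mm_pos l) (fun i => abs_nonneg _)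

lemma PH_h2 (l u : Fin n → ℝ) :
    |XX (wt l u) (XX (wt l u) PH) l| ≤ 1 / 100 * ∑ i, Real.exp (l i) * u i ^ 2 := by
  refine (PH_two l u u).trans ?_
  have h := max_two (mm_nonneg l) (mm_pos l) (a := fun i => |ex u i|) (fun i => abs_nonneg _)
  have e : ∑ s ∈ range n, mm l s * |ex u s| ^ 2 = ∑ i, Real.exp (l i) * u i ^ 2 := by
    rw [sum_ex]; simp [mm, ex_lt]
  rw [e] at h
  simp only [← sq]
  have : 0 ≤ ∑ i, Real.exp (l i) * u i ^ 2 := Finset.sum_nonneg (fun i _ => by positivity)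
  linarith

lemma PH_h23 (l u a b : Fin n → ℝ) :
    |XX (wt l (fun i => a i * b i)) (XX (wt l u) PH) l| ≤ 1 / 100 * (A3 l u + A3 l a + A3 l b) := by
  refine (PH_two l u _).trans ?_
  have e : (fun i => |ex (fun i => a i * b i) i|) = fun i => |ex a i| * |ex b i| := by
    funext i; unfold ex; split_ifs <;> simp [abs_mul]
  rw [e]
  have h1 := max_A3 l u
  have h2 := max_prod (mm_nonneg l) (mm_pos l) (a := fun i => |ex a i|) (b := fun i => |ex b i|)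
    (fun i => abs_nonneg _) (fun i => abs_nonneg _)
  rw [A3_eq, A3_eq] at h2
  have h3 : ∑ s ∈ range n, mm l s * (Mx (mm l) (fun i => |ex u i|) s *
      Mx (mm l) (fun i => |ex a i| * |ex b i|) s) ≤
      ∑ s ∈ range n, (1 / 3 * (mm l s * Mx (mm l) (fun i => |ex u i|) s ^ 3) + 2 / 3 *
        (mm l s * Real.sqrt (Mx (mm l) (fun i => |ex a i| * |ex b i|) s) ^ 3)) := by
    apply Finset.sum_le_sum
    intro s _
    have g0 := Mx_nonneg (mm_nonneg l) (a := fun i => |ex a i| * |ex b i|)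
      (fun i => by positivity) s
    have f0 := Mx_nonneg (mm_nonneg l) (a := fun i => |ex u i|) (fun i => by positivity) s
    have := amgm3 f0 (Real.sqrt_nonneg (Mx (mm l) (fun i => |ex a i| * |ex b i|) s))
      (Real.sqrt_nonneg (Mx (mm l) (fun i => |ex a i| * |ex b i|) s))
    rw [mul_assoc, Real.mul_self_sqrt g0] at this
    nlinarith [mul_le_mul_of_nonneg_left this (mm_nonneg l s)]
  rw [Finset.sum_add_distrib, ← Finset.mul_sum, ← Finset.mul_sum] at h3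
  have := A3_nonneg l u
  have := A3_nonneg l a
  have := A3_nonneg l b
  linarith

lemma PH_h3 (l u v w : Fin n → ℝ) :
    |XX (wt l w) (XX (wt l v) (XX (wt l u) PH)) l| ≤ 1 / 100 * (A3 l u + A3 l v + A3 l w) := by
  rw [PH_eq, XX_sum (fun s hs => sm_mV hs), XX_sum (fun s hs => (sm_mV hs).XX _),
    XX_sum (fun s hs => ((sm_mV hs).XX _).XX _)]
  have h1 : ∀ s ∈ range n, |XX (wt l w) (XX (wt l v) (XX (wt l u)
      (fun l => mm l s * Vm (mm l) 0 s))) l| ≤ 4 / 30000 *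
      (mm l s * Mx (mm l) (fun i => |ex u i|) s ^ 3 + mm l s * Mx (mm l) (fun i => |ex v i|) s ^ 3
        + mm l s * Mx (mm l) (fun i => |ex w i|) s ^ 3) := by
    intro s hs
    have hs' := Finset.mem_range.1 hs
    have f1 := Mx_nonneg (mm_nonneg l) (a := fun i => |ex u i|) (fun i => by positivity) s
    have f2 := Mx_nonneg (mm_nonneg l) (a := fun i => |ex v i|) (fun i => by positivity) s
    have f3 := Mx_nonneg (mm_nonneg l) (a := fun i => |ex w i|) (fun i => by positivity) s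
    refine (mV_three hs' f1 f2 f3 (k_max l u hs') (k_max l v hs') (k_max l w hs')).trans ?_
    nlinarith [mul_le_mul_of_nonneg_left (amgm3 f1 f2 f3) (mm_nonneg l s)]
  refine (Finset.abs_sum_le_sum_abs _ _).trans ((Finset.sum_le_sum h1).trans ?_)
  rw [← Finset.mul_sum, Finset.sum_add_distrib, Finset.sum_add_distrib]
  have := max_A3 l u
  have := max_A3 l v
  have := max_A3 l w
  have := A3_nonneg l u
  have := A3_nonneg l v
  have := A3_nonneg l w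
  linarith

lemma PH_bdd (l : Fin n → ℝ) (i : Fin n) : |XX (Pi.single i 1) PH l| ≤ n * (2 * n) := by
  rw [PH_eq, XX_sum (fun s hs => sm_mV hs)]
  refine (Finset.abs_sum_le_sum_abs _ _).trans ?_
  have hb : ∀ j, |ex (Pi.single i (1:ℝ) : Fin n → ℝ) j| ≤ 1 := by
    intro j; unfold ex; split_ifs
    · rw [Pi.single_apply]; split_ifs <;> simp
    · simp
  have h1 : ∀ s ∈ range n, |XX (Pi.single i 1) (fun l => mm l s * Vm (mm l) 0 s) l| ≤ 2 * n := by
    intro s hs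
    have hs' := Finset.mem_range.1 hs
    have hp := mm_pos l s hs'
    have hn : (s:ℝ) + 1 ≤ n := by exact_mod_cast hs'
    have k : ∀ t, t ≤ s → |Dm (ex (Pi.single i (1:ℝ) : Fin n → ℝ)) t s|
        ≤ (n / mm l s) * Dm (mm l) t s := by
      intro t ht
      have h2 : |Dm (ex (Pi.single i (1:ℝ) : Fin n → ℝ)) t s| ≤ n := by
        refine (Finset.abs_sum_le_sum_abs _ _).trans ((Finset.sum_le_sum (fun j _ => hb j)).trans ?_)
        have : (Icc t s).card ≤ n := by simp; omega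
        simpa using (show ((Icc t s).card : ℝ) ≤ n by exact_mod_cast this)
      have h3 := Dm_ge (mm_nonneg l) ht
      calc _ ≤ (n:ℝ) := h2
        _ = (n / mm l s) * mm l s := by field_simp
        _ ≤ _ := by gcongr
    have p : (0:ℝ) ≤ n / mm l s := by positivity
    have h := (Bd_V hs' p p p k k k).h1
    rw [XX_mul (sm_mm s) (sm_V hs' 0), XX_mm]
    have hV : |Vm (mm l) 0 s| ≤ n := by
      rw [abs_of_nonneg (Vm_nonneg (mm_nonneg l) hp 0)]
      exact (Vm_le (mm_nonneg l) hp 0).trans hn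
    refine (abs_add_le' (abs_mul_le (hb s) hV) (abs_mul_le (le_of_eq (abs_of_pos hp)) h)).trans ?_
    have : mm l s * (1 / 10000 * (n / mm l s)) = n / 10000 := by field_simp
    rw [this]
    have : (0:ℝ) ≤ n := by positivity
    linarith
  refine (Finset.sum_le_sum h1).trans (le_of_eq ?_)
  simp

lemma Psi_smul (m : ℕ → ℝ) {c : ℝ} (hc : c ≠ 0) (n : ℕ) :
    Psi (fun i => c * m i) n = c * Psi m n := by
  unfold Psi
  rw [Finset.mul_sum]
  apply Finset.sum_congr rfl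
  intro s _
  rw [Vm_congr (m := m) hc (fun i _ _ => rfl)]; ring

lemma PH_euler (l : Fin n → ℝ) : XX (fun i => Real.exp (l i)) PH l = PH l := by
  have h1 : HasDerivAt (fun t : ℝ => l + t • (fun _ => (1:ℝ) : Fin n → ℝ)) (fun _ => (1:ℝ)) 0 := by
    simpa using ((hasDerivAt_id (0:ℝ)).smul_const (fun _ => (1:ℝ) : Fin n → ℝ)).const_add l
  have h2 := (sm_PH.diff (l + (0:ℝ) • (fun _ => (1:ℝ) : Fin n → ℝ))).hasFDerivAt.comp_hasDerivAt
    (0:ℝ) h1
  have e : (PH ∘ fun t : ℝ => l + t • (fun _ => (1:ℝ) : Fin n → ℝ)) = fun t => Real.exp t * PH l := by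
    funext t
    simp only [Function.comp, PH]
    rw [← Psi_smul _ (Real.exp_pos t).ne']
    congr 1
    funext i
    unfold mm ex
    split_ifs <;> simp [Real.exp_add, mul_comm]
  rw [e] at h2
  have h3 := h2.unique ((Real.hasDerivAt_exp 0).mul_const (PH l))
  simp only [zero_smul, add_zero, Real.exp_zero, one_mul] at h3
  rw [fderiv_eq_XX] at h3
  simpa using h3

end Pool.Agent.H853Z.Tsm
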